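import Pool.Agent.Lib.Constructible.Model

/-!
The axiom of choice in the constructible universe: every set has an ordinal code.
-/

universe u

set_option synthInstance.maxSize 16384

namespace Pool.Agent.Lib.Forcing

open ZFSet

variable {M : Set ZFSet.{u}}

/-- The canonical well-ordering of pairs of ordinals. -/
def PairLt (y x : ZFSet.{u}) : Prop :=
  ∃ α β, x = pair α β ∧ α.IsOrdinal ∧ β.IsOrdinal ∧ ∃ γ δ, y = pair γ δ ∧ γ.IsOrdinal ∧
    δ.IsOrdinal ∧ (γ ∪ δ ∈ α ∪ β ∨ (γ ∪ δ = α ∪ β ∧ (γ ∈ α ∨ (γ = α ∧ δ ∈ β))))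

theorem pairLt_wf : WellFounded PairLt.{u} := by
  have h : ∀ μ α β : ZFSet.{u}, α ∪ β = μ → Acc PairLt (pair α β) := by
    intro μ
    induction μ using ZFSet.inductionOn with
    | h μ ih1 =>
      intro α
      induction α using ZFSet.inductionOn with
      | h α ih2 =>
        intro β
        induction β using ZFSet.inductionOn with
        | h β ih3 =>
          intro hμ
          constructor
          rintro y ⟨α', β', h, -, -, γ, δ, rfl, -, -, h'⟩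
          obtain ⟨rfl, rfl⟩ := pair_inj.1 h
          rcases h' with h' | ⟨h1, h' | ⟨rfl, h'⟩⟩
          exacts [ih1 _ (hμ ▸ h') γ δ rfl, ih2 γ h' δ (h1.trans hμ), ih3 δ h' (h1.trans hμ)]
  constructor
  intro x
  constructor
  rintro y ⟨α', β', -, -, -, γ, δ, rfl, -⟩
  exact h _ γ δ rfl

theorem PairLt.trans {x y z : ZFSet.{u}} (h1 : PairLt x y) (h2 : PairLt y z) : PairLt x z := by
  obtain ⟨α, β, rfl, ha, hb, γ, δ, rfl, hc, hd, h1⟩ := h1
  obtain ⟨α', β', rfl, ha', hb', γ', δ', h, -, -, h2⟩ := h2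
  obtain ⟨rfl, rfl⟩ := pair_inj.1 h
  refine ⟨α', β', rfl, ha', hb', γ, δ, rfl, hc, hd, ?_⟩
  rcases h1 with h1 | ⟨h1, h3⟩
  · rcases h2 with h2 | ⟨h2, -⟩
    exacts [Or.inl ((isOrdinal_union ha' hb').mem_trans h1 h2), Or.inl (h2 ▸ h1)]
  · rcases h2 with h2 | ⟨h2, h4⟩
    · exact Or.inl (h1 ▸ h2)
    · refine Or.inr ⟨h1.trans h2, ?_⟩
      rcases h3 with h3 | ⟨rfl, h3⟩ <;> rcases h4 with h4 | ⟨rfl, h4⟩
      exacts [Or.inl (ha'.mem_trans h3 h4), Or.inl h3, Or.inl h4, Or.inr ⟨rfl, hb'.mem_trans h3 h4⟩]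

theorem pairLt_trichotomous {α β γ δ : ZFSet.{u}} (ha : α.IsOrdinal) (hb : β.IsOrdinal)
    (hc : γ.IsOrdinal) (hd : δ.IsOrdinal) :
    PairLt (pair α β) (pair γ δ) ∨ (α = γ ∧ β = δ) ∨ PairLt (pair γ δ) (pair α β) := by
  rcases (isOrdinal_union ha hb).mem_trichotomous (isOrdinal_union hc hd) with h | h | h
  · exact Or.inl ⟨_, _, rfl, hc, hd, _, _, rfl, ha, hb, Or.inl h⟩
  · rcases ha.mem_trichotomous hc with h1 | rfl | h1
    · exact Or.inl ⟨_, _, rfl, hc, hd, _, _, rfl, ha, hb, Or.inr ⟨h, Or.inl h1⟩⟩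
    · rcases hb.mem_trichotomous hd with h2 | rfl | h2
      · exact Or.inl ⟨_, _, rfl, hc, hd, _, _, rfl, ha, hb, Or.inr ⟨h, Or.inr ⟨rfl, h2⟩⟩⟩
      · exact Or.inr (Or.inl ⟨rfl, rfl⟩)
      · exact Or.inr (Or.inr ⟨_, _, rfl, ha, hb, _, _, rfl, hc, hd,
          Or.inr ⟨h.symm, Or.inr ⟨rfl, h2⟩⟩⟩)
    · exact Or.inr (Or.inr ⟨_, _, rfl, ha, hb, _, _, rfl, hc, hd, Or.inr ⟨h.symm, Or.inl h1⟩⟩)
  · exact Or.inr (Or.inr ⟨_, _, rfl, ha, hb, _, _, rfl, hc, hd, Or.inl h⟩)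

theorem mem_rk_of_pair {α β : ZFSet.{u}} (ha : α.IsOrdinal) (hb : β.IsOrdinal) :
    α ∈ rk (pair α β) ∧ β ∈ rk (pair α β) := by
  have h1 : ({α, β} : ZFSet.{u}) ∈ pair α β := mem_pair.2 (Or.inr rfl)
  have h2 : rk {α, β} ⊆ rk (pair α β) :=
    Ordinal.toZFSet_subset_toZFSet_iff.2 (rank_lt_of_mem h1).le
  exact ⟨h2 (mem_rk_of_isOrdinal ha (mem_pair.2 (Or.inl rfl))),
    h2 (mem_rk_of_isOrdinal hb (mem_pair.2 (Or.inr rfl)))⟩

theorem PairLt.mem_prod {ρ α β y : ZFSet.{u}} (hρ : ρ.IsOrdinal) (ha : α ∈ ρ) (hb : β ∈ ρ)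
    (h : PairLt y (pair α β)) : y ∈ ρ.prod ρ := by
  obtain ⟨α', β', h, ha', hb', γ, δ, rfl, hc, hd, h'⟩ := h
  obtain ⟨rfl, rfl⟩ := pair_inj.1 h
  have h1 : γ ∪ δ ⊆ α ∪ β := by
    rcases h' with h' | h'
    exacts [(isOrdinal_union ha' hb').subset_of_mem h', h'.1.le]
  have h2 : α ∪ β ∈ ρ := by
    rcases ha'.subset_total hb' with h | h
    · rwa [show α ∪ β = β from by ext z; simp only [mem_union]; exact ⟨fun h' => h'.elim (@h z) id, Or.inr⟩]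
    · rwa [show α ∪ β = α from by ext z; simp only [mem_union]; exact ⟨fun h' => h'.elim id (@h z), Or.inl⟩]
  exact pair_mem_prod.2 ⟨hc.mem_of_subset_of_mem hρ ((subset_union_left' _ _).trans h1) h2,
    hd.mem_of_subset_of_mem hρ ((subset_union_right' _ _).trans h1) h2⟩

theorem PairLt.mem_prod' {x y : ZFSet.{u}} (h : PairLt y x) : y ∈ (rk x).prod (rk x) := by
  obtain ⟨α, β, rfl, ha, hb, -⟩ := id h
  exact h.mem_prod (isOrdinal_rk _) (mem_rk_of_pair ha hb).1 (mem_rk_of_pair ha hb).2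

theorem exists_gp : ∃ g : ZFSet.{u} → ZFSet.{u}, ∀ x z, z ∈ g x ↔ ∃ y, PairLt y x ∧ g y = z := by
  let g : ZFSet.{u} → ZFSet.{u} := pairLt_wf.fix fun x IH =>
    range fun y : ((rk x).prod (rk x)).sep (PairLt · x) => IH y.1 (mem_sep.1 y.2).2
  refine ⟨g, fun x z => ?_⟩
  have : g x = range fun y : ((rk x).prod (rk x)).sep (PairLt · x) => g y.1 := by
    simp only [g]; rw [WellFounded.fix_eq]
  rw [this, mem_range]
  constructor
  · rintro ⟨⟨y, hy⟩, rfl⟩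
    exact ⟨y, (mem_sep.1 hy).2, rfl⟩
  · rintro ⟨y, h, rfl⟩
    exact ⟨⟨y, mem_sep.2 ⟨h.mem_prod', h⟩⟩, rfl⟩

/-- Goedel's pairing function. -/
noncomputable def gp (x : ZFSet.{u}) : ZFSet.{u} := exists_gp.choose x

theorem mem_gp {x z : ZFSet.{u}} : z ∈ gp x ↔ ∃ y, PairLt y x ∧ gp y = z :=
  exists_gp.choose_spec x z

theorem isOrdinal_gp (x : ZFSet.{u}) : (gp x).IsOrdinal := by
  induction x using pairLt_wf.induction with
  | h x ih =>
    refine isOrdinal_iff_forall_mem_isOrdinal.2 ⟨fun z hz w hw => ?_, fun z hz => ?_⟩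
    · obtain ⟨y, h1, rfl⟩ := mem_gp.1 hz
      obtain ⟨y', h2, rfl⟩ := mem_gp.1 hw
      exact mem_gp.2 ⟨y', h2.trans h1, rfl⟩
    · obtain ⟨y, h1, rfl⟩ := mem_gp.1 hz
      exact ih y h1

theorem gp_inj {α β γ δ : ZFSet.{u}} (ha : α.IsOrdinal) (hb : β.IsOrdinal)
    (hc : γ.IsOrdinal) (hd : δ.IsOrdinal) (h : gp (pair α β) = gp (pair γ δ)) : α = γ ∧ β = δ := by
  rcases pairLt_trichotomous ha hb hc hd with h' | h' | h'
  · exact (mem_irrefl _ (mem_gp.2 ⟨_, h', h⟩)).elim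
  · exact h'
  · exact (mem_irrefl _ (mem_gp.2 ⟨_, h', h.symm⟩)).elim

def fst (p : ZFSet.{u}) : ZFSet.{u} := (⋃₀ ⋃₀ p).sep fun z => ∃ a b, p = pair a b ∧ z ∈ a
def snd (p : ZFSet.{u}) : ZFSet.{u} := (⋃₀ ⋃₀ p).sep fun z => ∃ a b, p = pair a b ∧ z ∈ b

@[simp] theorem fst_pair (a b : ZFSet.{u}) : fst (pair a b) = a := by
  ext z
  simp only [fst, mem_sep, mem_sUnion]
  constructor
  · rintro ⟨-, a', b', h, hz⟩
    rwa [(pair_inj.1 h).1]
  · exact fun hz => ⟨⟨a, ⟨{a}, mem_insert _ _, mem_singleton.2 rfl⟩, hz⟩, a, b, rfl, hz⟩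

@[simp] theorem snd_pair (a b : ZFSet.{u}) : snd (pair a b) = b := by
  ext z
  simp only [snd, mem_sep, mem_sUnion]
  constructor
  · rintro ⟨-, a', b', h, hz⟩
    rwa [(pair_inj.1 h).2]
  · exact fun hz => ⟨⟨b, ⟨{a, b}, mem_pair.2 (Or.inr rfl), mem_pair.2 (Or.inr rfl)⟩, hz⟩,
      a, b, rfl, hz⟩

open Classical in
/-- The operations that generate the constructible universe from the ordinals. -/
noncomputable def gop (a b τ x y : ZFSet.{u}) : ZFSet.{u} :=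
  if τ = nat 1 then {x, y} else if τ = nat 2 then x ∪ y else if τ = nat 3 then x \ y
  else if τ = nat 4 then level b x else if τ = nat 5 then a
  else if τ = nat 6 then opExt x (fst y) (snd y)
  else if τ = nat 7 then opMem x (fst y) (snd y)
  else if τ = nat 8 then opEq x (fst y) (snd y)
  else if τ = nat 9 then opAll x (fst y) (fst (snd y)) (snd (snd y))
  else opSec x (fst y) (fst (snd y)) (snd (snd y))

def CAx (z : ZFSet.{u}) : Prop := ∃ γ α, z = pair γ α ∧ α.IsOrdinal ∧ γ = gp (pair ∅ α)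

def CStep (a b z p q : ZFSet.{u}) : Prop :=
  ∃ γ x, p = pair γ x ∧ ∃ δ y, q = pair δ y ∧ ∃ τ ∈ omega, τ ≠ ∅ ∧
    z = pair (gp (pair τ (gp (pair γ δ)))) (gop a b τ x y)

theorem code_ordinal {a b z : ZFSet.{u}} (h : Gen M CAx (CStep a b) z) :
    ∀ γ x, z = pair γ x → γ.IsOrdinal := by
  intro γ x h'
  cases h with
  | ax _ h =>
    obtain ⟨γ', α, rfl, -, rfl⟩ := h
    exact (pair_inj.1 h').1 ▸ isOrdinal_gp _
  | step _ _ _ h =>
    obtain ⟨_, _, -, _, _, -, τ, -, -, rfl⟩ := h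
    exact (pair_inj.1 h').1 ▸ isOrdinal_gp _

theorem code_unique {a b z : ZFSet.{u}} (h : Gen M CAx (CStep a b) z) :
    ∀ γ x x', z = pair γ x → Gen M CAx (CStep a b) (pair γ x') → x = x' := by
  induction h with
  | ax _ h =>
    intro γ x x' h1 h2
    obtain ⟨γ', α, rfl, ho, rfl⟩ := h
    obtain ⟨rfl, rfl⟩ := pair_inj.1 h1
    cases h2 with
    | ax _ h =>
      obtain ⟨γ', α', h3, ho', rfl⟩ := h
      obtain ⟨h4, rfl⟩ := pair_inj.1 h3
      exact (gp_inj isOrdinal_empty ho isOrdinal_empty ho' h4).2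
    | step _ _ _ h =>
      obtain ⟨_, _, -, _, _, -, τ, h3, h4, h5⟩ := h
      exact (h4 (gp_inj isOrdinal_empty ho (isOrdinal_omega'.mem h3) (isOrdinal_gp _)
        (pair_inj.1 h5).1).1.symm).elim
  | step _ hp hq h ih1 ih2 =>
    intro γ x x' h1 h2
    obtain ⟨γ1, x1, rfl, γ2, x2, rfl, τ, h3, h4, rfl⟩ := h
    obtain ⟨rfl, rfl⟩ := pair_inj.1 h1
    cases h2 with
    | ax _ h =>
      obtain ⟨γ', α', h5, ho', rfl⟩ := h
      exact (h4 (gp_inj (isOrdinal_omega'.mem h3) (isOrdinal_gp _) isOrdinal_empty ho'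
        (pair_inj.1 h5).1).1).elim
    | step _ hp' hq' h =>
      obtain ⟨δ1, y1, rfl, δ2, y2, rfl, τ', h5, -, h6⟩ := h
      obtain ⟨h7, rfl⟩ := pair_inj.1 h6
      obtain ⟨rfl, h8⟩ := gp_inj (isOrdinal_omega'.mem h3) (isOrdinal_gp _)
        (isOrdinal_omega'.mem h5) (isOrdinal_gp _) h7
      obtain ⟨rfl, rfl⟩ := gp_inj (code_ordinal hp _ _ rfl) (code_ordinal hq _ _ rfl)
        (code_ordinal hp' _ _ rfl) (code_ordinal hq' _ _ rfl) h8
      rw [ih1 _ _ _ rfl hp', ih2 _ _ _ rfl hq']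

section
variable [hM : ZFm M]

instance Df.pairLt {s t : Env.{u} → ZFSet.{u}} [Tm M s] [Tm M t] :
    Df M (fun e => PairLt (s e) (t e)) :=
  Df.subst2 (R := PairLt) (by unfold PairLt; infer_instance) s t

theorem tm_gp : Tm M (fun e => gp (e 0)) := by
  refine recursion PairLt pairLt_wf ?_ gp
    (fun x f z => z = (⋃₀ ⋃₀ f).sep fun w => ∃ y, pair y w ∈ f ∧ PairLt y x) ?_
  · intro x hx
    refine ⟨_, insert_mem hx (prod_mem (rk_mem hx) (rk_mem hx)), mem_insert _ _, fun y hy z hz => ?_⟩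
    refine mem_insert_of_mem _ ?_
    rcases mem_insert_iff.1 hy with rfl | hy
    · exact hz.mem_prod'
    · obtain ⟨α, hα, β, hβ, rfl⟩ := mem_prod.1 hy
      exact hz.mem_prod (isOrdinal_rk _) hα hβ
  · intro x hx f hf H
    have h1 : gp x = (⋃₀ ⋃₀ f).sep fun w => ∃ y, pair y w ∈ f ∧ PairLt y x := by
      ext w
      simp only [mem_gp, mem_sep, mem_sUnion]
      constructor
      · rintro ⟨y, h, rfl⟩
        have h3 := (H y h _).2 rfl
        exact ⟨⟨{y, gp y}, ⟨_, h3, mem_pair.2 (Or.inr rfl)⟩, mem_pair.2 (Or.inr rfl)⟩, y, h3, h⟩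
      · rintro ⟨-, y, h2, h⟩
        exact ⟨y, h, ((H y h w).1 h2).symm⟩
    have := InM.mk hx
    have := InM.mk hf
    exact ⟨h1 ▸ sep_mem _ (sUnion_mem (sUnion_mem hf)), fun z _ => by rw [h1]⟩

instance Tm.gp {s : Env.{u} → ZFSet.{u}} [Tm M s] : Tm M (fun e => gp (s e)) := tm_gp.apply1 s

instance Tm.fst {s : Env.{u} → ZFSet.{u}} [Tm M s] : Tm M (fun e => fst (s e)) :=
  Tm.apply1 (F := Forcing.fst) (by unfold Forcing.fst; infer_instance) s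

instance Tm.snd {s : Env.{u} → ZFSet.{u}} [Tm M s] : Tm M (fun e => snd (s e)) :=
  Tm.apply1 (F := Forcing.snd) (by unfold Forcing.snd; infer_instance) s

/-- In a model of `V = L(b)`, where `b` is generated by pairing from the ordinals and `a`, every
set is the image of an ordinal under a function of the model. -/
theorem enum_of_constr (hpow : ∀ x ∈ M, ∃ y ∈ M, ∀ z ∈ M, z ⊆ x → z ∈ y) {a b : ZFSet.{u}}
    (ha : a ∈ M) (hb : b ∈ M) (hV : M ⊆ constr M b)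
    (hgen : ∀ C : Set ZFSet.{u}, (∀ α ∈ M, α.IsOrdinal → α ∈ C) → a ∈ C →
      (∀ x ∈ C, ∀ y ∈ C, ({x, y} : ZFSet.{u}) ∈ C) → ∀ x ∈ b, x ∈ C) :
    ∀ x ∈ M, ∃ α ∈ M, α.IsOrdinal ∧ ∃ r ∈ M,
      (∀ s t, pair s t ∈ r → ∀ t', pair s t' ∈ r → t = t') ∧ ∀ y ∈ x, ∃ ξ ∈ α, pair ξ y ∈ r := by
  have := InM.mk ha
  have h1 : ∀ (s : Env.{u} → ZFSet.{u}) [Tm M s], Tm M (fun e => level b (s e)) :=
    fun s _ => (tm_level hpow hb).apply1 s
  have h2 : ∀ (s t w : Env.{u} → ZFSet.{u}) [Tm M s] [Tm M t] [Tm M w],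
      Tm M (fun e => gop a b (s e) (t e) (w e)) := fun s t w _ _ _ => by
    unfold gop; infer_instance
  have h3 := @df_gen M _ (fun _ => CAx) (fun _ => CStep a b) (by unfold CAx; infer_instance)
    (by unfold CStep; infer_instance)
  have h4 : ∀ (s : Env.{u} → ZFSet.{u}) [Tm M s], Df M (fun e => Gen M CAx (CStep a b) (s e)) :=
    fun s _ => Df.subst1 (R := Gen M CAx (CStep a b)) h3 s
  let C : Set ZFSet.{u} := {x | ∃ γ, Gen M CAx (CStep a b) (pair γ x)}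
  have c0 : ∀ α ∈ M, α.IsOrdinal → α ∈ C := fun α hα ho =>
    ⟨_, .ax (pair_mem (tm_gp.mem1 (pair_mem Trans.empty hα)) hα) ⟨_, _, rfl, ho, rfl⟩⟩
  have cn : ∀ n, nat n ∈ C := fun n => c0 _ (nat_mem n) (isOrdinal_nat n)
  have cs : ∀ k, ∀ x ∈ C, ∀ y ∈ C, gop a b (nat (k + 1)) x y ∈ C := by
    rintro k x ⟨γ, hx⟩ y ⟨δ, hy⟩
    have := InM.mk (fst_mem_of_pair_mem hx.mem)
    have := InM.mk (snd_mem_of_pair_mem hx.mem)
    have := InM.mk (fst_mem_of_pair_mem hy.mem)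
    have := InM.mk (snd_mem_of_pair_mem hy.mem)
    exact ⟨_, .step (inferInstance : Tm M (fun _ => pair (gp (pair (nat (k + 1)) (gp (pair γ δ))))
      (gop a b (nat (k + 1)) x y))).mem' hx hy ⟨_, _, rfl, _, _, rfl, _, nat_mem_omega _,
        fun h => by simpa using (nat_inj (n := 0)).1 h, rfl⟩⟩
  have c1 : ∀ x ∈ C, ∀ y ∈ C, ({x, y} : ZFSet.{u}) ∈ C := fun x hx y hy => by
    simpa [gop] using cs 0 x hx y hy
  have c2 : ∀ x ∈ C, ∀ y ∈ C, x ∪ y ∈ C := fun x hx y hy => by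
    simpa [gop, nat_inj] using cs 1 x hx y hy
  have c3 : ∀ x ∈ C, ∀ y ∈ C, x \ y ∈ C := fun x hx y hy => by
    simpa [gop, nat_inj] using cs 2 x hx y hy
  have c4 : ∀ x ∈ C, level b x ∈ C := fun x hx => by
    simpa [gop, nat_inj] using cs 3 x hx x hx
  have c5 : a ∈ C := by simpa [gop, nat_inj] using cs 4 _ (cn 0) _ (cn 0)
  have c1' : ∀ x ∈ C, ({x} : ZFSet.{u}) ∈ C := fun x hx => by simpa using c1 x hx x hx
  have cp : ∀ x ∈ C, ∀ y ∈ C, pair x y ∈ C := fun x hx y hy => c1 _ (c1' x hx) _ (c1 x hx y hy)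
  have c6 : ∀ x ∈ C, ∀ y ∈ C, ∀ z ∈ C, opExt x y z ∈ C := fun x hx y hy z hz => by
    simpa [gop, nat_inj] using cs 5 x hx _ (cp y hy z hz)
  have c7 : ∀ x ∈ C, ∀ y ∈ C, ∀ z ∈ C, opMem x y z ∈ C := fun x hx y hy z hz => by
    simpa [gop, nat_inj] using cs 6 x hx _ (cp y hy z hz)
  have c8 : ∀ x ∈ C, ∀ y ∈ C, ∀ z ∈ C, opEq x y z ∈ C := fun x hx y hy z hz => by
    simpa [gop, nat_inj] using cs 7 x hx _ (cp y hy z hz)
  have c9 : ∀ x ∈ C, ∀ y ∈ C, ∀ z ∈ C, ∀ w ∈ C, opAll x y z w ∈ C :=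
    fun x hx y hy z hz w hw => by
      simpa [gop, nat_inj] using cs 8 x hx _ (cp y hy _ (cp z hz w hw))
  have c10 : ∀ x ∈ C, ∀ y ∈ C, ∀ z ∈ C, ∀ w ∈ C, opSec x y z w ∈ C :=
    fun x hx y hy z hz w hw => by
      simpa [gop, nat_inj] using cs 9 x hx _ (cp y hy _ (cp z hz w hw))
  have ct : ∀ X ∈ C, ∀ n, tups X n ∈ C := by
    intro X hX n
    induction n with
    | zero => exact c1' _ (cn 0)
    | succ n ih => exact c6 _ ih _ hX _ (cn n)
  have cd : ∀ X ∈ C, ∀ n R, Der X n R → R ∈ C := by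
    intro X hX n R h
    induction h with
    | zero => exact c1' _ (cn 0)
    | succ _ _ => exact ct X hX _
    | mem _ _ _ _ => exact c7 _ (ct X hX _) _ (cn _) _ (cn _)
    | eq _ _ _ _ => exact c8 _ (ct X hX _) _ (cn _) _ (cn _)
    | diff _ _ ih1 ih2 => exact c3 _ ih1 _ ih2
    | all _ _ _ ih => exact c9 _ (ct X hX _) _ hX _ ih _ (cn _)
  have cu : ∀ n (e : Env.{u}), (∀ i, e i ∈ C) → tup n e ∈ C := by
    intro n
    induction n with
    | zero => exact fun _ _ => cn 0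
    | succ n ih =>
      intro e he
      rw [tup, ZFSet.insert_eq]
      exact c2 _ (c1' _ (cp _ (cn n) _ (he 0))) _ (ih _ fun _ => he _)
  have cl : ∀ α : ZFSet.{u}, α ∈ M → α.IsOrdinal → ∀ x ∈ level b α, x ∈ C := by
    intro α
    induction α using ZFSet.inductionOn with
    | h α ih =>
      intro hα ho x hx
      rcases mem_level.1 hx with h | ⟨β, hβ, h⟩
      · exact hgen C c0 c5 c1 x h
      · obtain ⟨hX, n, R, h5, s, hs, rfl⟩ := mem_defPow_iff.1 h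
        obtain ⟨e, he, rfl⟩ := (mem_tups hX).1 hs
        have h6 := c4 β (c0 β (mem_of_mem hα hβ) (ho.mem hβ))
        exact c10 _ h6 _ (cu n e fun i => ih β hβ (mem_of_mem hα hβ) (ho.mem hβ) _ (he i)) _
          (cd _ h6 _ _ h5) _ (cn n)
  intro x hx
  obtain ⟨B, hB, HB⟩ := collection hpow (fun γ y => Gen M CAx (CStep a b) (pair γ y)) hx
  obtain ⟨r, hr, -, Hr⟩ := exists_pairSep (M := M)
    (fun γ y => Gen M CAx (CStep a b) (pair γ y)) (rk_mem hB) hx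
  refine ⟨rk B, rk_mem hB, isOrdinal_rk B, r, hr, fun s t h t' h' =>
    code_unique ((Hr _ _).1 h).2.2 _ _ _ rfl ((Hr _ _).1 h').2.2, fun y hy => ?_⟩
  obtain ⟨α, hα, ho, h5⟩ := hV (mem_of_mem hx hy)
  obtain ⟨γ, h6⟩ := cl α hα ho y h5
  obtain ⟨δ, h7, h8⟩ := HB y hy ⟨γ, fst_mem_of_pair_mem h6.mem, h6⟩
  have h9 := mem_rk_of_isOrdinal (code_ordinal h8 _ _ rfl) h7
  exact ⟨δ, h9, (Hr _ _).2 ⟨h9, hy, h8⟩⟩

end

end Pool.Agent.Lib.Forcing
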