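import Pool.Agent.Lib.Constructible.ZRec

/-!
Every element of `L(A)` is coded by an ordinal and one element of `A`.
-/

universe u

set_option synthInstance.maxSize 16384

namespace Pool.Agent.Lib.Forcing

open ZFSet

/-- Inside `M`, the ordinal `γ` codes `x` from the parameter `a` and the levels of `L(A)`. -/
def Cd (M : Set ZFSet.{u}) (A γ a x : ZFSet.{u}) : Prop := Gen M CAx (CStep a A) (pair γ x)

variable {M : Set ZFSet.{u}} {A γ a x : ZFSet.{u}}

theorem Cd.unique {x' : ZFSet.{u}} (h : Cd M A γ a x) (h' : Cd M A γ a x') : x = x' :=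
  code_unique h _ _ _ rfl h'

theorem Cd.isOrdinal (h : Cd M A γ a x) : γ.IsOrdinal := code_ordinal h _ _ rfl

theorem Cd.code_mem [Trans M] (h : Cd M A γ a x) : γ ∈ M := fst_mem_of_pair_mem (Gen.mem h)

theorem Cd.mem [Trans M] (h : Cd M A γ a x) : x ∈ M := snd_mem_of_pair_mem (Gen.mem h)

instance ZDf.cd {s t w v : Set ZFSet.{u} → Env.{u} → ZFSet.{u}} [ZTm s] [ZTm t] [ZTm w] [ZTm v] :
    ZDf (fun M e => Cd M (s M e) (t M e) (w M e) (v M e)) := by
  refine ZDf.subst4 (R := Cd) ?_ s t w v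
  have h2 : ∀ (s t w v y : Set ZFSet.{u} → Env.{u} → ZFSet.{u}) [ZTm s] [ZTm t] [ZTm w] [ZTm v]
      [ZTm y], ZTm (fun M e => gop (s M e) (t M e) (w M e) (v M e) (y M e)) :=
    fun s t w v y _ _ _ _ _ => by unfold gop; infer_instance
  have h3 := @zdf_gen (fun _ _ => CAx) (fun _ c => CStep (fst c) (snd c))
    (by unfold CAx; infer_instance) (by unfold CStep; infer_instance)
  refine (ZDf.subst2 (R := fun M a b => Gen M CAx (CStep (fst b) (snd b)) a) h3
    (fun _ e => pair (e 1) (e 3)) (fun _ e => pair (e 2) (e 0))).congr fun M _ e _ => ?_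
  rw [fst_pair, snd_pair, Cd]

open Classical in
/-- The set coded by `γ` and `a` (the empty set if there is none). -/
noncomputable def cdv (M : Set ZFSet.{u}) (A γ a : ZFSet.{u}) : ZFSet.{u} :=
  if h : ∃ x, Cd M A γ a x then h.choose else ∅

theorem Cd.cdv_eq (h : Cd M A γ a x) : cdv M A γ a = x := by
  have h' : ∃ x, Cd M A γ a x := ⟨x, h⟩
  rw [cdv, dif_pos h']
  exact h'.choose_spec.unique h

theorem cdv_mem [Trans M] : cdv M A γ a ∈ M := by
  unfold cdv
  split_ifs with h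
  exacts [h.choose_spec.mem, Trans.empty]

instance ztm_cdv {s t w : Set ZFSet.{u} → Env.{u} → ZFSet.{u}} [ZTm s] [ZTm t] [ZTm w] :
    ZTm (fun M e => cdv M (s M e) (t M e) (w M e)) := by
  refine ZTm.comp3 (F := cdv) ⟨fun M hM e _ => @cdv_mem _ _ _ _ hM.toTrans, ?_⟩ s t w
  refine (inferInstance : ZDf (fun M e => Cd M (e 1) (e 2) (e 3) (e 0) ∨
    ((¬ ∃ x ∈ M, Cd M (e 1) (e 2) (e 3) x) ∧ e 0 = ∅))).congr fun M hM e _ => ?_
  have := hM.toTrans
  by_cases h : ∃ x, Cd M (e 1) (e 2) (e 3) x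
  · obtain ⟨x, hx⟩ := h
    simp only [Nat.reduceAdd]
    rw [hx.cdv_eq]
    exact ⟨fun h => h.elim (fun h => h.unique hx) fun h => (h.1 ⟨x, hx.mem, hx⟩).elim,
      fun h => Or.inl (h ▸ hx)⟩
  · simp only [Nat.reduceAdd]
    rw [cdv, dif_neg h]
    exact ⟨fun h' => h'.elim (fun h' => (h ⟨_, h'⟩).elim) fun h' => h'.2,
      fun h' => Or.inr ⟨fun ⟨x, _, hx⟩ => h ⟨x, hx⟩, h'⟩⟩

/-- The sets coded from the parameter `a`. -/
def Coded (M : Set ZFSet.{u}) (A a : ZFSet.{u}) : Set ZFSet.{u} := {x | ∃ γ, Cd M A γ a x}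

section
variable (hM : IsZFModel M) (hA : A ∈ M) (ha : a ∈ M)
include hM

theorem coded_ordinal {α : ZFSet.{u}} (hα : α ∈ M) (ho : α.IsOrdinal) : α ∈ Coded M A a :=
  have := hM.zfm
  ⟨_, .ax (pair_mem (tm_gp.mem1 (pair_mem Trans.empty hα)) hα) ⟨_, _, rfl, ho, rfl⟩⟩

theorem coded_nat (n : ℕ) : nat n ∈ Coded M A a :=
  have := hM.zfm
  coded_ordinal hM (nat_mem n) (isOrdinal_nat n)

include hA ha

theorem coded_gop (k : ℕ) {x y : ZFSet.{u}} (hx : x ∈ Coded M A a) (hy : y ∈ Coded M A a) :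
    gop a A (nat (k + 1)) x y ∈ Coded M A a := by
  have := hM.zfm
  obtain ⟨γ, hx⟩ := hx
  obtain ⟨δ, hy⟩ := hy
  have h1 : ZTm.{u} (fun _ e => pair (gp (pair (nat (k + 1)) (gp (pair (e 0) (e 1)))))
      (gop (e 2) (e 3) (nat (k + 1)) (e 4) (e 5))) := by unfold gop; infer_instance
  exact ⟨_, .step (h1.mem M hM (cons γ (cons δ (cons a (cons A (cons x fun _ => y)))))
    (cons_mem hx.code_mem (cons_mem hy.code_mem (cons_mem ha (cons_mem hA
      (cons_mem hx.mem fun _ => hy.mem)))))) hx hy ⟨_, _, rfl, _, _, rfl, _, nat_mem_omega _,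
      fun h => by simpa using (nat_inj (n := 0)).1 h, rfl⟩⟩

theorem coded_self : a ∈ Coded M A a := by
  simpa [gop, nat_inj] using coded_gop hM hA ha 4 (coded_nat hM 0) (coded_nat hM 0)

theorem coded_level {α : ZFSet.{u}} (hα : α ∈ Coded M A a) : level A α ∈ Coded M A a := by
  simpa [gop, nat_inj] using coded_gop hM hA ha 3 hα hα

theorem Coded.subset {a' : ZFSet.{u}} (h : a' ∈ Coded M A a) : Coded M A a' ⊆ Coded M A a := by
  have key : ∀ z, Gen M CAx (CStep a' A) z → ∀ γ x, z = pair γ x → x ∈ Coded M A a := by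
    intro z hz
    induction hz with
    | ax hz h' =>
      rintro γ x rfl
      obtain ⟨γ', α, h1, ho, -⟩ := h'
      obtain ⟨rfl, rfl⟩ := pair_inj.1 h1
      have := hM.toTrans
      exact coded_ordinal hM (snd_mem_of_pair_mem hz) ho
    | step _ _ _ h' ih1 ih2 =>
      rintro γ x rfl
      obtain ⟨γ1, x1, rfl, γ2, x2, rfl, τ, h3, h4, h5⟩ := h'
      obtain ⟨-, rfl⟩ := pair_inj.1 h5
      obtain ⟨_ | k, rfl⟩ := mem_omega_iff.1 h3
      · exact (h4 rfl).elim
      by_cases hk : k = 4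
      · subst hk
        simpa [gop, nat_inj] using h
      · have h6 := coded_gop hM hA ha k (ih1 _ _ rfl) (ih2 _ _ rfl)
        have h7 : ¬ nat.{u} (k + 1) = nat 5 := fun h => hk (by simpa using nat_inj.1 h)
        simpa only [gop, if_neg h7] using h6
  rintro x ⟨γ, hx⟩
  exact key _ hx _ _ rfl

theorem coded_opSec {X R : ZFSet.{u}} (hX : X ∈ Coded M A a) {n : ℕ} (hR : Der X (n + 1) R)
    {e : Env.{u}} (he : ∀ i < n, e i ∈ Coded M A a) :
    opSec X (tup n e) R (nat n) ∈ Coded M A a := by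
  have cn := fun n => coded_nat (A := A) (a := a) hM n
  have cs := fun k x hx y hy => @coded_gop M A a hM hA ha k x y hx hy
  generalize Coded M A a = C at *
  have c1 : ∀ x ∈ C, ∀ y ∈ C, ({x, y} : ZFSet.{u}) ∈ C := fun x hx y hy => by
    simpa [gop] using cs 0 x hx y hy
  have c2 : ∀ x ∈ C, ∀ y ∈ C, x ∪ y ∈ C := fun x hx y hy => by
    simpa [gop, nat_inj] using cs 1 x hx y hy
  have c3 : ∀ x ∈ C, ∀ y ∈ C, x \ y ∈ C := fun x hx y hy => by
    simpa [gop, nat_inj] using cs 2 x hx y hy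
  have c1' : ∀ x ∈ C, ({x} : ZFSet.{u}) ∈ C := fun x hx => by simpa using c1 x hx x hx
  have cp : ∀ x ∈ C, ∀ y ∈ C, pair x y ∈ C := fun x hx y hy => c1 _ (c1' x hx) _ (c1 x hx y hy)
  have c6 : ∀ x ∈ C, ∀ y ∈ C, ∀ z ∈ C, opExt x y z ∈ C := fun x hx y hy z hz => by
    simpa [gop, nat_inj] using cs 5 x hx _ (cp y hy z hz)
  have c7 : ∀ x ∈ C, ∀ y ∈ C, ∀ z ∈ C, opMem x y z ∈ C := fun x hx y hy z hz => by
    simpa [gop, nat_inj] using cs 6 x hx _ (cp y hy z hz)
  have c8 : ∀ x ∈ C, ∀ y ∈ C, ∀ z ∈ C, opEq x y z ∈ C := fun x hx y hy z hz => by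
    simpa [gop, nat_inj] using cs 7 x hx _ (cp y hy z hz)
  have c9 : ∀ x ∈ C, ∀ y ∈ C, ∀ z ∈ C, ∀ w ∈ C, opAll x y z w ∈ C :=
    fun x hx y hy z hz w hw => by
      simpa [gop, nat_inj] using cs 8 x hx _ (cp y hy _ (cp z hz w hw))
  have c10 : ∀ x ∈ C, ∀ y ∈ C, ∀ z ∈ C, ∀ w ∈ C, opSec x y z w ∈ C :=
    fun x hx y hy z hz w hw => by
      simpa [gop, nat_inj] using cs 9 x hx _ (cp y hy _ (cp z hz w hw))
  have ct : ∀ n, tups X n ∈ C := by
    intro n
    induction n with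
    | zero => exact c1' _ (cn 0)
    | succ n ih => exact c6 _ ih _ hX _ (cn n)
  have cd : ∀ n R, Der X n R → R ∈ C := by
    intro n R h
    induction h with
    | zero => exact c1' _ (cn 0)
    | succ _ _ => exact ct _
    | mem _ _ _ _ => exact c7 _ (ct _) _ (cn _) _ (cn _)
    | eq _ _ _ _ => exact c8 _ (ct _) _ (cn _) _ (cn _)
    | diff _ _ ih1 ih2 => exact c3 _ ih1 _ ih2
    | all _ _ _ ih => exact c9 _ (ct _) _ hX _ ih _ (cn _)
  have cu : ∀ n (e : Env.{u}), (∀ i < n, e i ∈ C) → tup n e ∈ C := by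
    intro n
    induction n with
    | zero => exact fun _ _ => cn 0
    | succ n ih =>
      intro e he
      rw [tup, ZFSet.insert_eq]
      exact c2 _ (c1' _ (cp _ (cn n) _ (he 0 (by omega)))) _ (ih _ fun _ _ => he _ (by omega))
  exact c10 _ hX _ (cu n e he) _ (cd _ _ hR) _ (cn n)

/-- A subset of a coded set that is definable from coded parameters is coded. -/
theorem coded_sep {X : ZFSet.{u}} (hX : X ∈ Coded M A a) (φ : Fml) {e : Env.{u}}
    (he : ∀ i, e i ∈ X) (he' : ∀ i, e i ∈ Coded M A a) :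
    X.sep (fun x => Sat X φ (cons x e)) ∈ Coded M A a := by
  obtain ⟨n, h⟩ := Der.complete ⟨_, he 0⟩ φ
  obtain ⟨R, h1, h2⟩ := h (n + 1) (by omega)
  have h3 : X.sep (fun x => Sat X φ (cons x e)) = opSec X (tup n e) R (nat n) := by
    ext x
    simp only [opSec, mem_sep]
    exact and_congr_right fun hx => (h2 (cons x e) (cons_mem (M := X) hx he)).symm
  rw [h3]
  exact coded_opSec hM hA ha hX h1 fun i _ => he' i

end

/-- The disjoint sum of two sets. -/
def dsum (a b : ZFSet.{u}) : ZFSet.{u} := ({∅} : ZFSet.{u}).prod a ∪ ({{∅}} : ZFSet.{u}).prod b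

theorem pair_mem_dsum {a b i x : ZFSet.{u}} :
    pair i x ∈ dsum a b ↔ (i = ∅ ∧ x ∈ a) ∨ (i = {∅} ∧ x ∈ b) := by
  simp only [dsum, mem_union, pair_mem_prod, mem_singleton]

theorem level_empty (A : ZFSet.{u}) : level A ∅ = A := by
  ext x
  simp [mem_level]

theorem coded_dsum (hM : IsZFModel M) (hA : A ∈ M) [hAt : Trans (A : Set ZFSet.{u})]
    {a b : ZFSet.{u}} (ha : a ∈ A) (hb : b ∈ A) (h : dsum a b ∈ A) :
    a ∈ Coded M A (dsum a b) ∧ b ∈ Coded M A (dsum a b) := by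
  have hd := hM.transitive _ hA _ h
  have h1 : A ∈ Coded M A (dsum a b) := by
    have := coded_level hM hA hd (coded_nat hM 0)
    rwa [show nat.{u} 0 = ∅ from rfl, level_empty] at this
  have hne : ¬ (∅ : ZFSet.{u}) = {∅} := fun h => by
    have : (∅ : ZFSet.{u}) ∈ ({∅} : ZFSet.{u}) := mem_singleton.2 rfl
    rw [← h] at this
    simp at this
  obtain ⟨φ, hφ⟩ := (inferInstance : UDf.{u} (fun _ e => pair ∅ (e 0) ∈ e 1)).out
  obtain ⟨ψ, hψ⟩ := (inferInstance : UDf.{u} (fun _ e => pair {∅} (e 0) ∈ e 1)).out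
  have h2 := fun φ => coded_sep hM hA hd h1 φ (e := fun _ => dsum a b) (fun _ => h)
    fun _ => coded_self hM hA hd
  constructor
  · convert h2 φ using 1
    ext x
    rw [mem_sep]
    constructor
    · intro hx
      have hx' : x ∈ A := hAt.trans a ha x hx
      exact ⟨hx', (hφ A hAt _ (cons_mem (M := A) hx' fun _ => h)).1
        (pair_mem_dsum.2 (Or.inl ⟨rfl, hx⟩))⟩
    · rintro ⟨hx', hx⟩
      exact (pair_mem_dsum.1 ((hφ A hAt _ (cons_mem (M := A) hx' fun _ => h)).2 hx)).elim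
        (fun h => h.2) fun h => (hne h.1).elim
  · convert h2 ψ using 1
    ext x
    rw [mem_sep]
    constructor
    · intro hx
      have hx' : x ∈ A := hAt.trans b hb x hx
      exact ⟨hx', (hψ A hAt _ (cons_mem (M := A) hx' fun _ => h)).1
        (pair_mem_dsum.2 (Or.inr ⟨rfl, hx⟩))⟩
    · rintro ⟨hx', hx⟩
      exact (pair_mem_dsum.1 ((hψ A hAt _ (cons_mem (M := A) hx' fun _ => h)).2 hx)).elim
        (fun h => (hne h.1.symm).elim) fun h => h.2

/-- Every element of `L(A)` has a code. -/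
theorem exists_cd (hM : IsZFModel M) (hA : A ∈ M) [hAt : Trans (A : Set ZFSet.{u})]
    (hs : ∀ a ∈ A, ∀ b ∈ A, dsum a b ∈ A) (hx : x ∈ constr M A) :
    ∃ γ ∈ M, ∃ a ∈ A, Cd M A γ a x := by
  have := hM.zfm
  have hAM : ∀ a ∈ A, a ∈ M := hM.transitive _ hA
  have cl : ∀ α : ZFSet.{u}, α ∈ M → α.IsOrdinal → ∀ x ∈ level A α, ∃ a ∈ A, x ∈ Coded M A a := by
    intro α
    induction α using ZFSet.inductionOn with
    | h α ih =>
      intro hα ho x hx
      rcases mem_level.1 hx with h | ⟨β, hβ, h⟩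
      · exact ⟨x, h, coded_self hM hA (hAM x h)⟩
      · obtain ⟨hX, n, R, h5, s, hs', rfl⟩ := mem_defPow_iff.1 h
        obtain ⟨e, he, rfl⟩ := (mem_tups hX).1 hs'
        have h6 : ∀ m, ∃ a ∈ A, ∀ i < m, e i ∈ Coded M A a := by
          intro m
          induction m with
          | zero => exact ⟨∅, hAt.empty, fun _ h => absurd h (Nat.not_lt_zero _)⟩
          | succ m ihm =>
            obtain ⟨a, ha, H⟩ := ihm
            obtain ⟨b, hb, H'⟩ := ih β hβ (mem_of_mem hα hβ) (ho.mem hβ) _ (he m)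
            obtain ⟨h7, h8⟩ := coded_dsum hM hA ha hb (hs a ha b hb)
            refine ⟨_, hs a ha b hb, fun i hi => ?_⟩
            rcases Nat.lt_succ_iff_lt_or_eq.1 hi with hi | rfl
            exacts [Coded.subset hM hA (hAM _ (hs a ha b hb)) h7 (H i hi),
              Coded.subset hM hA (hAM _ (hs a ha b hb)) h8 H']
        obtain ⟨a, ha, H⟩ := h6 n
        exact ⟨a, ha, coded_opSec hM hA (hAM a ha) (coded_level hM hA (hAM a ha)
          (coded_ordinal hM (mem_of_mem hα hβ) (ho.mem hβ))) h5 H⟩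
  obtain ⟨α, hα, ho, hx⟩ := hx
  obtain ⟨a, ha, γ, h⟩ := cl α hα ho x hx
  exact ⟨γ, h.code_mem, a, ha, h⟩

theorem dsum_mem_powerset {v a b : ZFSet.{u}} (h0 : ∅ ∈ v)
    (hp : ∀ x ∈ v, ∀ y ∈ v, ({x, y} : ZFSet.{u}) ∈ v) (ha : a ∈ powerset v) (hb : b ∈ powerset v) :
    dsum a b ∈ powerset v := by
  have h1 : ∀ x ∈ v, ({x} : ZFSet.{u}) ∈ v := fun x hx => by simpa using hp x hx x hx
  have h2 : ∀ x ∈ v, ∀ y ∈ v, pair x y ∈ v := fun x hx y hy => hp _ (h1 x hx) _ (hp x hx y hy)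
  rw [mem_powerset] at *
  intro z hz
  rcases mem_union.1 hz with hz | hz <;> obtain ⟨i, hi, x, hx, rfl⟩ := mem_prod.1 hz <;>
    rw [mem_singleton.1 hi]
  exacts [h2 _ h0 _ (ha hx), h2 _ (h1 _ h0) _ (hb hx)]

/-- The ordinals below `α` lie in `L_α(A)`. -/
theorem subset_level [hAt : Trans (A : Set ZFSet.{u})] {α : ZFSet.{u}} (ho : α.IsOrdinal) :
    α ⊆ level A α := by
  induction α using ZFSet.inductionOn with
  | h α ih =>
    intro β hβ
    have := trans_level (b := A) β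
    have := trans_level (b := A) α
    have h1 : ((level A β).sep fun x => x.IsOrdinal) ∈ level A α :=
      mem_level.2 (Or.inr ⟨β, hβ, sep_mem_defPow (fun x => x.IsOrdinal)⟩)
    have h2 : ((level A β).sep fun x => x.IsOrdinal).IsOrdinal := by
      refine isOrdinal_iff_forall_mem_isOrdinal.2 ⟨fun x hx y hy => ?_, fun x hx => (mem_sep.1 hx).2⟩
      exact mem_sep.2 ⟨mem_of_mem (M := (level A β : Set ZFSet.{u})) (mem_sep.1 hx).1 hy,
        (mem_sep.1 hx).2.mem hy⟩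
    rcases ((ho.mem hβ).subset_iff_eq_or_mem h2).1 (fun x hx => mem_sep.2
      ⟨ih β hβ (ho.mem hβ) hx, (ho.mem hβ).mem hx⟩) with h | h
    · rwa [h]
    · exact mem_of_mem (M := (level A α : Set ZFSet.{u})) h1 h

/-- A level that models ZF satisfies `V = L(A)`. -/
theorem level_subset_constr [hAt : Trans (A : Set ZFSet.{u})] {α : ZFSet.{u}} (ho : α.IsOrdinal)
    (h : IsZFModel (level A α : Set ZFSet.{u})) :
    (level A α : Set ZFSet.{u}) ⊆ constr (level A α) A := by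
  have := h.zfm
  intro x hx
  rcases mem_level.1 hx with h1 | ⟨β, hβ, h1⟩
  · exact ⟨∅, Trans.empty, isOrdinal_empty, base_subset_level _ h1⟩
  · have h2 : β ∈ (level A α : Set ZFSet.{u}) := subset_level ho hβ
    exact ⟨_, insert_mem h2 h2, isOrdinal_succ (ho.mem hβ),
      mem_level.2 (Or.inr ⟨β, mem_insert _ _, h1⟩)⟩

theorem constr_constr (hM : IsZFModel M) (hA : A ∈ M) [Trans (A : Set ZFSet.{u})] :
    constr (constr M A) A = constr M A :=
  have := hM.zfm
  constr_congr fun _ ho => ⟨fun h => constr_subset hM.powerSet hA h,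
    fun h => ordinal_mem_constr hM.powerSet hA h ho⟩

end Pool.Agent.Lib.Forcing
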