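import Pool.Agent.Lib.Forcing.Defs

/-!
The constructible hierarchy over a transitive set.
-/

universe u

namespace Pool.Agent.Lib.Forcing

open ZFSet

/-- `Def(X)`: the subsets of `X` definable over `(X, ∈)` with parameters from `X`. -/
def defPow (X : ZFSet.{u}) : ZFSet.{u} :=
  (powerset X).sep fun Y => ∃ (φ : Fml) (e : ℕ → ZFSet.{u}), (∀ i, e i ∈ X) ∧
    Y = X.sep fun x => Sat X φ (cons x e)

/-- The constructible hierarchy over `b`: `L_α(b) = b ∪ ⋃_{β ∈ α} Def(L_β(b))`, that is
`L_0 = b`, `L_{α+1} = Def(L_α)` and unions at limit stages. -/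
noncomputable def level (b α : ZFSet.{u}) : ZFSet.{u} :=
  b ∪ ⋃₀ range fun β : α => defPow (level b β.1)
termination_by α.rank
decreasing_by exact rank_lt_of_mem β.2

/-- The union of the levels `L_α(b)` over the ordinals `α` of `N`. -/
def constr (N : Set ZFSet.{u}) (b : ZFSet.{u}) : Set ZFSet.{u} :=
  {x | ∃ α ∈ N, α.IsOrdinal ∧ x ∈ level b α}

end Pool.Agent.Lib.Forcing
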