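import Pool.Agent.Lib.Constructible.Tools
import Pool.Agent.Lib.Constructible.Defs

/-!
The operation `Def` and the constructible hierarchy are definable in every transitive model of ZF.
-/

universe u

set_option synthInstance.maxSize 16384

namespace Pool.Agent.Lib.Forcing

open ZFSet

variable {M : Set ZFSet.{u}}

/-- Natural numbers as sets. -/
def nat : ℕ → ZFSet.{u}
  | 0 => ∅
  | n + 1 => insert (nat n) (nat n)

theorem mem_nat {n : ℕ} {x : ZFSet.{u}} : x ∈ nat n ↔ ∃ k < n, nat k = x := by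
  induction n with
  | zero => simp [nat]
  | succ n ih =>
    rw [nat, mem_insert_iff, ih]
    constructor
    · rintro (rfl | ⟨k, hk, rfl⟩)
      exacts [⟨n, by omega, rfl⟩, ⟨k, by omega, rfl⟩]
    · rintro ⟨k, hk, rfl⟩
      rcases Nat.lt_succ_iff_lt_or_eq.1 hk with hk | rfl
      exacts [Or.inr ⟨k, hk, rfl⟩, Or.inl rfl]

theorem nat_inj {m n : ℕ} : nat.{u} m = nat n ↔ m = n := by
  refine ⟨fun h => ?_, fun h => h ▸ rfl⟩
  rcases lt_trichotomy m n with h' | h' | h'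
  · exact (mem_irrefl (nat n) (mem_nat.2 ⟨m, h', h⟩)).elim
  · exact h'
  · exact (mem_irrefl (nat m) (mem_nat.2 ⟨n, h', h.symm⟩)).elim

theorem nat_mem_nat {m n : ℕ} : nat.{u} m ∈ nat n ↔ m < n := by
  rw [mem_nat]
  exact ⟨fun ⟨k, hk, h⟩ => nat_inj.1 h ▸ hk, fun h => ⟨m, h, rfl⟩⟩

theorem nat_subset_nat {m n : ℕ} : nat.{u} m ⊆ nat n ↔ m ≤ n := by
  refine ⟨fun h => ?_, fun h x hx => ?_⟩
  · by_contra h'
    exact mem_irrefl _ (h (nat_mem_nat.2 (not_le.1 h')))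
  · obtain ⟨k, hk, rfl⟩ := mem_nat.1 hx
    exact nat_mem_nat.2 (by omega)

theorem mem_omega_iff {x : ZFSet.{u}} : x ∈ omega ↔ ∃ n, nat n = x := by
  constructor
  · exact omega_induction (p := fun x => ∃ n, nat n = x) ⟨0, rfl⟩
      (fun _ ⟨n, h⟩ => ⟨n + 1, h ▸ rfl⟩) x
  · rintro ⟨n, rfl⟩
    induction n with
    | zero => exact omega_zero
    | succ n ih => exact omega_succ ih

theorem nat_mem_omega (n : ℕ) : nat.{u} n ∈ omega := mem_omega_iff.2 ⟨n, rfl⟩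

theorem isOrdinal_nat (n : ℕ) : (nat.{u} n).IsOrdinal := by
  induction n with
  | zero => exact isOrdinal_empty
  | succ n ih => exact isOrdinal_succ ih

theorem isOrdinal_omega' : omega.{u}.IsOrdinal := by
  refine isOrdinal_iff_forall_mem_isOrdinal.2 ⟨fun x hx y hy => ?_, fun x hx => ?_⟩
  · obtain ⟨n, rfl⟩ := mem_omega_iff.1 hx
    obtain ⟨k, -, rfl⟩ := mem_nat.1 hy
    exact nat_mem_omega k
  · obtain ⟨n, rfl⟩ := mem_omega_iff.1 hx
    exact isOrdinal_nat n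

/-- The first `n` values of an assignment as a finite function, in reverse order. -/
def tup : ℕ → Env.{u} → ZFSet.{u}
  | 0, _ => ∅
  | n + 1, e => insert (pair (nat n) (e 0)) (tup n fun i => e (i + 1))

theorem pair_mem_tup {n : ℕ} {e : Env.{u}} {k y : ZFSet.{u}} :
    pair k y ∈ tup n e ↔ ∃ i < n, k = nat (n - 1 - i) ∧ y = e i := by
  induction n generalizing e with
  | zero => simp [tup]
  | succ n ih =>
    rw [tup, mem_insert_iff, ih, pair_inj]
    constructor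
    · rintro (⟨rfl, rfl⟩ | ⟨i, hi, rfl, rfl⟩)
      · exact ⟨0, by omega, by simp, rfl⟩
      · exact ⟨i + 1, by omega, by congr 1; omega, rfl⟩
    · rintro ⟨_ | i, hi, rfl, rfl⟩
      · exact Or.inl ⟨by simp, rfl⟩
      · exact Or.inr ⟨i, by omega, by congr 1; omega, rfl⟩

theorem nat_mem_tup {n i : ℕ} (hi : i < n) {e : Env.{u}} {y : ZFSet.{u}} :
    pair (nat (n - 1 - i)) y ∈ tup n e ↔ y = e i := by
  rw [pair_mem_tup]
  constructor
  · rintro ⟨j, hj, h, rfl⟩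
    rw [nat_inj] at h
    congr 1; omega
  · rintro rfl; exact ⟨i, hi, rfl, rfl⟩

noncomputable def opExt (U X n : ZFSet.{u}) : ZFSet.{u} :=
  ⋃₀ img (fun x => img (fun s => insert (pair n x) s) U) X

def opMem (U i j : ZFSet.{u}) : ZFSet.{u} :=
  U.sep fun s => ∃ a, pair i a ∈ s ∧ ∃ b, pair j b ∈ s ∧ a ∈ b

def opEq (U i j : ZFSet.{u}) : ZFSet.{u} :=
  U.sep fun s => ∃ a, pair i a ∈ s ∧ pair j a ∈ s

def opAll (U X R n : ZFSet.{u}) : ZFSet.{u} :=
  U.sep fun s => ∀ x ∈ X, insert (pair n x) s ∈ R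

def opSec (X s R n : ZFSet.{u}) : ZFSet.{u} :=
  X.sep fun x => insert (pair n x) s ∈ R

theorem mem_opExt {U X n z : ZFSet.{u}} :
    z ∈ opExt U X n ↔ ∃ x ∈ X, ∃ s ∈ U, insert (pair n x) s = z := by
  simp only [opExt, mem_sUnion, mem_img]
  constructor
  · rintro ⟨_, ⟨x, hx, rfl⟩, h⟩
    exact ⟨x, hx, mem_img.1 h⟩
  · rintro ⟨x, hx, h⟩
    exact ⟨_, ⟨x, hx, rfl⟩, mem_img.2 h⟩

/-- The set of `n`-tuples from `X`. -/
noncomputable def tups (X : ZFSet.{u}) : ℕ → ZFSet.{u}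
  | 0 => {∅}
  | n + 1 => opExt (tups X n) X (nat n)

theorem mem_tups {X : ZFSet.{u}} (hX : ∃ x, x ∈ X) {n : ℕ} {s : ZFSet.{u}} :
    s ∈ tups X n ↔ ∃ e : Env.{u}, (∀ i, e i ∈ X) ∧ tup n e = s := by
  induction n generalizing s with
  | zero =>
    obtain ⟨x, hx⟩ := hX
    rw [tups, mem_singleton]
    exact ⟨fun h => ⟨fun _ => x, fun _ => hx, h.symm⟩, fun ⟨_, _, h⟩ => h.symm⟩
  | succ n ih =>
    rw [tups, mem_opExt]
    constructor
    · rintro ⟨x, hx, s, hs, rfl⟩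
      obtain ⟨e, he, rfl⟩ := ih.1 hs
      exact ⟨cons x e, cons_mem (M := X) hx he, rfl⟩
    · rintro ⟨e, he, rfl⟩
      exact ⟨e 0, he 0, _, ih.2 ⟨_, fun i => he (i + 1), rfl⟩, rfl⟩

/-- Derivations of definable relations on `X`. -/
inductive Der (X : ZFSet.{u}) : ℕ → ZFSet.{u} → Prop
  | zero : Der X 0 {∅}
  | succ {n R} : Der X n R → Der X (n + 1) (tups X (n + 1))
  | mem {n R i j} : Der X n R → i < n → j < n → Der X n (opMem (tups X n) (nat i) (nat j))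
  | eq {n R i j} : Der X n R → i < n → j < n → Der X n (opEq (tups X n) (nat i) (nat j))
  | diff {n R S} : Der X n R → Der X n S → Der X n (R \ S)
  | all {n R S} : Der X n R → Der X (n + 1) S → Der X n (opAll (tups X n) X S (nat n))

theorem Der.top (X : ZFSet.{u}) : ∀ n, Der X n (tups X n)
  | 0 => .zero
  | n + 1 => (Der.top X n).succ

theorem Der.sound {X : ZFSet.{u}} (hX : ∃ x, x ∈ X) {n : ℕ} {R : ZFSet.{u}} (h : Der X n R) :
    ∃ φ : Fml, ∀ e : Env.{u}, (∀ i, e i ∈ X) → (tup n e ∈ R ↔ Sat X φ e) := by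
  have top : ∀ n, ∀ e : Env.{u}, (∀ i, e i ∈ X) → tup n e ∈ tups X n :=
    fun n e he => (mem_tups hX).2 ⟨e, he, rfl⟩
  induction h with
  | zero => exact ⟨.eq 0 0, fun e he => by simp [Sat, tup]⟩
  | succ _ _ => exact ⟨.eq 0 0, fun e he => by simp [Sat, top _ e he]⟩
  | @mem n R i j _ hi hj _ =>
    refine ⟨.mem (n - 1 - i) (n - 1 - j), fun e he => ?_⟩
    have h1 := fun y => nat_mem_tup (n := n) (i := n - 1 - i) (by omega) (e := e) (y := y)
    have h2 := fun y => nat_mem_tup (n := n) (i := n - 1 - j) (by omega) (e := e) (y := y)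
    rw [show n - 1 - (n - 1 - i) = i by omega] at h1
    rw [show n - 1 - (n - 1 - j) = j by omega] at h2
    simp [opMem, Sat, top _ e he, h1, h2]
  | @eq n R i j _ hi hj _ =>
    refine ⟨.eq (n - 1 - i) (n - 1 - j), fun e he => ?_⟩
    have h1 := fun y => nat_mem_tup (n := n) (i := n - 1 - i) (by omega) (e := e) (y := y)
    have h2 := fun y => nat_mem_tup (n := n) (i := n - 1 - j) (by omega) (e := e) (y := y)
    rw [show n - 1 - (n - 1 - i) = i by omega] at h1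
    rw [show n - 1 - (n - 1 - j) = j by omega] at h2
    simp [opEq, Sat, top _ e he, h1, h2]
  | diff _ _ ih1 ih2 =>
    obtain ⟨φ, h1⟩ := ih1
    obtain ⟨ψ, h2⟩ := ih2
    exact ⟨.and φ (.neg ψ), fun e he => by simp [Sat, h1 e he, h2 e he]⟩
  | all _ _ _ ih =>
    obtain ⟨φ, h⟩ := ih
    refine ⟨.all φ, fun e he => ?_⟩
    simp only [opAll, mem_sep, top _ e he, true_and, Sat]
    exact forall_congr' fun x => forall_congr' fun hx => h (cons x e) (cons_mem (M := X) hx he)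

theorem Der.complete {X : ZFSet.{u}} (hX : ∃ x, x ∈ X) (φ : Fml) :
    ∃ n0, ∀ n, n0 ≤ n → ∃ R, Der X n R ∧
      ∀ e : Env.{u}, (∀ i, e i ∈ X) → (tup n e ∈ R ↔ Sat X φ e) := by
  have top : ∀ n, ∀ e : Env.{u}, (∀ i, e i ∈ X) → tup n e ∈ tups X n :=
    fun n e he => (mem_tups hX).2 ⟨e, he, rfl⟩
  induction φ with
  | mem i j =>
    refine ⟨i + j + 1, fun n hn => ⟨_, (Der.top X n).mem (i := n - 1 - i) (j := n - 1 - j)
      (by omega) (by omega), fun e he => ?_⟩⟩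
    simp [opMem, Sat, top _ e he, nat_mem_tup (show i < n by omega),
      nat_mem_tup (show j < n by omega)]
  | eq i j =>
    refine ⟨i + j + 1, fun n hn => ⟨_, (Der.top X n).eq (i := n - 1 - i) (j := n - 1 - j)
      (by omega) (by omega), fun e he => ?_⟩⟩
    simp [opEq, Sat, top _ e he, nat_mem_tup (show i < n by omega),
      nat_mem_tup (show j < n by omega)]
  | neg φ ih =>
    obtain ⟨n0, h⟩ := ih
    refine ⟨n0, fun n hn => ?_⟩
    obtain ⟨R, h1, h2⟩ := h n hn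
    exact ⟨_, (Der.top X n).diff h1, fun e he => by simp [Sat, top _ e he, h2 e he]⟩
  | and φ ψ ih1 ih2 =>
    obtain ⟨n0, h⟩ := ih1
    obtain ⟨n1, h'⟩ := ih2
    refine ⟨n0 + n1, fun n hn => ?_⟩
    obtain ⟨R, h1, h2⟩ := h n (by omega)
    obtain ⟨S, h3, h4⟩ := h' n (by omega)
    exact ⟨_, h1.diff ((Der.top X n).diff h3), fun e he => by
      simp [Sat, top _ e he, h2 e he, h4 e he]⟩
  | all φ ih =>
    obtain ⟨n0, h⟩ := ih
    refine ⟨n0, fun n hn => ?_⟩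
    obtain ⟨R, h1, h2⟩ := h (n + 1) (by omega)
    refine ⟨_, (Der.top X n).all h1, fun e he => ?_⟩
    simp only [opAll, mem_sep, top _ e he, true_and, Sat]
    exact forall_congr' fun x => forall_congr' fun hx => h2 (cons x e) (cons_mem (M := X) hx he)

theorem mem_defPow_iff {X Y : ZFSet.{u}} : Y ∈ defPow X ↔ (∃ x, x ∈ X) ∧
    ∃ n R, Der X (n + 1) R ∧ ∃ s ∈ tups X n, Y = opSec X s R (nat n) := by
  rw [defPow, mem_sep, mem_powerset]
  constructor
  · rintro ⟨-, φ, e, he, rfl⟩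
    obtain ⟨n, h⟩ := Der.complete ⟨_, he 0⟩ φ
    obtain ⟨R, h1, h2⟩ := h (n + 1) (by omega)
    refine ⟨⟨_, he 0⟩, n, R, h1, tup n e, (mem_tups ⟨_, he 0⟩).2 ⟨e, he, rfl⟩, ?_⟩
    ext x
    simp only [opSec, mem_sep]
    exact and_congr_right fun hx => (h2 (cons x e) (cons_mem (M := X) hx he)).symm
  · rintro ⟨hX, n, R, h, s, hs, rfl⟩
    obtain ⟨e, he, rfl⟩ := (mem_tups hX).1 hs
    obtain ⟨φ, h⟩ := h.sound hX
    refine ⟨sep_subset, φ, e, he, ?_⟩
    ext x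
    simp only [opSec, mem_sep]
    exact and_congr_right fun hx => h (cons x e) (cons_mem (M := X) hx he)

theorem mem_level {b α x : ZFSet.{u}} :
    x ∈ level b α ↔ x ∈ b ∨ ∃ β ∈ α, x ∈ defPow (level b β) := by
  rw [level, mem_union, mem_sUnion]
  refine or_congr_right ⟨?_, ?_⟩
  · rintro ⟨_, h, hx⟩
    obtain ⟨β, rfl⟩ := mem_range.1 h
    exact ⟨β, β.2, hx⟩
  · rintro ⟨β, hβ, hx⟩
    exact ⟨_, mem_range.2 ⟨⟨β, hβ⟩, rfl⟩, hx⟩

section
variable [hM : ZFm M]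

theorem nat_mem (n : ℕ) : nat.{u} n ∈ M := mem_of_mem omega_mem (nat_mem_omega n)

instance InM.nat (n : ℕ) : InM M (nat n) := ⟨nat_mem n⟩

instance Tm.opExt {s t w : Env.{u} → ZFSet.{u}} [hs : Tm M s] [Tm M t] [hw : Tm M w] :
    Tm M (fun e => opExt (s e) (t e) (w e)) := by
  have := hs.shift
  have := hw.shift.shift
  unfold Forcing.opExt; infer_instance

instance Tm.opMem {s t w : Env.{u} → ZFSet.{u}} [Tm M s] [ht : Tm M t] [hw : Tm M w] :
    Tm M (fun e => opMem (s e) (t e) (w e)) := by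
  have := ht.shift
  have := hw.shift.shift
  unfold Forcing.opMem; infer_instance

instance Tm.opEq {s t w : Env.{u} → ZFSet.{u}} [Tm M s] [ht : Tm M t] [hw : Tm M w] :
    Tm M (fun e => opEq (s e) (t e) (w e)) := by
  have := ht.shift
  have := hw.shift.shift
  unfold Forcing.opEq; infer_instance

instance Tm.opAll {s t w v : Env.{u} → ZFSet.{u}} [Tm M s] [ht : Tm M t] [hw : Tm M w]
    [hv : Tm M v] : Tm M (fun e => opAll (s e) (t e) (w e) (v e)) := by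
  have := ht.shift
  have := hw.shift.shift
  have := hv.shift.shift
  unfold Forcing.opAll; infer_instance

instance Tm.opSec {s t w v : Env.{u} → ZFSet.{u}} [Tm M s] [ht : Tm M t] [hw : Tm M w]
    [hv : Tm M v] : Tm M (fun e => opSec (s e) (t e) (w e) (v e)) := by
  have := ht.shift
  have := hw.shift
  have := hv.shift
  unfold Forcing.opSec; infer_instance

theorem Tm.mem' {t : Env.{u} → ZFSet.{u}} (h : Tm M t) : t (fun _ => ∅) ∈ M :=
  h.mem _ fun _ => Trans.empty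

theorem tups_mem {X : ZFSet.{u}} (hX : X ∈ M) : ∀ n, tups X n ∈ M
  | 0 => singleton_mem Trans.empty
  | n + 1 =>
    have := InM.mk hX
    have := InM.mk (tups_mem hX n)
    (inferInstance : Tm M (fun _ => opExt (tups X n) X (nat n))).mem'

theorem Der.mem_model {X : ZFSet.{u}} (hX : X ∈ M) {n : ℕ} {R : ZFSet.{u}} (h : Der X n R) :
    R ∈ M := by
  have := InM.mk hX
  have := fun n => InM.mk (tups_mem hX n)
  induction h with
  | zero => exact singleton_mem Trans.empty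
  | succ _ _ => exact tups_mem hX _
  | @mem n R i j _ _ _ _ =>
    exact (inferInstance : Tm M (fun _ => opMem (tups X n) (nat i) (nat j))).mem'
  | @eq n R i j _ _ _ _ =>
    exact (inferInstance : Tm M (fun _ => opEq (tups X n) (nat i) (nat j))).mem'
  | diff _ _ ih1 ih2 => exact sdiff_mem ih1 ih2
  | @all n R S _ _ _ ih =>
    have := InM.mk ih
    exact (inferInstance : Tm M (fun _ => opAll (tups X n) X S (nat n))).mem'

/-- One step of a derivation, on triples `(n, U, R)`. -/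
def DStep (X z a b : ZFSet.{u}) : Prop :=
  ∃ n v, a = pair n v ∧ ∃ U R, v = pair U R ∧ ∃ n' v', b = pair n' v' ∧ ∃ U' R', v' = pair U' R' ∧
    (z = pair (insert n n) (pair (opExt U X n) (opExt U X n)) ∨
    (∃ i ∈ n, ∃ j ∈ n, z = pair n (pair U (opMem U i j)) ∨ z = pair n (pair U (opEq U i j))) ∨
    (n' = n ∧ z = pair n (pair U (R \ R'))) ∨
    (n' = insert n n ∧ z = pair n (pair U (opAll U X R' n))))

theorem gen_iff_der {X : ZFSet.{u}} (hX : X ∈ M) {z : ZFSet.{u}} :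
    Gen M (fun z => z = pair ∅ (pair {∅} {∅})) (DStep X) z ↔
      ∃ n R, Der X n R ∧ z = pair (nat n) (pair (tups X n) R) := by
  constructor
  · intro h
    induction h with
    | ax _ h => exact ⟨0, _, .zero, h⟩
    | step _ _ _ h ih1 ih2 =>
      obtain ⟨n, R, h1, rfl⟩ := ih1
      obtain ⟨n', R', h2, rfl⟩ := ih2
      obtain ⟨_, _, h3, _, _, rfl, _, _, h4, _, _, rfl, h⟩ := h
      simp only [pair_inj] at h3 h4
      obtain ⟨rfl, rfl, rfl⟩ := h3
      obtain ⟨rfl, rfl, rfl⟩ := h4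
      rcases h with rfl | ⟨i, hi, j, hj, h⟩ | ⟨h, rfl⟩ | ⟨h, rfl⟩
      · exact ⟨n + 1, _, h1.succ, rfl⟩
      · obtain ⟨i, hi', rfl⟩ := mem_nat.1 hi
        obtain ⟨j, hj', rfl⟩ := mem_nat.1 hj
        rcases h with rfl | rfl
        exacts [⟨n, _, h1.mem hi' hj', rfl⟩, ⟨n, _, h1.eq hi' hj', rfl⟩]
      · obtain rfl := nat_inj.1 h
        exact ⟨_, _, h1.diff h2, rfl⟩
      · obtain rfl := (nat_inj (n := n + 1)).1 h
        exact ⟨_, _, h1.all h2, rfl⟩
  · rintro ⟨n, R, h, rfl⟩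
    have hm : ∀ {n R}, Der X n R → pair (nat n) (pair (tups X n) R) ∈ M := fun h =>
      pair_mem (nat_mem _) (pair_mem (tups_mem hX _) (h.mem_model hX))
    induction h with
    | zero => exact .ax (hm .zero) rfl
    | succ h ih =>
      exact .step (hm h.succ) ih ih ⟨_, _, rfl, _, _, rfl, _, _, rfl, _, _, rfl, Or.inl rfl⟩
    | mem h hi hj ih =>
      exact .step (hm (h.mem hi hj)) ih ih ⟨_, _, rfl, _, _, rfl, _, _, rfl, _, _, rfl,
        Or.inr (Or.inl ⟨_, nat_mem_nat.2 hi, _, nat_mem_nat.2 hj, Or.inl rfl⟩)⟩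
    | eq h hi hj ih =>
      exact .step (hm (h.eq hi hj)) ih ih ⟨_, _, rfl, _, _, rfl, _, _, rfl, _, _, rfl,
        Or.inr (Or.inl ⟨_, nat_mem_nat.2 hi, _, nat_mem_nat.2 hj, Or.inr rfl⟩)⟩
    | diff h h' ih ih' =>
      exact .step (hm (h.diff h')) ih ih' ⟨_, _, rfl, _, _, rfl, _, _, rfl, _, _, rfl,
        Or.inr (Or.inr (Or.inl ⟨rfl, rfl⟩))⟩
    | all h h' ih ih' =>
      exact .step (hm (h.all h')) ih ih' ⟨_, _, rfl, _, _, rfl, _, _, rfl, _, _, rfl,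
        Or.inr (Or.inr (Or.inr ⟨rfl, rfl⟩))⟩

theorem df_mem_defPow : Df M (fun e => e 0 ∈ defPow (e 1)) := by
  have h1 := @df_gen M _ (fun _ z => z = pair ∅ (pair {∅} {∅})) DStep inferInstance
    (by unfold DStep; infer_instance)
  have h2 : ∀ (s t : Env.{u} → ZFSet.{u}) [Tm M s] [Tm M t],
      Df M (fun e => Gen M (fun z => z = pair ∅ (pair {∅} {∅})) (DStep (t e)) (s e)) :=
    fun s t _ _ => Df.subst2
      (R := fun a b => Gen M (fun z => z = pair ∅ (pair {∅} {∅})) (DStep b) a) h1 s t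
  refine (inferInstance : Df M (fun e => (∃ x ∈ e 1, x = x) ∧ ∃ n ∈ M, ∃ U ∈ M, ∃ R0 ∈ M, ∃ U' ∈ M,
    ∃ R ∈ M, Gen M (fun z => z = pair ∅ (pair {∅} {∅})) (DStep (e 1)) (pair n (pair U R0)) ∧
      Gen M (fun z => z = pair ∅ (pair {∅} {∅})) (DStep (e 1)) (pair (insert n n) (pair U' R)) ∧
      ∃ s ∈ U, e 0 = opSec (e 1) s R n)).congr fun e he => ?_
  rw [mem_defPow_iff]
  refine and_congr (by simp) ⟨?_, ?_⟩
  · rintro ⟨_, -, _, -, _, -, _, -, _, -, h3, h4, h5⟩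
    obtain ⟨n, R0, -, h7⟩ := (gen_iff_der (he 1)).1 h3
    obtain ⟨n', R, h6, h8⟩ := (gen_iff_der (he 1)).1 h4
    simp only [pair_inj] at h7 h8
    obtain ⟨rfl, rfl, rfl⟩ := h7
    obtain ⟨h8, rfl, rfl⟩ := h8
    obtain rfl := (nat_inj (m := n + 1)).1 h8
    exact ⟨n, _, h6, h5⟩
  · rintro ⟨n, R, h3, h4⟩
    exact ⟨_, nat_mem n, _, tups_mem (he 1) n, _, tups_mem (he 1) n, _, tups_mem (he 1) (n + 1),
      _, h3.mem_model (he 1), (gen_iff_der (he 1)).2 ⟨n, _, Der.top _ n, rfl⟩,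
      (gen_iff_der (he 1)).2 ⟨n + 1, _, h3, rfl⟩, h4⟩

theorem mem_model_of_mem_defPow {X Y : ZFSet.{u}} (hX : X ∈ M) (h : Y ∈ defPow X) : Y ∈ M := by
  obtain ⟨-, n, R, h1, s, hs, rfl⟩ := mem_defPow_iff.1 h
  have := InM.mk hX
  have := InM.mk (h1.mem_model hX)
  have := InM.mk (mem_of_mem (tups_mem hX n) hs)
  exact (inferInstance : Tm M (fun _ => opSec X s R (nat n))).mem'

theorem tm_defPow (hpow : ∀ x ∈ M, ∃ y ∈ M, ∀ z ∈ M, z ⊆ x → z ∈ y) :
    Tm M (fun e => defPow (e 0)) := by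
  have h1 : ∀ (s t : Env.{u} → ZFSet.{u}) [Tm M s] [Tm M t],
      Df M (fun e => s e ∈ defPow (t e)) :=
    fun s t _ _ => Df.subst2 (R := fun a b => a ∈ defPow b) df_mem_defPow s t
  constructor
  · intro e he
    obtain ⟨y, hy, H⟩ := hpow _ (he 0)
    have := InM.mk (he 0)
    convert sep_mem (fun Y => Y ∈ defPow (e 0)) hy using 1
    ext Y
    rw [mem_sep]
    exact ⟨fun h => ⟨H Y (mem_model_of_mem_defPow (he 0) h) (mem_powerset.1 (mem_sep.1 h).1), h⟩,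
      fun h => h.2⟩
  · refine (inferInstance : Df M (fun e => ∀ Y ∈ M, (Y ∈ e 0 ↔ Y ∈ defPow (e 1)))).congr
      fun e he => ⟨fun h => ?_, fun h Y _ => h ▸ Iff.rfl⟩
    ext Y
    exact ⟨fun hY => (h Y (mem_of_mem (he 0) hY)).1 hY,
      fun hY => (h Y (mem_model_of_mem_defPow (he 1) hY)).2 hY⟩

theorem tm_level (hpow : ∀ x ∈ M, ∃ y ∈ M, ∀ z ∈ M, z ⊆ x → z ∈ y) {b : ZFSet.{u}} (hb : b ∈ M) :
    Tm M (fun e => level b (e 0)) := by
  have := InM.mk hb
  have h1 : ∀ (s : Env.{u} → ZFSet.{u}) [Tm M s], Tm M (fun e => defPow (s e)) :=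
    fun s _ => (tm_defPow hpow).apply1 s
  refine mem_recursion (level b) (fun x f z =>
    z = b ∪ ⋃₀ img (fun v => defPow v) ((⋃₀ ⋃₀ f).sep fun v => ∃ y ∈ x, pair y v ∈ f)) ?_
  intro x hx f hf H
  have h2 : level b x =
      b ∪ ⋃₀ img (fun v => defPow v) ((⋃₀ ⋃₀ f).sep fun v => ∃ y ∈ x, pair y v ∈ f) := by
    ext w
    simp only [mem_level, mem_union, mem_sUnion, mem_img, mem_sep]
    refine or_congr_right ⟨?_, ?_⟩
    · rintro ⟨β, hβ, h⟩
      have h3 := (H β hβ _).2 rfl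
      exact ⟨_, ⟨_, ⟨⟨{β, level b β}, ⟨_, h3, mem_pair.2 (Or.inr rfl)⟩, mem_pair.2 (Or.inr rfl)⟩,
        β, hβ, h3⟩, rfl⟩, h⟩
    · rintro ⟨_, ⟨v, ⟨-, β, hβ, h3⟩, rfl⟩, h⟩
      exact ⟨β, hβ, (H β hβ v).1 h3 ▸ h⟩
  have := InM.mk hx
  have := InM.mk hf
  refine ⟨h2 ▸ (inferInstance : Tm M (fun _ => b ∪ ⋃₀ img (fun v => defPow v)
    ((⋃₀ ⋃₀ f).sep fun v => ∃ y ∈ x, pair y v ∈ f))).mem', fun z _ => by rw [h2]⟩

end

end Pool.Agent.Lib.Forcing
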