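import Pool.Agent.Lib.Constructible.Code
import Mathlib.Logic.Small.List

/-!
Elementary substructures, hulls, the transitive collapse and condensation for `L(A)`.
-/

universe u

set_option synthInstance.maxSize 16384

namespace Pool.Agent.Lib.Forcing

open ZFSet

theorem isZFModel_univ' : IsZFModel (Set.univ : Set ZFSet.{u}) :=
  IsElem.isZFModel (j := id) ⟨inferInstance, fun _ _ _ => Iff.rfl⟩

/-- `j` is an elementary map from `M` to `N`. -/
structure ElemMap (M N : Set ZFSet.{u}) (j : ZFSet.{u} → ZFSet.{u}) : Prop where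
  maps : ∀ x ∈ M, j x ∈ N
  elem : ∀ (φ : Fml) (e : Env.{u}), (∀ i, e i ∈ M) → (Sat M φ e ↔ Sat N φ fun i => j (e i))

variable {M N H : Set ZFSet.{u}} {j : ZFSet.{u} → ZFSet.{u}}

theorem comp_cons (j : ZFSet.{u} → ZFSet.{u}) (x : ZFSet.{u}) (e : Env.{u}) :
    (fun i => j (cons x e i)) = cons (j x) fun i => j (e i) := by
  funext i; cases i <;> rfl

theorem ElemMap.utransfer (h : ElemMap M N j) [hM : Trans M] [hN : Trans N]
    (R : Set ZFSet.{u} → Env.{u} → Prop) [hR : UDf R] (e : Env.{u}) (he : ∀ i, e i ∈ M) :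
    R M e ↔ R N (fun i => j (e i)) := by
  obtain ⟨φ, hφ⟩ := hR.out
  rw [hφ M hM e he, hφ N hN _ fun i => h.maps _ (he i), h.elem φ e he]

/-- Transfer of a uniformly definable predicate along an elementary map. -/
theorem ElemMap.transfer (h : ElemMap M N j) (hM : IsZFModel M) (hN : IsZFModel N)
    (R : Set ZFSet.{u} → Env.{u} → Prop) [hR : ZDf R] (e : Env.{u}) (he : ∀ i, e i ∈ M) :
    R M e ↔ R N (fun i => j (e i)) :=
  hR.transfer hM hN he (fun i => h.maps _ (he i)) fun φ => h.elem φ e he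

/-- An elementary map commutes with uniformly definable operations. -/
theorem ElemMap.map_tm (h : ElemMap M N j) (hM : IsZFModel M) (hN : IsZFModel N)
    (t : Set ZFSet.{u} → Env.{u} → ZFSet.{u}) [ht : ZTm t] (e : Env.{u}) (he : ∀ i, e i ∈ M) :
    j (t M e) = t N (fun i => j (e i)) :=
  ht.transfer hM hN he (fun i => h.maps _ (he i)) (h.maps _ (ht.mem M hM e he)) fun φ => by
    rw [h.elem φ _ (cons_mem (ht.mem M hM e he) he), comp_cons]

theorem ElemMap.mem_iff (h : ElemMap M N j) {x y : ZFSet.{u}} (hx : x ∈ M) (hy : y ∈ M) :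
    j x ∈ j y ↔ x ∈ y :=
  (h.elem (.mem 0 1) (cons x fun _ => y) (cons_mem hx fun _ => hy)).symm

theorem ElemMap.inj (h : ElemMap M N j) {x y : ZFSet.{u}} (hx : x ∈ M) (hy : y ∈ M)
    (hxy : j x = j y) : x = y :=
  (h.elem (.eq 0 1) (cons x fun _ => y) (cons_mem hx fun _ => hy)).2 hxy

theorem ElemMap.isZFModel (h : ElemMap M N j) [hT : Trans M] (hN : IsZFModel N) : IsZFModel M := by
  have := hN.zfm
  have sent : ∀ (R : Set ZFSet.{u} → Prop) [UDf (fun M _ => R M)], R N → R M := fun R _ hR =>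
    (h.utransfer (fun M _ => R M) (fun _ => ∅) fun _ => hT.empty).2 hR
  refine ⟨hT.trans, ?_, ?_, ?_, ?_, ?_, ?_⟩
  · intro x hx y hy
    obtain ⟨z, hz, rfl⟩ := sent (fun M => ∀ x ∈ M, ∀ y ∈ M, ∃ z ∈ M, z = {x, y})
      (fun x hx y hy => ⟨_, hN.pairing x hx y hy, rfl⟩) x hx y hy
    exact hz
  · intro x hx
    obtain ⟨z, hz, h1, h2⟩ := sent
      (fun M => ∀ x ∈ M, ∃ z ∈ M, (∀ y ∈ x, y ⊆ z) ∧ ∀ w ∈ z, ∃ y ∈ x, w ∈ y)
      (fun x hx => ⟨⋃₀ x, hN.union x hx, fun y hy w hw => mem_sUnion.2 ⟨y, hy, hw⟩,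
        fun w hw => mem_sUnion.1 hw⟩) x hx
    convert hz using 1
    ext w
    rw [mem_sUnion]
    exact ⟨fun ⟨y, hy, hw⟩ => h1 y hy hw, h2 w⟩
  · exact sent (fun M => ∀ x ∈ M, ∃ y ∈ M, ∀ z ∈ M, z ⊆ x → z ∈ y) hN.powerSet
  · obtain ⟨w, hw, h1⟩ := sent (fun M => ∃ w ∈ M, IsOmega w)
      ⟨omega, hN.infinity, isOmega_iff.2 rfl⟩
    exact isOmega_iff.1 h1 ▸ hw
  · intro φ e he a ha
    have h1 := (UDf.sat.{u} φ).rename (fun i => match i with | 0 => 0 | i + 1 => i + 1 + 1 + 1)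
    have h2 : UDf.{u} (fun M e => Sat M φ (cons (e 0) fun i => e (i + 1 + 1 + 1))) :=
      h1.congr fun _ _ e _ => by
        congr! 2 with i; cases i <;> rfl
    have h4 := hN.separation φ (fun i => j (e i)) (fun i => h.maps _ (he i)) _ (h.maps a ha)
    obtain ⟨b, hb, h3⟩ := (h.utransfer (fun M e => ∃ b ∈ M, ∀ x ∈ M,
      (x ∈ b ↔ x ∈ e 0 ∧ Sat M φ (cons x fun i => e (i + 1)))) (cons a e) (cons_mem ha he)).2
      ⟨_, h4, fun x _ => mem_sep⟩
    convert hb using 1
    ext x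
    rw [mem_sep]
    exact ⟨fun hx => (h3 x (mem_of_mem ha hx.1)).2 hx, fun hx => (h3 x (mem_of_mem hb hx)).1 hx⟩
  · intro φ e he a ha hex
    have h1 : UDf.{u} (fun M e => Sat M φ (cons (e 0) (cons (e 1) fun i => e (i + 1 + 1 + 1 + 1)))) :=
      ((UDf.sat.{u} φ).rename (fun i => match i with
        | 0 => 0 | 1 => 1 | i + 2 => i + 1 + 1 + 1 + 1)).congr fun _ _ e _ => by
        congr! 2 with i; rcases i with _ | _ | i <;> rfl
    have h2 : UDf.{u} (fun M e => Sat M φ (cons (e 0) (cons (e 1) fun i => e (i + 1 + 1 + 1)))) :=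
      ((UDf.sat.{u} φ).rename (fun i => match i with
        | 0 => 0 | 1 => 1 | i + 2 => i + 1 + 1 + 1)).congr fun _ _ e _ => by
        congr! 2 with i; rcases i with _ | _ | i <;> rfl
    refine (h.utransfer (fun M e =>
      (∀ x ∈ e 0, ∃ y ∈ M, Sat M φ (cons y (cons x fun i => e (i + 1)))) →
      ∃ b ∈ M, ∀ x ∈ e 0, ∃ y ∈ b, Sat M φ (cons y (cons x fun i => e (i + 1))))
      (cons a e) (cons_mem ha he)).2 ?_ fun x hx => (hex x hx).exists
    intro H
    have h3 : Df N (fun e' => Sat N φ (cons (e' 0) (cons (e' 1) fun i => j (e i)))) :=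
      (Df.sat φ).fix2 fun i => h.maps _ (he i)
    obtain ⟨b, hb, Hb⟩ := collection hN.powerSet
      (fun y x => Sat N φ (cons y (cons x fun i => j (e i)))) (h := h3) (h.maps a ha)
    exact ⟨b, hb, fun x hx => Hb x hx (H x hx)⟩

/-- The Tarski-Vaught test. -/
theorem elemMap_id_of_tv (hs : H ⊆ N) (h : ∀ (φ : Fml) (e : Env.{u}), (∀ i, e i ∈ H) →
    (∃ x ∈ N, Sat N φ (cons x e)) → ∃ x ∈ H, Sat N φ (cons x e)) : ElemMap H N id := by
  refine ⟨fun _ hx => hs hx, fun φ => ?_⟩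
  induction φ with
  | mem i j => exact fun _ _ => Iff.rfl
  | eq i j => exact fun _ _ => Iff.rfl
  | neg φ ih => exact fun e he => not_congr (ih e he)
  | and φ ψ ih1 ih2 => exact fun e he => and_congr (ih1 e he) (ih2 e he)
  | all φ ih =>
    intro e he
    refine ⟨fun h' x hx => ?_, fun h' x hx => (ih _ (cons_mem hx he)).2 (h' x (hs hx))⟩
    by_contra hc
    obtain ⟨y, hy, h1⟩ := h (.neg φ) e he ⟨x, hx, hc⟩
    exact h1 ((ih _ (cons_mem hy he)).1 (h' y hy))

/-- Witnesses of uniformly definable statements are found in an elementary substructure. -/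
theorem ElemMap.exists_mem (h : ElemMap H N id) (hN : IsZFModel N)
    (R : Set ZFSet.{u} → Env.{u} → Prop) [hR : ZDf R] {e : Env.{u}} (he : ∀ i, e i ∈ H)
    (hex : ∃ x ∈ N, R N (cons x e)) : ∃ x ∈ H, R N (cons x e) := by
  obtain ⟨φ, hφ⟩ := hR.out
  have heN : ∀ i, e i ∈ N := fun i => h.maps _ (he i)
  by_contra hc
  obtain ⟨x, hx, h1⟩ := hex
  refine (h.elem (.all (.neg φ)) e he).1 (fun y hy h2 => hc ⟨y, hy, ?_⟩) x hx
    ((hφ N hN _ (cons_mem hx heN)).1 h1)
  exact (hφ N hN _ (cons_mem (h.maps y hy) heN)).2 ((h.elem φ _ (cons_mem hy he)).1 h2)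

theorem ElemMap.tm_mem (h : ElemMap H N id) (hN : IsZFModel N)
    (t : Set ZFSet.{u} → Env.{u} → ZFSet.{u}) [ht : ZTm t] {e : Env.{u}} (he : ∀ i, e i ∈ H) :
    t N e ∈ H := by
  obtain ⟨x, hx, h1⟩ := h.exists_mem hN _ (hR := ht.df) he
    ⟨_, ht.mem N hN e fun i => h.maps _ (he i), rfl⟩
  exact (show x = t N e from h1) ▸ hx

/-- Skolem hulls, closed under countably many further operations. -/
theorem exists_hull (h0 : ∅ ∈ N) {S : Set ZFSet.{u}} (hS : S ⊆ N)
    (F : ℕ → ZFSet.{u} → ZFSet.{u} → ZFSet.{u}) (hF : ∀ n, ∀ x ∈ N, ∀ y ∈ N, F n x y ∈ N) :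
    ∃ H : Set ZFSet.{u}, S ⊆ H ∧ ∅ ∈ H ∧ ElemMap H N id ∧
      (∀ n, ∀ x ∈ H, ∀ y ∈ H, F n x y ∈ H) ∧ (S.Countable → H.Countable) ∧
      (Small.{u} S → Small.{u} H) := by
  classical
  let sk : Fml → List ZFSet.{u} → ZFSet.{u} := fun φ l =>
    if h : ∃ x ∈ N, Sat N φ (cons x fun i => l.getD i ∅) then h.choose else ∅
  have hsk : ∀ φ l, sk φ l ∈ N := by
    intro φ l
    simp only [sk]
    split_ifs with h
    exacts [h.choose_spec.1, h0]
  let T : ℕ → Set ZFSet.{u} := fun k => Nat.rec (insert ∅ S)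
    (fun _ Y => Y ∪ (Set.range (fun t : Fml × List Y => sk t.1 (t.2.map Subtype.val)) ∪
      Set.range fun t : ℕ × Y × Y => F t.1 t.2.1 t.2.2)) k
  have hm : Monotone T := monotone_nat_of_le_succ fun k => Set.subset_union_left
  have hN : ∀ k, T k ⊆ N := by
    intro k
    induction k with
    | zero => exact Set.insert_subset h0 hS
    | succ k ih =>
      rintro x (hx | ⟨t, rfl⟩ | ⟨t, rfl⟩)
      exacts [ih hx, hsk _ _, hF _ _ (ih t.2.1.2) _ (ih t.2.2.2)]
  refine ⟨⋃ k, T k, fun x hx => Set.mem_iUnion.2 ⟨0, Or.inr hx⟩, Set.mem_iUnion.2 ⟨0, Or.inl rfl⟩,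
    elemMap_id_of_tv (Set.iUnion_subset hN) fun φ e he hex => ?_, fun n x hx y hy => ?_,
    fun hc => Set.countable_iUnion fun k => ?_, fun hc => ?_⟩
  · obtain ⟨n, hn⟩ := sat_finite N φ
    obtain ⟨k, hk⟩ : ∃ k, ∀ i < n, e i ∈ T k := by
      clear hn
      induction n with
      | zero => exact ⟨0, fun _ h => absurd h (Nat.not_lt_zero _)⟩
      | succ n ihn =>
        obtain ⟨k, hk⟩ := ihn
        obtain ⟨k', hk'⟩ := Set.mem_iUnion.1 (he n)
        refine ⟨max k k', fun i hi => ?_⟩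
        rcases Nat.lt_succ_iff_lt_or_eq.1 hi with hi | rfl
        exacts [hm (le_max_left _ _) (hk i hi), hm (le_max_right _ _) hk']
    let l : List ↥(T k) := List.ofFn fun i : Fin n => (⟨e i, hk i i.2⟩ : ↥(T k))
    have hl : ∀ x, Sat N φ (cons x fun i => (l.map Subtype.val).getD i ∅) ↔
        Sat N φ (cons x e) := by
      intro x
      refine hn _ _ ?_
      rintro (_ | i) hi
      · rfl
      · have : i < n := by omega
        simp [l, this]
    have hex' : ∃ x ∈ N, Sat N φ (cons x fun i => (l.map Subtype.val).getD i ∅) :=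
      hex.imp fun x hx => ⟨hx.1, (hl x).2 hx.2⟩
    refine ⟨sk φ (l.map Subtype.val), Set.mem_iUnion.2 ⟨k + 1, Or.inr (Or.inl ⟨(φ, l), rfl⟩)⟩, ?_⟩
    rw [← hl]
    simp only [sk, dif_pos hex']
    exact hex'.choose_spec.2
  · obtain ⟨k, hk⟩ := Set.mem_iUnion.1 hx
    obtain ⟨k', hk'⟩ := Set.mem_iUnion.1 hy
    exact Set.mem_iUnion.2 ⟨max k k' + 1, Or.inr (Or.inr
      ⟨(n, ⟨x, hm (le_max_left _ _) hk⟩, ⟨y, hm (le_max_right _ _) hk'⟩), rfl⟩)⟩
  · induction k with
    | zero => exact hc.insert _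
    | succ k ih =>
      have := ih.to_subtype
      exact ih.union ((Set.countable_range _).union (Set.countable_range _))
  · have key : ∀ Y : Set ZFSet.{u}, Small.{u} ↥Y →
        Small.{u} ↥(Y ∪ (Set.range (fun t : Fml × List Y => sk t.1 (t.2.map Subtype.val)) ∪
          Set.range fun t : ℕ × Y × Y => F t.1 t.2.1 t.2.2)) := by
      intro Y _
      have h9 : Small.{u} Fml := small_of_injective Fml.code_injective
      infer_instance
    have h8 : ∀ k, Small.{u} ↥(T k) := by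
      intro k
      induction k with
      | zero => exact small_insert _ _
      | succ k ih => exact key _ ih
    exact @small_iUnion _ _ (small_zero ℕ) T h8

/-- The Mostowski collapse of the class `H`. -/
noncomputable def col (H : Set ZFSet.{u}) : ZFSet.{u} → ZFSet.{u} := (exists_collapse H).choose

theorem mem_col {x z : ZFSet.{u}} : z ∈ col H x ↔ ∃ y ∈ x, y ∈ H ∧ col H y = z :=
  (exists_collapse H).choose_spec x z

theorem trans_col (h0 : ∅ ∈ H) : Trans (col H '' H) := by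
  refine ⟨?_, ∅, h0, ?_⟩
  · rintro _ ⟨x, -, rfl⟩ z hz
    obtain ⟨y, -, h1, h2⟩ := mem_col.1 hz
    exact ⟨y, h1, h2⟩
  · rw [ZFSet.eq_empty]
    intro z hz
    obtain ⟨y, h, -⟩ := mem_col.1 hz
    exact notMem_empty _ h

/-- The collapse is the identity on a transitive part of `H`. -/
theorem col_eq_self {T : Set ZFSet.{u}} (hT : ∀ x ∈ T, ∀ y ∈ x, y ∈ T) (hTH : T ⊆ H)
    {x : ZFSet.{u}} (hx : ∀ y ∈ x, y ∈ T) : col H x = x := by
  induction x using ZFSet.inductionOn with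
  | h x ih =>
    ext z
    rw [mem_col]
    constructor
    · rintro ⟨y, h1, -, rfl⟩
      rwa [ih y h1 (hT y (hx y h1))]
    · exact fun hz => ⟨z, hz, hTH (hx z hz), ih z hz (hT z (hx z hz))⟩

theorem col_inj (h : ElemMap H N id) [Trans N] {x y : ZFSet.{u}} (hx : x ∈ H) (hy : y ∈ H)
    (hxy : col H x = col H y) : x = y := by
  have hext : ∀ x ∈ H, ∀ y ∈ H, (∀ z ∈ H, z ∈ x → z ∈ y) → x ⊆ y := by
    intro x hx y hy h'
    have := (h.elem (.all (.neg (.and (.mem 0 1) (.neg (.mem 0 2))))) (cons x fun _ => y)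
      (cons_mem hx fun _ => hy)).1 (fun z hz h'' => h''.2 (h' z hz h''.1))
    intro z hz
    by_contra h''
    exact this z (mem_of_mem (h.maps x hx) hz) ⟨hz, h''⟩
  induction x using ZFSet.inductionOn generalizing y with
  | h x ih =>
    apply subset_antisymm
    · refine hext x hx y hy fun z hz hzx => ?_
      obtain ⟨w, h1, h2, h3⟩ := mem_col.1 (hxy ▸ mem_col.2 ⟨z, hzx, hz, rfl⟩)
      rwa [ih z hzx hz h2 h3.symm]
    · refine hext y hy x hx fun z hz hzy => ?_
      obtain ⟨w, h1, h2, h3⟩ := mem_col.1 (hxy ▸ mem_col.2 ⟨z, hzy, hz, rfl⟩)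
      rwa [← ih w h1 h2 hz h3]

/-- The collapse is an isomorphism. -/
theorem elemMap_col (h : ElemMap H N id) [Trans N] : ElemMap H (col H '' H) (col H) := by
  refine ⟨fun x hx => ⟨x, hx, rfl⟩, fun φ => ?_⟩
  induction φ with
  | mem i j =>
    intro e he
    simp only [Sat, mem_col]
    exact ⟨fun h => ⟨_, h, he i, rfl⟩, fun ⟨y, h1, h2, h3⟩ => col_inj h h2 (he i) h3 ▸ h1⟩
  | eq i j => exact fun e he => ⟨fun h => congrArg (col H) h, col_inj h (he i) (he j)⟩
  | neg φ ih => exact fun e he => not_congr (ih e he)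
  | and φ ψ ih1 ih2 => exact fun e he => and_congr (ih1 e he) (ih2 e he)
  | all φ ih =>
    intro e he
    simp only [Sat]
    constructor
    · rintro h _ ⟨x, hx, rfl⟩
      rw [← comp_cons, ← ih _ (cons_mem hx he)]
      exact h x hx
    · intro h x hx
      rw [ih _ (cons_mem hx he), comp_cons]
      exact h _ ⟨x, hx, rfl⟩

theorem sat_col (h : ElemMap H N id) [Trans N] (φ : Fml) {e : Env.{u}} (he : ∀ i, e i ∈ H) :
    Sat (col H '' H) φ (fun i => col H (e i)) ↔ Sat N φ e :=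
  ((elemMap_col h).elem φ e he).symm.trans (h.elem φ e he)

/-- The inverse of the collapse is elementary. -/
theorem exists_uncol (h : ElemMap H N id) [Trans N] : ∃ j : ZFSet.{u} → ZFSet.{u},
    ElemMap (col H '' H) N j ∧ ∀ x ∈ H, j (col H x) = x := by
  classical
  let j : ZFSet.{u} → ZFSet.{u} := fun m => if h : m ∈ col H '' H then h.choose else ∅
  have hj : ∀ m ∈ col H '' H, j m ∈ H ∧ col H (j m) = m := by
    intro m hm
    simp only [j, dif_pos hm]
    exact hm.choose_spec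
  refine ⟨j, ⟨fun m hm => h.maps _ (hj m hm).1, fun φ e he => ?_⟩, fun x hx =>
    col_inj h (hj _ ⟨x, hx, rfl⟩).1 hx (hj _ ⟨x, hx, rfl⟩).2⟩
  rw [← sat_col h φ fun i => (hj _ (he i)).1]
  simp only [fun i => (hj _ (he i)).2]

theorem isZFModel_col (h : ElemMap H N id) (hN : IsZFModel N) (hne : H.Nonempty) :
    IsZFModel (col H '' H) := by
  have := hN.toTrans
  obtain ⟨x, hx⟩ := hne
  have := trans_col (h.tm_mem hN (fun _ _ => ∅) (e := fun _ => x) fun _ => hx)
  obtain ⟨j, hj, -⟩ := exists_uncol h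
  exact hj.isZFModel hN

theorem eq_col {c : ZFSet.{u} → ZFSet.{u}} (hc : ∀ x z, z ∈ c x ↔ ∃ y ∈ x, y ∈ H ∧ c y = z) :
    c = col H := by
  funext x
  induction x using ZFSet.inductionOn with
  | h x ih =>
    ext z
    rw [hc, mem_col]
    exact exists_congr fun y => and_congr_right fun hy => by rw [ih y hy]

/-- A set model of ZF and `V = L(b)` is a level. -/
theorem eq_level_of_constr {b X : ZFSet.{u}} (hX : IsZFModel (X : Set ZFSet.{u})) (hb : b ∈ X)
    (h : ∀ x ∈ X, x ∈ constr (X : Set ZFSet.{u}) b) : X = level b (X.sep IsOrdinal) := by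
  ext x
  constructor
  · intro hx
    obtain ⟨β, hβ, ho, h1⟩ := h x hx
    exact level_mono (fun y hy => mem_sep.2 ⟨hX.transitive β hβ y hy, ho.mem hy⟩) h1
  · intro hx
    rcases mem_level.1 hx with h1 | ⟨β, hβ, h1⟩
    · exact hX.transitive b hb x h1
    · exact hX.transitive _ ((inferInstance : ZTm (fun _ e => defPow (level (e 0) (e 1)))).mem X hX
        (cons b fun _ => β) (cons_mem (M := (X : Set ZFSet.{u})) hb fun _ => (mem_sep.1 hβ).1)) x h1

/-- Every element of `L(b)` lies in a set model of ZF and `V = L(b)`. -/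
theorem exists_zf_level {b x : ZFSet.{u}} [Trans (b : Set ZFSet.{u})]
    (hx : x ∈ constr Set.univ b) : ∃ X : ZFSet.{u}, IsZFModel (X : Set ZFSet.{u}) ∧ b ∈ X ∧
      (∀ y ∈ X, y ∈ constr (X : Set ZFSet.{u}) b) ∧ x ∈ X := by
  have hV := isZFModel_univ'.{u}
  have := hV.zfm
  have hN : IsZFModel (constr Set.univ b) := isZFModel_constr hV.powerSet trivial
  have := hN.toTrans
  obtain ⟨ξ, -, ho, hx⟩ := hx
  have hT := trans_level (b := b) (insert ξ ξ)
  have hbT : b ∈ level b (insert ξ ξ) := by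
    have h0 : (∅ : ZFSet.{u}) ∈ (insert ξ ξ : ZFSet.{u}) := by
      rcases (isOrdinal_empty.subset_iff_eq_or_mem ho).1 (empty_subset ξ) with h | h
      exacts [h ▸ mem_insert _ _, mem_insert_of_mem _ h]
    have h1 := level_mem_level (b := b) h0
    rwa [level_empty] at h1
  have hxT : x ∈ level b (insert ξ ξ) := level_mono (fun _ h => mem_insert_of_mem _ h) hx
  obtain ⟨H, h1, h2, h3, -, -, h4⟩ := exists_hull (N := constr Set.univ b) Trans.empty
    (S := (level b (insert ξ ξ) : Set ZFSet.{u}))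
    (fun y hy => ⟨_, trivial, isOrdinal_succ ho, hy⟩) (fun _ x _ => x) fun _ _ hx _ _ => hx
  have h5 : Small.{u} ↥H := h4 (small_coe _)
  have hfix : ∀ y ∈ level b (insert ξ ξ), col H y = y := fun y hy =>
    col_eq_self hT.trans h1 (hT.trans y hy)
  have h6 : ((range fun y : H => col H y : ZFSet.{u}) : Set ZFSet.{u}) = col H '' H := by
    ext z
    simp
  have h7 := isZFModel_col h3 hN ⟨_, h2⟩
  obtain ⟨j, hj, hj'⟩ := exists_uncol h3
  have hb' : b ∈ col H '' H := ⟨b, h1 hbT, hfix b hbT⟩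
  refine ⟨range fun y : H => col H y, h6 ▸ h7, ?_, fun y hy => ?_, ?_⟩
  · rw [← SetLike.mem_coe, h6]; exact hb'
  · rw [← SetLike.mem_coe, h6] at hy
    rw [h6]
    refine (hj.transfer h7 hN (fun M e => e 0 ∈ constr M (e 1)) (cons y fun _ => b)
      (cons_mem hy fun _ => hb')).2 ?_
    have h8 : j b = b := by
      conv_lhs => rw [← hfix b hbT]
      exact hj' b (h1 hbT)
    simp only [cons_zero, cons_succ, h8]
    rw [constr_constr hV trivial]
    exact hj.maps y hy
  · rw [← SetLike.mem_coe, h6]; exact ⟨x, h1 hxT, hfix x hxT⟩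

end Pool.Agent.Lib.Forcing
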