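import Pool.Agent.Lib.Constructible.DefPow

/-!
Goedel's theorem: the constructible sets over a transitive set `b` form an inner model of ZF.
-/

universe u

set_option synthInstance.maxSize 16384

namespace Pool.Agent.Lib.Forcing

open ZFSet

variable {M : Set ZFSet.{u}} {b : ZFSet.{u}}

theorem subset_of_mem_defPow {X Y : ZFSet.{u}} (h : Y ∈ defPow X) : Y ⊆ X :=
  mem_powerset.1 (mem_sep.1 h).1

theorem sep_mem_defPow {X : ZFSet.{u}} [Trans (X : Set ZFSet.{u})] (R : ZFSet.{u} → Prop)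
    [h : Df (X : Set ZFSet.{u}) (fun e => R (e 0))] : X.sep R ∈ defPow X := by
  obtain ⟨φ, p, hp, h⟩ := h.exists_fml1
  refine mem_sep.2 ⟨mem_powerset.2 sep_subset, φ, p, hp, ?_⟩
  ext x
  simp only [mem_sep]
  exact and_congr_right fun hx => h x hx

theorem level_mono {α β : ZFSet.{u}} (h : α ⊆ β) : level b α ⊆ level b β := fun _ hx =>
  mem_level.2 ((mem_level.1 hx).imp_right fun ⟨γ, hγ, h'⟩ => ⟨γ, h hγ, h'⟩)

theorem base_subset_level (α : ZFSet.{u}) : b ⊆ level b α := fun _ hx => mem_level.2 (Or.inl hx)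

theorem trans_level [hb : Trans (b : Set ZFSet.{u})] (α : ZFSet.{u}) :
    Trans (level b α : Set ZFSet.{u}) := by
  induction α using ZFSet.inductionOn with
  | h α ih =>
    refine ⟨fun x hx y hy => ?_, base_subset_level α hb.empty⟩
    rcases mem_level.1 hx with h | ⟨β, hβ, h⟩
    · exact base_subset_level α (hb.trans x h y hy)
    · have := ih β hβ
      have h1 : y ∈ level b β := subset_of_mem_defPow h hy
      have := InM.mk (M := (level b β : Set ZFSet.{u})) h1
      refine mem_level.2 (Or.inr ⟨β, hβ, ?_⟩)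
      convert sep_mem_defPow (X := level b β) (fun z => z ∈ y) using 1
      ext z
      rw [mem_sep]
      exact ⟨fun hz => ⟨mem_of_mem (M := (level b β : Set ZFSet.{u})) h1 hz, hz⟩, fun hz => hz.2⟩

attribute [local instance] trans_level

theorem sep_mem_level [Trans (b : Set ZFSet.{u})] {α : ZFSet.{u}} (R : ZFSet.{u} → Prop)
    [Df (level b α : Set ZFSet.{u}) (fun e => R (e 0))] :
    (level b α).sep R ∈ level b (insert α α) :=
  mem_level.2 (Or.inr ⟨α, mem_insert _ _, sep_mem_defPow R⟩)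

theorem level_mem_level [Trans (b : Set ZFSet.{u})] {α β : ZFSet.{u}} (h : α ∈ β) :
    level b α ∈ level b β := by
  refine mem_level.2 (Or.inr ⟨α, h, ?_⟩)
  convert sep_mem_defPow (X := level b α) (fun z => z = z) using 1
  ext z
  simp

theorem isOrdinal_union {α β : ZFSet.{u}} (hα : α.IsOrdinal) (hβ : β.IsOrdinal) :
    (α ∪ β).IsOrdinal := by
  refine isOrdinal_iff_forall_mem_isOrdinal.2 ⟨hα.isTransitive.union hβ.isTransitive, fun x hx => ?_⟩
  exact (mem_union.1 hx).elim hα.mem hβ.mem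

theorem subset_union_left' (α β : ZFSet.{u}) : α ⊆ α ∪ β := fun _ h => mem_union.2 (Or.inl h)
theorem subset_union_right' (α β : ZFSet.{u}) : β ⊆ α ∪ β := fun _ h => mem_union.2 (Or.inr h)

theorem mem_rk_of_isOrdinal {y B : ZFSet.{u}} (ho : y.IsOrdinal) (hy : y ∈ B) : y ∈ rk B := by
  have : rk y = y := ho.toZFSet_rank_eq
  exact mem_rk.2 ⟨y, hy, by rw [this]; exact mem_insert _ _⟩

section
variable [hM : ZFm M] (hpow : ∀ x ∈ M, ∃ y ∈ M, ∀ z ∈ M, z ⊆ x → z ∈ y) (hb : b ∈ M)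
include hpow hb

theorem constr_subset : constr M b ⊆ M := by
  rintro x ⟨α, hα, -, hx⟩
  exact mem_of_mem ((tm_level hpow hb).mem1 hα) hx

theorem df_constr (s : Env.{u} → ZFSet.{u}) [Tm M s] : Df M (fun e => s e ∈ constr M b) := by
  have h1 : ∀ (s : Env.{u} → ZFSet.{u}) [Tm M s], Tm M (fun e => level b (s e)) :=
    fun s _ => (tm_level hpow hb).apply1 s
  exact Df.subst1 (R := fun x => x ∈ constr M b)
    (inferInstance : Df M (fun e => ∃ α ∈ M, α.IsOrdinal ∧ e 0 ∈ level b α)) s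

theorem exists_level_of_mem {S : ZFSet.{u}} (hS : S ∈ M) :
    ∃ α ∈ M, α.IsOrdinal ∧ ∀ x ∈ S, x ∈ constr M b → x ∈ level b α := by
  have h1 : ∀ (s : Env.{u} → ZFSet.{u}) [Tm M s], Tm M (fun e => level b (s e)) :=
    fun s _ => (tm_level hpow hb).apply1 s
  obtain ⟨B, hB, H⟩ := collection hpow (fun α x => α.IsOrdinal ∧ x ∈ level b α) hS
  refine ⟨rk B, rk_mem hB, isOrdinal_rk B, fun x hx h => ?_⟩
  obtain ⟨α, hα, ho, h2⟩ := H x hx h
  exact level_mono ((isOrdinal_rk B).subset_of_mem (mem_rk_of_isOrdinal ho hα)) h2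

variable [hbt : Trans (b : Set ZFSet.{u})]

omit hpow hb in
theorem trans_constr : Trans (constr M b) :=
  ⟨fun _ ⟨α, hα, ho, hx⟩ _ hy => ⟨α, hα, ho, mem_of_mem (M := (level b α : Set ZFSet.{u})) hx hy⟩,
    ∅, Trans.empty, isOrdinal_empty, base_subset_level _ hbt.empty⟩

omit hpow hb in
theorem level_mem_constr {α : ZFSet.{u}} (hα : α ∈ M) (ho : α.IsOrdinal) :
    level b α ∈ constr M b :=
  ⟨_, insert_mem hα hα, isOrdinal_succ ho, level_mem_level (mem_insert _ _)⟩

omit hpow hb in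
theorem sep_mem_constr {α : ZFSet.{u}} (hα : α ∈ M) (ho : α.IsOrdinal) (R : ZFSet.{u} → Prop)
    [Df (level b α : Set ZFSet.{u}) (fun e => R (e 0))] : (level b α).sep R ∈ constr M b :=
  ⟨_, insert_mem hα hα, isOrdinal_succ ho, sep_mem_level R⟩

theorem ordinal_mem_constr {α : ZFSet.{u}} (hα : α ∈ M) (ho : α.IsOrdinal) : α ∈ constr M b := by
  have := trans_constr (M := M) (b := b)
  induction α using ZFSet.inductionOn with
  | h α ih =>
    obtain ⟨β, hβ, hβo, H⟩ := exists_level_of_mem hpow hb hα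
    have h1 := sep_mem_constr (b := b) hβ hβo (fun x => x.IsOrdinal)
    have h2 : ((level b β).sep fun x => x.IsOrdinal).IsOrdinal := by
      refine isOrdinal_iff_forall_mem_isOrdinal.2 ⟨fun x hx y hy => ?_, fun x hx => (mem_sep.1 hx).2⟩
      exact mem_sep.2 ⟨mem_of_mem (M := (level b β : Set ZFSet.{u})) (mem_sep.1 hx).1 hy,
        (mem_sep.1 hx).2.mem hy⟩
    rcases (ho.subset_iff_eq_or_mem h2).1 (fun x hx => mem_sep.2
      ⟨H x hx (ih x hx (mem_of_mem hα hx) (ho.mem hx)), ho.mem hx⟩) with h | h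
    · rwa [h]
    · exact mem_of_mem h1 h

omit hbt in
theorem df_sat_constr (φ : Fml) : Df M (fun e => Sat (constr M b) φ e) := by
  induction φ with
  | mem i j => exact Df.memVar i j
  | eq i j => exact Df.eqVar i j
  | neg φ ih => exact @Df.not _ _ ih
  | and φ ψ ih1 ih2 => exact @Df.and _ _ _ ih1 ih2
  | all φ ih =>
    have h1 := @Df.imp M _ _ (df_constr hpow hb (fun e => e 0)) ih
    exact h1.all'.congr fun e _ =>
      ⟨fun h x hx => h x (constr_subset hpow hb hx) hx, fun h x _ hx => h x hx⟩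

/-- On a level, truth in the constructible class is expressed with bounded quantifiers. -/
theorem exists_bounded (φ : Fml) : ∀ ξ ∈ M, ξ.IsOrdinal → ∃ β0 ∈ M, β0.IsOrdinal ∧
    ∃ R : Env.{u} → Prop, (∀ β, β0 ⊆ β → Df (level b β : Set ZFSet.{u}) R) ∧
      ∀ e : Env.{u}, (∀ i, e i ∈ level b ξ) → (R e ↔ Sat (constr M b) φ e) := by
  induction φ with
  | mem i j => exact fun ξ hξ ho => ⟨ξ, hξ, ho, _, fun _ _ => Df.memVar i j, fun _ _ => Iff.rfl⟩
  | eq i j => exact fun ξ hξ ho => ⟨ξ, hξ, ho, _, fun _ _ => Df.eqVar i j, fun _ _ => Iff.rfl⟩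
  | neg φ ih =>
    intro ξ hξ ho
    obtain ⟨β0, h1, h2, R, h3, h4⟩ := ih ξ hξ ho
    exact ⟨β0, h1, h2, _, fun β h => @Df.not _ _ (h3 β h), fun e he => not_congr (h4 e he)⟩
  | and φ ψ ih1 ih2 =>
    intro ξ hξ ho
    obtain ⟨β0, h1, h2, R, h3, h4⟩ := ih1 ξ hξ ho
    obtain ⟨β1, h5, h6, S, h7, h8⟩ := ih2 ξ hξ ho
    exact ⟨β0 ∪ β1, union_mem h1 h5, isOrdinal_union h2 h6, _,
      fun β h => @Df.and _ _ _ (h3 β ((subset_union_left' _ _).trans h))
        (h7 β ((subset_union_right' _ _).trans h)), fun e he => and_congr (h4 e he) (h8 e he)⟩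
  | all φ ih =>
    intro ξ hξ ho
    have h0 := @Df.and M _ _ (df_constr hpow hb (fun e => e 0))
      (@Df.not _ _ (df_sat_constr hpow hb φ))
    obtain ⟨B, hB, HB⟩ := collection_env hpow h0 ((tm_level hpow hb).mem1 hξ)
    obtain ⟨α0, hα0, hα0o, H⟩ := exists_level_of_mem hpow hb hB
    have hα := union_mem hα0 hξ
    have hαo := isOrdinal_union hα0o ho
    obtain ⟨β0, h1, h2, R, h3, h4⟩ := ih _ hα hαo
    refine ⟨β0 ∪ insert (α0 ∪ ξ) (α0 ∪ ξ), union_mem h1 (insert_mem hα hα),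
      isOrdinal_union h2 (isOrdinal_succ hαo), fun e => ∀ x ∈ level b (α0 ∪ ξ), R (cons x e),
      fun β h => ?_, fun e he => ?_⟩
    · have := InM.mk (M := (level b β : Set ZFSet.{u}))
        (level_mem_level (h (subset_union_right' _ _ (mem_insert _ _))))
      refine @Df.allIn _ _ _ _ (fun x e => R (cons x e)) ?_
      simp only [cons_tail]
      exact h3 β ((subset_union_left' _ _).trans h)
    · have h5 : ∀ x ∈ level b (α0 ∪ ξ), (R (cons x e) ↔ Sat (constr M b) φ (cons x e)) :=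
        fun x hx => h4 _ (cons_mem (M := (level b (α0 ∪ ξ) : Set ZFSet.{u})) hx
          fun i => level_mono (subset_union_right' _ _) (he i))
      constructor
      · intro h x hx
        by_contra h6
        obtain ⟨y, hy, h7, h8⟩ := HB e he ⟨x, constr_subset hpow hb hx, hx, h6⟩
        have h9 := level_mono (subset_union_left' _ ξ) (H y hy h7)
        exact h8 ((h5 y h9).1 (h y h9))
      · exact fun h x hx => (h5 x hx).2 (h x ⟨_, hα, hαo, hx⟩)

omit hpow hb hbt in
theorem exists_level_env (n : ℕ) {e : Env.{u}} (he : ∀ i, e i ∈ constr M b) :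
    ∃ ξ ∈ M, ξ.IsOrdinal ∧ ∀ i < n, e i ∈ level b ξ := by
  induction n with
  | zero => exact ⟨∅, Trans.empty, isOrdinal_empty, fun _ h => absurd h (Nat.not_lt_zero _)⟩
  | succ n ih =>
    obtain ⟨ξ, h1, h2, h3⟩ := ih
    obtain ⟨α, h4, h5, h6⟩ := he n
    refine ⟨ξ ∪ α, union_mem h1 h4, isOrdinal_union h2 h5, fun i hi => ?_⟩
    rcases Nat.lt_succ_iff_lt_or_eq.1 hi with hi | rfl
    exacts [level_mono (subset_union_left' _ _) (h3 i hi), level_mono (subset_union_right' _ _) h6]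

theorem isZFModel_constr : IsZFModel (constr M b) := by
  have ht := trans_constr (M := M) (b := b)
  refine ⟨ht.trans, ?_, ?_, ?_, ordinal_mem_constr hpow hb omega_mem isOrdinal_omega', ?_, ?_⟩
  · intro x hx y hy
    obtain ⟨ξ, h1, h2, h3⟩ := exists_level_env 2 (e := cons x fun _ => y) (cons_mem hx fun _ => hy)
    have hx' : x ∈ level b ξ := h3 0 (by omega)
    have hy' : y ∈ level b ξ := h3 1 (by omega)
    have := InM.mk (M := (level b ξ : Set ZFSet.{u})) hx'
    have := InM.mk (M := (level b ξ : Set ZFSet.{u})) hy'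
    convert sep_mem_constr (b := b) h1 h2 (fun z => z = x ∨ z = y) using 1
    ext z
    rw [mem_sep, mem_pair]
    exact ⟨fun h => ⟨h.elim (fun h => h ▸ hx') (fun h => h ▸ hy'), h⟩, fun h => h.2⟩
  · rintro x ⟨ξ, h1, h2, hx⟩
    have := InM.mk (M := (level b ξ : Set ZFSet.{u})) hx
    convert sep_mem_constr (b := b) h1 h2 (fun z => ∃ w ∈ x, z ∈ w) using 1
    ext z
    rw [mem_sep, mem_sUnion]
    exact ⟨fun ⟨w, h3, h4⟩ => ⟨mem_of_mem (M := (level b ξ : Set ZFSet.{u}))
      (mem_of_mem hx h3) h4, w, h3, h4⟩, fun h => h.2⟩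
  · intro x hx
    obtain ⟨y, hy, H⟩ := hpow x (constr_subset hpow hb hx)
    obtain ⟨α, h1, h2, h3⟩ := exists_level_of_mem hpow hb hy
    exact ⟨_, level_mem_constr h1 h2,
      fun z hz h => h3 z (H z (constr_subset hpow hb hz) h) hz⟩
  · intro φ e he a ha
    classical
    obtain ⟨n, hn⟩ := sat_finite (constr M b) φ
    obtain ⟨ξ, h1, h2, h3⟩ := exists_level_env (n + 1) (cons_mem ha he)
    have ha' : a ∈ level b ξ := h3 0 (by omega)
    let e' : Env.{u} := fun i => if i < n then e i else ∅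
    have he' : ∀ i, e' i ∈ level b ξ := fun i => by
      simp only [e']
      split_ifs with h
      exacts [h3 (i + 1) (by omega), base_subset_level _ hbt.empty]
    obtain ⟨β0, h4, h5, R, h6, h7⟩ := exists_bounded hpow hb φ ξ h1 h2
    have h8 := level_mono (b := b) (subset_union_right' β0 ξ)
    have := InM.mk (M := (level b (β0 ∪ ξ) : Set ZFSet.{u})) (h8 ha')
    have := (h6 _ (subset_union_left' β0 ξ)).fix1 (ε := e') fun i => h8 (he' i)
    convert sep_mem_constr (b := b) (union_mem h4 h1) (isOrdinal_union h5 h2)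
      (fun z => z ∈ a ∧ R (cons z e')) using 1
    ext z
    simp only [mem_sep]
    have h9 : z ∈ a → (R (cons z e') ↔ Sat (constr M b) φ (cons z e)) := fun hz => by
      rw [h7 _ (cons_mem (M := (level b ξ : Set ZFSet.{u})) (mem_of_mem ha' hz) he')]
      refine hn _ _ ?_
      rintro (_ | i) hi
      · rfl
      · exact if_pos (by omega)
    exact ⟨fun h => ⟨h8 (mem_of_mem (M := (level b ξ : Set ZFSet.{u})) ha' h.1), h.1,
      (h9 h.1).2 h.2⟩, fun h => ⟨h.2.1, (h9 h.2.1).1 h.2.2⟩⟩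
  · intro φ e he a ha H
    have h0 := (@Df.and M _ _ (df_constr hpow hb (fun e => e 0)) (df_sat_constr hpow hb φ)).fix2
      (ε := e) fun i => constr_subset hpow hb (he i)
    obtain ⟨B, hB, HB⟩ := collection hpow
      (fun y x => y ∈ constr M b ∧ Sat (constr M b) φ (cons y (cons x e))) (h := h0)
      (constr_subset hpow hb ha)
    obtain ⟨α, h1, h2, h3⟩ := exists_level_of_mem hpow hb hB
    refine ⟨_, level_mem_constr h1 h2, fun x hx => ?_⟩
    obtain ⟨y, hy, -⟩ := H x hx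
    obtain ⟨y, h4, h5, h6⟩ := HB x hx ⟨y, constr_subset hpow hb hy.1, hy⟩
    exact ⟨y, h3 y h4 h5, h6⟩

omit hpow hb in
theorem base_mem_constr : b ∈ constr M b := by
  convert level_mem_constr (M := M) (b := b) Trans.empty isOrdinal_empty using 1
  ext x
  simp [mem_level]

end

/-- The class depends only on the ordinals. -/
theorem constr_congr {N N' : Set ZFSet.{u}} (h : ∀ α : ZFSet.{u}, α.IsOrdinal → (α ∈ N ↔ α ∈ N')) :
    constr N b = constr N' b := by
  ext x
  exact exists_congr fun α => ⟨fun h' => ⟨(h α h'.2.1).1 h'.1, h'.2⟩,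
    fun h' => ⟨(h α h'.2.1).2 h'.1, h'.2⟩⟩

end Pool.Agent.Lib.Forcing
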