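import Mathlib.Data.Set.Card
import Pool.Agent.Lib.Forcing.Ctm

/-!
More definability tools over transitive models of ZF: fixing parameters, separation and images
as definable operations, finite sets, finitary inductive definitions, collection in several
variables.
-/

universe u

set_option synthInstance.maxSize 16384

namespace Pool.Agent.Lib.Forcing

open ZFSet

variable {M : Set ZFSet.{u}}

/-- Substituting parameters for some of the variables. -/
theorem Df.params {R : Env.{u} → Prop} (h : Df M R) (f : ℕ → ℕ ⊕ ℕ) {ε : Env.{u}}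
    (hε : ∀ i, ε i ∈ M) : Df M (fun e => R (fun i => Sum.elim e ε (f i))) := by
  obtain ⟨φ, p, hp, h⟩ := h.out
  refine ⟨φ.rename (fun i => if i % 2 = 0 then
    Sum.elim (fun k => 2 * k) (fun k => 2 * (2 * k) + 1) (f (i / 2))
    else 2 * (2 * (i / 2) + 1) + 1), mix ε p, mix_mem hε hp, fun e he => ?_⟩
  rw [sat_rename, h _ (fun i => by cases f i; exacts [he _, hε _])]
  have : (fun i => mix e (mix ε p) (if i % 2 = 0 then
      Sum.elim (fun k => 2 * k) (fun k => 2 * (2 * k) + 1) (f (i / 2))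
      else 2 * (2 * (i / 2) + 1) + 1)) = mix (fun i => Sum.elim e ε (f i)) p := by
    funext i
    by_cases hi : i % 2 = 0
    · rw [if_pos hi]
      have : mix (fun i => Sum.elim e ε (f i)) p i = Sum.elim e ε (f (i / 2)) := by
        simp [mix, hi]
      rw [this]
      cases f (i / 2)
      · exact mix_even _ _ _
      · simp only [Sum.elim_inr]; rw [mix_odd, mix_even]
    · rw [if_neg hi, mix_odd, mix_odd]; simp [mix, hi]
  rw [this]

theorem Df.fix1 {R : Env.{u} → Prop} (h : Df M R) {ε : Env.{u}} (hε : ∀ i, ε i ∈ M) :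
    Df M (fun e => R (cons (e 0) ε)) :=
  (h.params (fun i => match i with | 0 => .inl 0 | i + 1 => .inr i) hε).congr fun e _ =>
    iff_of_eq (congrArg R (funext fun i => by cases i <;> rfl))

theorem Df.fix2 {R : Env.{u} → Prop} (h : Df M R) {ε : Env.{u}} (hε : ∀ i, ε i ∈ M) :
    Df M (fun e => R (cons (e 0) (cons (e 1) ε))) :=
  (h.params (fun i => match i with | 0 => .inl 0 | 1 => .inl 1 | i + 2 => .inr i) hε).congr
    fun e _ => iff_of_eq (congrArg R (funext fun i => by rcases i with _ | _ | i <;> rfl))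

theorem cons_tail (e : Env.{u}) : cons (e 0) (fun i => e (i + 1)) = e := by
  funext i; cases i <;> rfl

theorem Df.finite {R : Env.{u} → Prop} (h : Df M R) : ∃ n : ℕ, ∀ e e' : Env.{u},
    (∀ i, e i ∈ M) → (∀ i, e' i ∈ M) → (∀ i < n, e i = e' i) → (R e ↔ R e') := by
  obtain ⟨φ, p, -, h⟩ := h.out
  obtain ⟨n, hn⟩ := sat_finite M φ
  refine ⟨n, fun e e' he he' h' => ?_⟩
  rw [h e he, h e' he']
  refine hn _ _ fun i hi => ?_
  unfold mix
  split_ifs
  · exact h' _ (by omega)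
  · rfl

instance (priority := low) Df.const [Trans M] (p : Prop) : Df M (fun _ => p) := by
  by_cases h : p
  · exact (Df.eqVar (M := M) 0 0).congr fun _ _ => by simp [h]
  · exact (@Df.not _ _ (Df.eqVar (M := M) 0 0)).congr fun _ _ => by simp [h]

/-- The image of a set under a function. -/
noncomputable def img (F : ZFSet.{u} → ZFSet.{u}) (x : ZFSet.{u}) : ZFSet.{u} :=
  range fun y : x => F y

theorem mem_img {F : ZFSet.{u} → ZFSet.{u}} {x z : ZFSet.{u}} : z ∈ img F x ↔ ∃ y ∈ x, F y = z := by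
  rw [img, mem_range]
  exact ⟨fun ⟨y, h⟩ => ⟨y, y.2, h⟩, fun ⟨y, hy, h⟩ => ⟨⟨y, hy⟩, h⟩⟩

/-- Finitary inductive definitions inside `M` with a parameter `c`. -/
inductive Gen (M : Set ZFSet.{u}) (A : ZFSet.{u} → Prop)
    (S : ZFSet.{u} → ZFSet.{u} → ZFSet.{u} → Prop) : ZFSet.{u} → Prop
  | ax {z : ZFSet.{u}} : z ∈ M → A z → Gen M A S z
  | step {z a b : ZFSet.{u}} : z ∈ M → Gen M A S a → Gen M A S b → S z a b → Gen M A S z

theorem Gen.mem {A : ZFSet.{u} → Prop} {S : ZFSet.{u} → ZFSet.{u} → ZFSet.{u} → Prop}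
    {z : ZFSet.{u}} (h : Gen M A S z) : z ∈ M := by
  cases h <;> assumption

section
variable [hM : ZFm M]

instance Df.exFst' {s t : Env.{u} → ZFSet.{u}} [Tm M s] [Tm M t] :
    Df M (fun e => ∃ a, pair a (s e) ∈ t e) :=
  (inferInstance : Df M (fun e => ∃ a, pair a (s e) ∈ t e ∧ a = a)).congr fun _ _ => by simp

instance Df.exSnd' {s t : Env.{u} → ZFSet.{u}} [Tm M s] [Tm M t] :
    Df M (fun e => ∃ a, pair (s e) a ∈ t e) :=
  (inferInstance : Df M (fun e => ∃ a, pair (s e) a ∈ t e ∧ a = a)).congr fun _ _ => by simp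

instance Df.allEqPair {t : Env.{u} → ZFSet.{u}} [ht : Tm M t]
    {R : ZFSet.{u} → ZFSet.{u} → Env.{u} → Prop}
    [Df M (fun e => R (e 1) (e 0) (fun i => e (i + 1 + 1)))] :
    Df M (fun e => ∀ a b, t e = pair a b → R a b e) :=
  (inferInstance : Df M (fun e => ¬ ∃ a b, t e = pair a b ∧ ¬ R a b e)).congr
    fun _ _ => by push Not; rfl

instance Tm.sep {t : Env.{u} → ZFSet.{u}} [ht : Tm M t] {R : ZFSet.{u} → Env.{u} → Prop}
    [h : Df M (fun e => R (e 0) (fun i => e (i + 1)))] :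
    Tm M (fun e => (t e).sep (fun x => R x e)) := by
  refine ⟨fun e he => sep_mem (fun x => R x e) (h := h.fix1 he) (ht.mem e he), ?_⟩
  have h1 : Df M (fun e => R (e 0) (fun i => e (i + 1 + 1))) :=
    h.rename (fun i => match i with | 0 => 0 | i + 1 => i + 1 + 1)
  have := ht.shift
  have := ht.shift.shift
  refine (inferInstance : Df M (fun e => (∀ x ∈ e 0, x ∈ t (fun i => e (i + 1)) ∧
    R x (fun i => e (i + 1))) ∧ ∀ x ∈ t (fun i => e (i + 1)), R x (fun i => e (i + 1)) →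
      x ∈ e 0)).congr fun e _ => ?_
  constructor
  · rintro ⟨h2, h3⟩
    ext x
    rw [mem_sep]
    exact ⟨h2 x, fun hx => h3 x hx.1 hx.2⟩
  · intro h2
    rw [h2]
    exact ⟨fun x hx => mem_sep.1 hx, fun x h3 h4 => mem_sep.2 ⟨h3, h4⟩⟩

instance Tm.img {t : Env.{u} → ZFSet.{u}} [ht : Tm M t] {F : ZFSet.{u} → Env.{u} → ZFSet.{u}}
    [h : Tm M (fun e => F (e 0) (fun i => e (i + 1)))] :
    Tm M (fun e => img (fun x => F x e) (t e)) := by
  constructor
  · intro e he
    have h1 : Tm M (fun e' => F (e' 0) e) :=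
      ⟨fun e' he' => h.mem (cons (e' 0) e) (cons_mem (he' 0) he), h.df.fix2 he⟩
    obtain ⟨b, hb, H⟩ := exists_image_tm (fun x => F x e) (h := h1) (ht.mem e he)
    convert hb using 1
    ext y
    rw [mem_img, H]
  · have h1 : Tm M (fun e => F (e 0) (fun i => e (i + 1 + 1))) :=
      h.rename (fun i => match i with | 0 => 0 | i + 1 => i + 1 + 1)
    have h2 : Tm M (fun e => F (e 0) (fun i => e (i + 1 + 1 + 1))) :=
      h.rename (fun i => match i with | 0 => 0 | i + 1 => i + 1 + 1 + 1)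
    have := ht.shift
    have := ht.shift.shift
    refine (inferInstance : Df M (fun e => (∀ z ∈ e 0, ∃ x ∈ t (fun i => e (i + 1)),
      F x (fun i => e (i + 1)) = z) ∧ ∀ x ∈ t (fun i => e (i + 1)),
        F x (fun i => e (i + 1)) ∈ e 0)).congr fun e _ => ?_
    constructor
    · rintro ⟨h2, h3⟩
      ext z
      rw [mem_img]
      exact ⟨h2 z, fun ⟨x, hx, h4⟩ => h4 ▸ h3 x hx⟩
    · intro h2
      rw [h2]
      exact ⟨fun z hz => mem_img.1 hz, fun x hx => mem_img.2 ⟨x, hx, rfl⟩⟩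

open Classical in
instance Tm.ite {p : Env.{u} → Prop} [Df M p] {s t : Env.{u} → ZFSet.{u}} [hs : Tm M s]
    [ht : Tm M t] : Tm M (fun e => if p e then s e else t e) := by
  constructor
  · intro e he
    split_ifs
    exacts [hs.mem e he, ht.mem e he]
  · have := hs.shift
    have := ht.shift
    have : Df M (fun e => p (fun i => e (i + 1))) := Df.rename inferInstance (· + 1)
    refine (inferInstance : Df M (fun e => (p (fun i => e (i + 1)) ∧ e 0 = s (fun i => e (i + 1))) ∨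
      (¬ p (fun i => e (i + 1)) ∧ e 0 = t (fun i => e (i + 1))))).congr fun e _ => ?_
    split_ifs with h <;> simp [h]

instance Tm.union {s t : Env.{u} → ZFSet.{u}} [Tm M s] [Tm M t] :
    Tm M (fun e => s e ∪ t e) :=
  (inferInstance : Tm M (fun e => (⋃₀ {s e, t e} : ZFSet.{u})))

instance Tm.inter {s t : Env.{u} → ZFSet.{u}} [Tm M s] [ht : Tm M t] :
    Tm M (fun e => s e ∩ t e) :=
  have := ht.shift
  (inferInstance : Tm M (fun e => (s e).sep (fun x => x ∈ t e)))

instance Tm.sdiff {s t : Env.{u} → ZFSet.{u}} [Tm M s] [ht : Tm M t] :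
    Tm M (fun e => s e \ t e) :=
  have := ht.shift
  (inferInstance : Tm M (fun e => (s e).sep (fun x => ¬ x ∈ t e)))

instance Tm.prod {s t : Env.{u} → ZFSet.{u}} [Tm M s] [Tm M t] :
    Tm M (fun e => (s e).prod (t e)) :=
  Tm.comp2 (F := ZFSet.prod) (fun _ hx _ hy => prod_mem hx hy)
    ((inferInstance : Df M (fun e => (∀ z ∈ e 0, ∃ a ∈ e 1, ∃ b ∈ e 2, z = ZFSet.pair a b) ∧
      ∀ a ∈ e 1, ∀ b ∈ e 2, ZFSet.pair a b ∈ e 0)).congr fun e _ => by
      constructor
      · rintro ⟨h1, h2⟩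
        ext z
        rw [mem_prod]
        exact ⟨h1 z, fun ⟨a, ha, b, hb, h⟩ => h ▸ h2 a ha b hb⟩
      · intro h
        rw [h]
        exact ⟨fun z hz => mem_prod.1 hz, fun a ha b hb => pair_mem_prod.2 ⟨ha, hb⟩⟩) s t

instance Df.isFunc {s t w : Env.{u} → ZFSet.{u}} [Tm M s] [Tm M t] [Tm M w] :
    Df M (fun e => IsFunc (s e) (t e) (w e)) :=
  Df.subst3 (R := IsFunc) ((inferInstance : Df M (fun e => e 2 ⊆ (e 0).prod (e 1) ∧
    ∀ z ∈ e 0, ∃ y, pair z y ∈ e 2 ∧ ∀ y', pair z y' ∈ e 2 → y' = y)).congr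
      fun _ _ => Iff.rfl) s t w

theorem inter_mem {x y : ZFSet.{u}} (hx : x ∈ M) (hy : y ∈ M) : x ∩ y ∈ M :=
  have := InM.mk hy
  sep_mem (fun z => z ∈ y) hx

theorem sdiff_mem {x y : ZFSet.{u}} (hx : x ∈ M) (hy : y ∈ M) : x \ y ∈ M :=
  have := InM.mk hy
  sep_mem (fun z => ¬ z ∈ y) hx

/-- A finite set of elements of `M` is an element of `M`. -/
theorem mem_of_finite {x : ZFSet.{u}} (hx : (x : Set ZFSet.{u}).Finite) (h : ∀ y ∈ x, y ∈ M) :
    x ∈ M := by
  have key : ∀ s : Set ZFSet.{u}, s.Finite → (∀ y ∈ s, y ∈ M) → ∃ z ∈ M, (z : Set ZFSet.{u}) = s := by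
    intro s hs
    induction s, hs using Set.Finite.induction_on with
    | empty => exact fun _ => ⟨∅, Trans.empty, coe_empty⟩
    | @insert a s _ _ ih =>
      intro h
      obtain ⟨z, hz, rfl⟩ := ih fun y hy => h y (Set.mem_insert_of_mem _ hy)
      exact ⟨insert a z, insert_mem (h a (Set.mem_insert _ _)) hz, coe_insert _ _⟩
  obtain ⟨z, hz, h'⟩ := key x hx h
  rwa [← SetLike.coe_injective h']

theorem df_gen (A : ZFSet.{u} → ZFSet.{u} → Prop)
    (S : ZFSet.{u} → ZFSet.{u} → ZFSet.{u} → ZFSet.{u} → Prop)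
    [hA : Df M (fun e => A (e 0) (e 1))] [hS : Df M (fun e => S (e 0) (e 1) (e 2) (e 3))] :
    Df M (fun e => Gen M (A (e 1)) (S (e 1)) (e 0)) := by
  have hA' : ∀ (s t : Env.{u} → ZFSet.{u}) [Tm M s] [Tm M t], Df M (fun e => A (s e) (t e)) :=
    fun s t _ _ => Df.subst2 hA s t
  have hS' : ∀ (s t w v : Env.{u} → ZFSet.{u}) [Tm M s] [Tm M t] [Tm M w] [Tm M v],
      Df M (fun e => S (s e) (t e) (w e) (v e)) := fun s t w v _ _ _ _ => Df.subst4 hS s t w v
  refine (inferInstance : Df M (fun e => ∃ C ∈ M, (∀ k w, pair k w ∈ C → A (e 1) w ∨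
    ∃ k1 ∈ k, ∃ a, pair k1 a ∈ C ∧ ∃ k2 ∈ k, ∃ b, pair k2 b ∈ C ∧ S (e 1) w a b) ∧
      ∃ k, pair k (e 0) ∈ C)).congr fun e _ => ?_
  generalize e 0 = z
  generalize e 1 = c
  constructor
  · rintro ⟨C, hC, H, k, hk⟩
    induction k using ZFSet.inductionOn generalizing z with
    | h k ih =>
      rcases H k z hk with h | ⟨k1, h1, a, ha, k2, h2, b, hb, h⟩
      · exact .ax (snd_mem hC hk) h
      · exact .step (snd_mem hC hk) (ih k1 h1 a ha) (ih k2 h2 b hb) h
  · intro h
    induction h with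
    | @ax z hz h =>
      refine ⟨{pair ∅ z}, singleton_mem (pair_mem Trans.empty hz), fun k w hw => Or.inl ?_,
        ∅, mem_singleton.2 rfl⟩
      rwa [(pair_inj.1 (mem_singleton.1 hw)).2]
    | @step z a b hz _ _ h ih1 ih2 =>
      obtain ⟨C1, hC1, H1, k1, hk1⟩ := ih1
      obtain ⟨C2, hC2, H2, k2, hk2⟩ := ih2
      refine ⟨insert (pair {k1, k2} z) (C1 ∪ C2), insert_mem
        (pair_mem (upair_mem (fst_mem hC1 hk1) (fst_mem hC2 hk2)) hz) (union_mem hC1 hC2),
        fun k w hw => ?_, _, mem_insert _ _⟩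
      have l1 : ∀ x, x ∈ C1 → x ∈ (insert (pair {k1, k2} z) (C1 ∪ C2) : ZFSet.{u}) :=
        fun x hx => mem_insert_of_mem _ (mem_union.2 (Or.inl hx))
      have l2 : ∀ x, x ∈ C2 → x ∈ (insert (pair {k1, k2} z) (C1 ∪ C2) : ZFSet.{u}) :=
        fun x hx => mem_insert_of_mem _ (mem_union.2 (Or.inr hx))
      rcases mem_insert_iff.1 hw with hw | hw
      · obtain ⟨rfl, rfl⟩ := pair_inj.1 hw
        exact Or.inr ⟨k1, mem_pair.2 (Or.inl rfl), a, l1 _ hk1, k2, mem_pair.2 (Or.inr rfl), b,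
          l2 _ hk2, h⟩
      · rcases mem_union.1 hw with hw | hw
        · exact (H1 k w hw).imp_right fun ⟨j1, h1, a, ha, j2, h2, b, hb, h⟩ =>
            ⟨j1, h1, a, l1 _ ha, j2, h2, b, l1 _ hb, h⟩
        · exact (H2 k w hw).imp_right fun ⟨j1, h1, a, ha, j2, h2, b, hb, h⟩ =>
            ⟨j1, h1, a, l2 _ ha, j2, h2, b, l2 _ hb, h⟩

/-- Collection for a relation in several variables that range over a set `X`. -/
theorem collection_env (hpow : ∀ x ∈ M, ∃ y ∈ M, ∀ z ∈ M, z ⊆ x → z ∈ y)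
    {R : Env.{u} → Prop} (h : Df M R) {X : ZFSet.{u}} (hX : X ∈ M) :
    ∃ B ∈ M, ∀ e : Env.{u}, (∀ i, e i ∈ X) → (∃ y ∈ M, R (cons y e)) → ∃ y ∈ B, R (cons y e) := by
  obtain ⟨n, hn⟩ := h.finite
  replace hn : ∀ e e' : Env.{u}, (∀ i, e i ∈ M) → (∀ i, e' i ∈ M) → (∀ i < n + 1, e i = e' i) →
      (R e ↔ R e') := fun e e' he he' h' => hn e e' he he' fun i hi => h' i (by omega)
  induction n generalizing R with
  | zero =>
    by_cases h0 : ∃ y ∈ M, R (cons y fun _ => ∅)
    · obtain ⟨y, hy, h1⟩ := h0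
      refine ⟨{y}, singleton_mem hy, fun e he _ => ⟨y, mem_singleton.2 rfl, ?_⟩⟩
      refine (hn _ _ (cons_mem hy fun _ => Trans.empty)
        (cons_mem hy fun i => mem_of_mem hX (he i)) ?_).1 h1
      rintro (_ | i) hi
      exacts [rfl, by omega]
    · refine ⟨∅, Trans.empty, fun e he ⟨y, hy, h1⟩ => (h0 ⟨y, hy, ?_⟩).elim⟩
      refine (hn _ _ (cons_mem hy fun _ => Trans.empty)
        (cons_mem hy fun i => mem_of_mem hX (he i)) ?_).2 h1
      rintro (_ | i) hi
      exacts [rfl, by omega]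
  | succ n ih =>
    have := InM.mk hX
    have h1 : Df M (fun e => R (cons (e 0) (cons (e 1) fun i => e (i + 1 + 1 + 1)))) :=
      (h.rename (fun i => match i with | 0 => 0 | 1 => 1 | i + 2 => i + 1 + 1 + 1)).congr
        fun e _ => iff_of_eq (congrArg R (funext fun i => by rcases i with _ | _ | i <;> rfl))
    obtain ⟨B, hB, HB⟩ := @ih (fun e => ∀ x ∈ X,
      (∃ y ∈ M, R (cons y (cons x fun i => e (i + 1)))) →
        ∃ y ∈ e 0, R (cons y (cons x fun i => e (i + 1)))) inferInstance (by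
      intro e e' he he' h'
      rw [h' 0 (by omega)]
      have h2 : ∀ x ∈ X, ∀ y ∈ M, (R (cons y (cons x fun i => e (i + 1))) ↔
          R (cons y (cons x fun i => e' (i + 1)))) := by
        intro x hx y hy
        refine hn _ _ (cons_mem hy (cons_mem (mem_of_mem hX hx) fun _ => he _))
          (cons_mem hy (cons_mem (mem_of_mem hX hx) fun _ => he' _)) ?_
        rintro (_ | _ | i) hi
        exacts [rfl, rfl, h' _ (by omega)]
      refine forall_congr' fun x => forall_congr' fun hx => imp_congr ?_ ?_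
      · exact exists_congr fun y => and_congr_right fun hy => h2 x hx y hy
      · exact exists_congr fun y => and_congr_right fun hy => h2 x hx y (mem_of_mem (he' 0) hy))
    refine ⟨⋃₀ B, sUnion_mem hB, fun e he hex => ?_⟩
    have he' : ∀ i, e (i + 1) ∈ M := fun i => mem_of_mem hX (he _)
    obtain ⟨b, hb, H⟩ := HB (fun i => e (i + 1)) (fun _ => he _) (by
      obtain ⟨b, hb, H⟩ := collection hpow
        (fun y x => R (cons y (cons x fun i => e (i + 1)))) (h := h.fix2 he') hX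
      exact ⟨b, hb, H⟩)
    obtain ⟨y, hy, h2⟩ := H (e 0) (he 0) (by simpa only [cons_succ, cons_tail] using hex)
    exact ⟨y, mem_sUnion.2 ⟨b, hb, hy⟩, by simpa only [cons_succ, cons_tail] using h2⟩

end

end Pool.Agent.Lib.Forcing
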