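import Pool.Agent.Lib.Constructible.Choice
import Pool.Agent.Lib.Forcing.Uniform

/-!
Parameter-free definability over all transitive models of ZF: one formula defines the predicate
in every model. Used to move notions given by recursion through elementary embeddings.
-/

universe u

set_option synthInstance.maxSize 16384

namespace Pool.Agent.Lib.Forcing

open ZFSet

/-- One formula without parameters defines `R M` over every transitive model `M` of ZF. -/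
class ZDf (R : Set ZFSet.{u} → Env.{u} → Prop) : Prop where
  out : ∃ φ : Fml, ∀ M : Set ZFSet.{u}, IsZFModel M → ∀ e : Env.{u}, (∀ i, e i ∈ M) →
    (R M e ↔ Sat M φ e)

/-- Operations that every model of ZF is closed under, with a uniformly definable graph. -/
class ZTm (t : Set ZFSet.{u} → Env.{u} → ZFSet.{u}) : Prop where
  mem : ∀ M : Set ZFSet.{u}, IsZFModel M → ∀ e : Env.{u}, (∀ i, e i ∈ M) → t M e ∈ M
  df : ZDf (fun M e => e 0 = t M (fun i => e (i + 1)))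

theorem IsZFModel.toTrans {M : Set ZFSet.{u}} (h : IsZFModel M) : Trans M := h.zfm.toTrans

theorem ZDf.congr {R S : Set ZFSet.{u} → Env.{u} → Prop} (h : ZDf R)
    (hRS : ∀ M, IsZFModel M → ∀ e : Env.{u}, (∀ i, e i ∈ M) → (R M e ↔ S M e)) : ZDf S := by
  obtain ⟨φ, h⟩ := h.out
  exact ⟨φ, fun M hM e he => (hRS M hM e he).symm.trans (h M hM e he)⟩

theorem ZDf.rename {R : Set ZFSet.{u} → Env.{u} → Prop} (h : ZDf R) (f : ℕ → ℕ) :
    ZDf (fun M e => R M (fun i => e (f i))) := by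
  obtain ⟨φ, h⟩ := h.out
  exact ⟨φ.rename f, fun M hM e he => by rw [sat_rename]; exact h M hM _ fun _ => he _⟩

theorem ZDf.sat (φ : Fml) : ZDf.{u} (fun M e => Sat M φ e) := ⟨φ, fun _ _ _ _ => Iff.rfl⟩

theorem UDf.zdf {R : Set ZFSet.{u} → Env.{u} → Prop} (h : UDf R) : ZDf R := by
  obtain ⟨φ, h⟩ := h.out
  exact ⟨φ, fun M hM e he => h M hM.toTrans e he⟩

theorem ZDf.toDf {R : Set ZFSet.{u} → Env.{u} → Prop} (h : ZDf R) {M : Set ZFSet.{u}}
    (hM : IsZFModel M) : Df M (R M) := by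
  obtain ⟨φ, h⟩ := h.out
  have := hM.toTrans
  exact (Df.sat φ).congr fun e he => (h M hM e he).symm

theorem ZTm.toTm {t : Set ZFSet.{u} → Env.{u} → ZFSet.{u}} (h : ZTm t) {M : Set ZFSet.{u}}
    (hM : IsZFModel M) : Tm M (t M) := ⟨h.mem M hM, h.df.toDf hM⟩

/-- Transfer along a map that is elementary on the values of the assignment. -/
theorem ZDf.transfer {R : Set ZFSet.{u} → Env.{u} → Prop} (h : ZDf R) {M N : Set ZFSet.{u}}
    (hM : IsZFModel M) (hN : IsZFModel N) {e e' : Env.{u}} (he : ∀ i, e i ∈ M)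
    (he' : ∀ i, e' i ∈ N) (H : ∀ φ : Fml, Sat M φ e ↔ Sat N φ e') : R M e ↔ R N e' := by
  obtain ⟨φ, h⟩ := h.out
  rw [h M hM e he, h N hN e' he', H]

instance ZDf.not {R : Set ZFSet.{u} → Env.{u} → Prop} [h : ZDf R] : ZDf (fun M e => ¬ R M e) := by
  obtain ⟨φ, h⟩ := h.out
  exact ⟨.neg φ, fun M hM e he => not_congr (h M hM e he)⟩

instance ZDf.and {R S : Set ZFSet.{u} → Env.{u} → Prop} [h : ZDf R] [k : ZDf S] :
    ZDf (fun M e => R M e ∧ S M e) := by
  obtain ⟨φ, h⟩ := h.out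
  obtain ⟨ψ, k⟩ := k.out
  exact ⟨.and φ ψ, fun M hM e he => and_congr (h M hM e he) (k M hM e he)⟩

theorem ZDf.all' {R : Set ZFSet.{u} → Env.{u} → Prop} (h : ZDf R) :
    ZDf (fun M e => ∀ x ∈ M, R M (cons x e)) := by
  obtain ⟨φ, h⟩ := h.out
  exact ⟨.all φ, fun M hM e he => forall_congr' fun x => forall_congr' fun hx =>
    h M hM _ (cons_mem hx he)⟩

instance ZDf.allM {R : Set ZFSet.{u} → ZFSet.{u} → Env.{u} → Prop}
    [h : ZDf (fun M e => R M (e 0) (fun i => e (i + 1)))] : ZDf (fun M e => ∀ x ∈ M, R M x e) :=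
  h.all'

instance ZDf.imp {R S : Set ZFSet.{u} → Env.{u} → Prop} [ZDf R] [ZDf S] :
    ZDf (fun M e => R M e → S M e) :=
  (inferInstance : ZDf (fun M e => ¬ (R M e ∧ ¬ S M e))).congr fun _ _ _ _ => by tauto

instance ZDf.or {R S : Set ZFSet.{u} → Env.{u} → Prop} [ZDf R] [ZDf S] :
    ZDf (fun M e => R M e ∨ S M e) :=
  (inferInstance : ZDf (fun M e => ¬ R M e → S M e)).congr fun _ _ _ _ => by tauto

instance ZDf.iff {R S : Set ZFSet.{u} → Env.{u} → Prop} [ZDf R] [ZDf S] :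
    ZDf (fun M e => R M e ↔ S M e) :=
  (inferInstance : ZDf (fun M e => (R M e → S M e) ∧ (S M e → R M e))).congr
    fun _ _ _ _ => by tauto

instance ZDf.exM {R : Set ZFSet.{u} → ZFSet.{u} → Env.{u} → Prop}
    [ZDf (fun M e => R M (e 0) (fun i => e (i + 1)))] : ZDf (fun M e => ∃ x ∈ M, R M x e) :=
  (inferInstance : ZDf (fun M e => ¬ ∀ x ∈ M, ¬ R M x e)).congr fun _ _ _ _ => by push Not; rfl

instance (priority := low) ZDf.const (p : Prop) : ZDf.{u} (fun _ _ => p) := by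
  by_cases h : p
  · exact (ZDf.sat (.eq 0 0)).congr fun _ _ _ _ => by simp [h, Sat]
  · exact (ZDf.sat (.neg (.eq 0 0))).congr fun _ _ _ _ => by simp [h, Sat]

instance ZTm.var (i : ℕ) : ZTm.{u} (fun _ e => e i) :=
  ⟨fun _ _ _ he => he i, ZDf.sat (.eq 0 (i + 1))⟩

theorem ZTm.rename {t : Set ZFSet.{u} → Env.{u} → ZFSet.{u}} (h : ZTm t) (f : ℕ → ℕ) :
    ZTm (fun M e => t M (fun i => e (f i))) :=
  ⟨fun M hM _ he => h.mem M hM _ fun _ => he _, h.df.rename (up f)⟩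

theorem ZTm.shift {t : Set ZFSet.{u} → Env.{u} → ZFSet.{u}} (h : ZTm t) :
    ZTm (fun M e => t M (fun i => e (i + 1))) := h.rename (· + 1)

theorem ZDf.consTm {R : Set ZFSet.{u} → Env.{u} → Prop} (h : ZDf R)
    {s : Set ZFSet.{u} → Env.{u} → ZFSet.{u}} (hs : ZTm s) :
    ZDf (fun M e => R M (cons (s M e) e)) := by
  have h1 : ZDf (fun M e => (e 0 = s M (fun i => e (i + 1))) → R M e) := @ZDf.imp _ _ hs.df h
  refine h1.all'.congr fun M hM e he => ?_
  constructor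
  · intro H; exact H _ (hs.mem M hM e he) rfl
  · rintro H x - (rfl : x = s M e); exact H

theorem ZDf.subst1 {R : Set ZFSet.{u} → ZFSet.{u} → Prop} (h : ZDf (fun M e => R M (e 0)))
    (s : Set ZFSet.{u} → Env.{u} → ZFSet.{u}) [hs : ZTm s] : ZDf (fun M e => R M (s M e)) :=
  h.consTm hs

theorem ZDf.subst2 {R : Set ZFSet.{u} → ZFSet.{u} → ZFSet.{u} → Prop}
    (h : ZDf (fun M e => R M (e 0) (e 1)))
    (s t : Set ZFSet.{u} → Env.{u} → ZFSet.{u}) [hs : ZTm s] [ht : ZTm t] :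
    ZDf (fun M e => R M (s M e) (t M e)) :=
  (h.consTm hs.shift).consTm ht

theorem ZDf.subst3 {R : Set ZFSet.{u} → ZFSet.{u} → ZFSet.{u} → ZFSet.{u} → Prop}
    (h : ZDf (fun M e => R M (e 0) (e 1) (e 2)))
    (s t w : Set ZFSet.{u} → Env.{u} → ZFSet.{u}) [hs : ZTm s] [ht : ZTm t] [hw : ZTm w] :
    ZDf (fun M e => R M (s M e) (t M e) (w M e)) :=
  ((h.consTm hs.shift.shift).consTm ht.shift).consTm hw

theorem ZDf.subst4 {R : Set ZFSet.{u} → ZFSet.{u} → ZFSet.{u} → ZFSet.{u} → ZFSet.{u} → Prop}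
    (h : ZDf (fun M e => R M (e 0) (e 1) (e 2) (e 3)))
    (s t w v : Set ZFSet.{u} → Env.{u} → ZFSet.{u}) [hs : ZTm s] [ht : ZTm t] [hw : ZTm w]
    [hv : ZTm v] : ZDf (fun M e => R M (s M e) (t M e) (w M e) (v M e)) :=
  (((h.consTm hs.shift.shift.shift).consTm ht.shift.shift).consTm hw.shift).consTm hv

theorem ZDf.subst5
    {R : Set ZFSet.{u} → ZFSet.{u} → ZFSet.{u} → ZFSet.{u} → ZFSet.{u} → ZFSet.{u} → Prop}
    (h : ZDf (fun M e => R M (e 0) (e 1) (e 2) (e 3) (e 4)))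
    (s t w v y : Set ZFSet.{u} → Env.{u} → ZFSet.{u}) [hs : ZTm s] [ht : ZTm t] [hw : ZTm w]
    [hv : ZTm v] [hy : ZTm y] : ZDf (fun M e => R M (s M e) (t M e) (w M e) (v M e) (y M e)) :=
  ((((h.consTm hs.shift.shift.shift.shift).consTm ht.shift.shift.shift).consTm
    hw.shift.shift).consTm hv.shift).consTm hy

theorem ZTm.comp1 {F : Set ZFSet.{u} → ZFSet.{u} → ZFSet.{u}} (h : ZTm (fun M e => F M (e 0)))
    (s : Set ZFSet.{u} → Env.{u} → ZFSet.{u}) [hs : ZTm s] : ZTm (fun M e => F M (s M e)) :=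
  ⟨fun M hM e he => h.mem M hM (fun _ => s M e) fun _ => hs.mem M hM e he,
    @ZDf.subst2 (fun M a b => a = F M b) h.df (fun _ e => e 0) _ (ZTm.var 0) hs.shift⟩

theorem ZTm.comp2 {F : Set ZFSet.{u} → ZFSet.{u} → ZFSet.{u} → ZFSet.{u}}
    (h : ZTm (fun M e => F M (e 0) (e 1)))
    (s t : Set ZFSet.{u} → Env.{u} → ZFSet.{u}) [hs : ZTm s] [ht : ZTm t] :
    ZTm (fun M e => F M (s M e) (t M e)) :=
  ⟨fun M hM e he => h.mem M hM (cons (s M e) fun _ => t M e)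
      (cons_mem (hs.mem M hM e he) fun _ => ht.mem M hM e he),
    @ZDf.subst3 (fun M a b c => a = F M b c) h.df (fun _ e => e 0) _ _ (ZTm.var 0) hs.shift
      ht.shift⟩

theorem ZTm.comp3 {F : Set ZFSet.{u} → ZFSet.{u} → ZFSet.{u} → ZFSet.{u} → ZFSet.{u}}
    (h : ZTm (fun M e => F M (e 0) (e 1) (e 2)))
    (s t w : Set ZFSet.{u} → Env.{u} → ZFSet.{u}) [hs : ZTm s] [ht : ZTm t] [hw : ZTm w] :
    ZTm (fun M e => F M (s M e) (t M e) (w M e)) :=
  ⟨fun M hM e he => h.mem M hM (cons (s M e) (cons (t M e) fun _ => w M e))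
      (cons_mem (hs.mem M hM e he) (cons_mem (ht.mem M hM e he) fun _ => hw.mem M hM e he)),
    @ZDf.subst4 (fun M a b c d => a = F M b c d) h.df (fun _ e => e 0) _ _ _ (ZTm.var 0) hs.shift
      ht.shift hw.shift⟩

theorem ZTm.comp4 {F : Set ZFSet.{u} → ZFSet.{u} → ZFSet.{u} → ZFSet.{u} → ZFSet.{u} → ZFSet.{u}}
    (h : ZTm (fun M e => F M (e 0) (e 1) (e 2) (e 3)))
    (s t w v : Set ZFSet.{u} → Env.{u} → ZFSet.{u}) [hs : ZTm s] [ht : ZTm t] [hw : ZTm w]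
    [hv : ZTm v] : ZTm (fun M e => F M (s M e) (t M e) (w M e) (v M e)) :=
  ⟨fun M hM e he => h.mem M hM (cons (s M e) (cons (t M e) (cons (w M e) fun _ => v M e)))
      (cons_mem (hs.mem M hM e he) (cons_mem (ht.mem M hM e he)
        (cons_mem (hw.mem M hM e he) fun _ => hv.mem M hM e he))),
    @ZDf.subst5 (fun M a b c d y => a = F M b c d y) h.df (fun _ e => e 0) _ _ _ _ (ZTm.var 0)
      hs.shift ht.shift hw.shift hv.shift⟩

/-- An operation commutes with every map that is elementary on the values involved. -/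
theorem ZTm.transfer {t : Set ZFSet.{u} → Env.{u} → ZFSet.{u}} (h : ZTm t) {M N : Set ZFSet.{u}}
    (hM : IsZFModel M) (hN : IsZFModel N) {j : ZFSet.{u} → ZFSet.{u}} {e : Env.{u}}
    (he : ∀ i, e i ∈ M) (hj : ∀ i, j (e i) ∈ N) (hj' : j (t M e) ∈ N)
    (H : ∀ φ : Fml, Sat M φ (cons (t M e) e) ↔ Sat N φ (cons (j (t M e)) fun i => j (e i))) :
    j (t M e) = t N (fun i => j (e i)) :=
  (h.df.transfer hM hN (cons_mem (h.mem M hM e he) he) (cons_mem hj' hj) H).1 rfl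

section
variable {s t w v : Set ZFSet.{u} → Env.{u} → ZFSet.{u}}

instance ZDf.mem [ZTm s] [ZTm t] : ZDf (fun M e => s M e ∈ t M e) :=
  ZDf.subst2 (R := fun _ a b => a ∈ b) (ZDf.sat (.mem 0 1)) s t

instance ZDf.eq [ZTm s] [ZTm t] : ZDf (fun M e => s M e = t M e) :=
  ZDf.subst2 (R := fun _ a b => a = b) (ZDf.sat (.eq 0 1)) s t

instance ZDf.allIn [ht : ZTm t] {R : Set ZFSet.{u} → ZFSet.{u} → Env.{u} → Prop}
    [ZDf (fun M e => R M (e 0) (fun i => e (i + 1)))] : ZDf (fun M e => ∀ x ∈ t M e, R M x e) :=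
  have := ht.shift
  (inferInstance : ZDf (fun M e => ∀ x ∈ M, x ∈ t M e → R M x e)).congr fun M hM e he =>
    ⟨fun H x hx => H x (hM.transitive _ (ht.mem M hM e he) _ hx) hx, fun H x _ hx => H x hx⟩

instance ZDf.exIn [ht : ZTm t] {R : Set ZFSet.{u} → ZFSet.{u} → Env.{u} → Prop}
    [ZDf (fun M e => R M (e 0) (fun i => e (i + 1)))] : ZDf (fun M e => ∃ x ∈ t M e, R M x e) :=
  (inferInstance : ZDf (fun M e => ¬ ∀ x ∈ t M e, ¬ R M x e)).congr
    fun _ _ _ _ => by push Not; rfl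

instance ZDf.subset [ZTm s] [ZTm t] : ZDf (fun M e => s M e ⊆ t M e) :=
  ZDf.subst2 (R := fun _ a b => a ⊆ b) (UDf.subset 0 1).zdf s t

instance ZDf.ne [ZTm s] [ZTm t] : ZDf (fun M e => s M e ≠ t M e) :=
  (inferInstance : ZDf (fun M e => ¬ s M e = t M e))

instance ZDf.isTransitive [ZTm s] : ZDf (fun M e => (s M e).IsTransitive) :=
  ZDf.subst1 (R := fun _ a => a.IsTransitive) (UDf.isTransitive 0).zdf s

instance ZDf.isOrdinal [ZTm s] : ZDf (fun M e => (s M e).IsOrdinal) :=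
  ZDf.subst1 (R := fun _ a => a.IsOrdinal) (UDf.isOrdinal 0).zdf s

instance ZTm.empty : ZTm.{u} (fun _ _ => ∅) :=
  ⟨fun _ hM _ _ => hM.toTrans.empty, UTm.empty.df.zdf⟩

instance ZTm.omega : ZTm.{u} (fun _ _ => omega) :=
  ⟨fun _ hM _ _ => hM.infinity, (UDf.isOmega 0).zdf.congr fun _ _ _ _ => isOmega_iff⟩

instance ZTm.upair [ZTm s] [ZTm t] : ZTm (fun M e => ({s M e, t M e} : ZFSet.{u})) :=
  ZTm.comp2 (F := fun _ a b => ({a, b} : ZFSet.{u}))
    ⟨fun _ hM _ he => hM.pairing _ (he 0) _ (he 1),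
      (inferInstance : UTm (fun e => ({e 0, e 1} : ZFSet.{u}))).df.zdf⟩ s t

instance ZTm.singleton [ZTm s] : ZTm (fun M e => ({s M e} : ZFSet.{u})) :=
  ZTm.comp1 (F := fun _ a => ({a} : ZFSet.{u}))
    ⟨fun _ hM _ he => @singleton_mem _ hM.zfm _ (he 0),
      (inferInstance : UTm (fun e => ({e 0} : ZFSet.{u}))).df.zdf⟩ s

instance ZTm.insert [ZTm s] [ZTm t] : ZTm (fun M e => (insert (s M e) (t M e) : ZFSet.{u})) :=
  ZTm.comp2 (F := fun _ a b => (Insert.insert a b : ZFSet.{u}))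
    ⟨fun _ hM _ he => @insert_mem _ hM.zfm _ _ (he 0) (he 1),
      (inferInstance : UTm (fun e => (Insert.insert (e 0) (e 1) : ZFSet.{u}))).df.zdf⟩ s t

instance ZTm.pair [ZTm s] [ZTm t] : ZTm (fun M e => pair (s M e) (t M e)) :=
  (inferInstance : ZTm (fun M e => ({{s M e}, {s M e, t M e}} : ZFSet.{u})))

instance ZTm.nat (n : ℕ) : ZTm.{u} (fun _ _ => nat n) := by
  induction n with
  | zero => exact ZTm.empty
  | succ n ih => exact (inferInstance : ZTm (fun _ _ => Insert.insert (Forcing.nat n) (Forcing.nat n)))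

instance ZTm.sUnion [ZTm s] : ZTm (fun M e => (⋃₀ (s M e) : ZFSet.{u})) :=
  ZTm.comp1 (F := fun _ a => (⋃₀ a : ZFSet.{u})) ⟨fun _ hM _ he => hM.union _ (he 0),
    (inferInstance : ZDf (fun _ e => (∀ z ∈ e 0, ∃ w ∈ e 1, z ∈ w) ∧
        ∀ w ∈ e 1, w ⊆ e 0)).congr fun _ _ e _ => by
      constructor
      · rintro ⟨h1, h2⟩
        ext z
        rw [mem_sUnion]
        exact ⟨h1 z, fun ⟨w, hw, hz⟩ => h2 w hw hz⟩
      · intro h; rw [h]
        exact ⟨fun z hz => mem_sUnion.1 hz, fun w hw z hz => mem_sUnion.2 ⟨w, hw, hz⟩⟩⟩ s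

instance ZDf.allPair [ht : ZTm t] {R : Set ZFSet.{u} → ZFSet.{u} → ZFSet.{u} → Env.{u} → Prop}
    [ZDf (fun M e => R M (e 1) (e 0) (fun i => e (i + 1 + 1)))] :
    ZDf (fun M e => ∀ a b, pair a b ∈ t M e → R M a b e) :=
  have := ht.shift.shift
  (inferInstance : ZDf (fun M e => ∀ a ∈ M, ∀ b ∈ M, pair a b ∈ t M e → R M a b e)).congr
    fun M hM e he =>
      have := hM.toTrans
      ⟨fun H a b h => H a (fst_mem (ht.mem M hM e he) h) b (snd_mem (ht.mem M hM e he) h) h,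
        fun H a _ b _ h => H a b h⟩

instance ZDf.exPair [ht : ZTm t] {R : Set ZFSet.{u} → ZFSet.{u} → ZFSet.{u} → Env.{u} → Prop}
    [ZDf (fun M e => R M (e 1) (e 0) (fun i => e (i + 1 + 1)))] :
    ZDf (fun M e => ∃ a b, pair a b ∈ t M e ∧ R M a b e) :=
  (inferInstance : ZDf (fun M e => ¬ ∀ a b, pair a b ∈ t M e → ¬ R M a b e)).congr
    fun _ _ _ _ => by push Not; rfl

instance ZDf.allSnd [hs : ZTm s] [ht : ZTm t] {R : Set ZFSet.{u} → ZFSet.{u} → Env.{u} → Prop}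
    [ZDf (fun M e => R M (e 0) (fun i => e (i + 1)))] :
    ZDf (fun M e => ∀ b, pair (s M e) b ∈ t M e → R M b e) :=
  have := ht.shift
  have := hs.shift
  (inferInstance : ZDf (fun M e => ∀ b ∈ M, pair (s M e) b ∈ t M e → R M b e)).congr
    fun M hM e he =>
      have := hM.toTrans
      ⟨fun H b h => H b (snd_mem (ht.mem M hM e he) h) h, fun H b _ h => H b h⟩

instance ZDf.exSnd [hs : ZTm s] [ht : ZTm t] {R : Set ZFSet.{u} → ZFSet.{u} → Env.{u} → Prop}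
    [ZDf (fun M e => R M (e 0) (fun i => e (i + 1)))] :
    ZDf (fun M e => ∃ b, pair (s M e) b ∈ t M e ∧ R M b e) :=
  (inferInstance : ZDf (fun M e => ¬ ∀ b, pair (s M e) b ∈ t M e → ¬ R M b e)).congr
    fun _ _ _ _ => by push Not; rfl

instance ZDf.allFst [hs : ZTm s] [ht : ZTm t] {R : Set ZFSet.{u} → ZFSet.{u} → Env.{u} → Prop}
    [ZDf (fun M e => R M (e 0) (fun i => e (i + 1)))] :
    ZDf (fun M e => ∀ a, pair a (s M e) ∈ t M e → R M a e) :=
  have := ht.shift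
  have := hs.shift
  (inferInstance : ZDf (fun M e => ∀ a ∈ M, pair a (s M e) ∈ t M e → R M a e)).congr
    fun M hM e he =>
      have := hM.toTrans
      ⟨fun H a h => H a (fst_mem (ht.mem M hM e he) h) h, fun H a _ h => H a h⟩

instance ZDf.exFst [hs : ZTm s] [ht : ZTm t] {R : Set ZFSet.{u} → ZFSet.{u} → Env.{u} → Prop}
    [ZDf (fun M e => R M (e 0) (fun i => e (i + 1)))] :
    ZDf (fun M e => ∃ a, pair a (s M e) ∈ t M e ∧ R M a e) :=
  (inferInstance : ZDf (fun M e => ¬ ∀ a, pair a (s M e) ∈ t M e → ¬ R M a e)).congr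
    fun _ _ _ _ => by push Not; rfl

instance ZDf.exEqPair [ht : ZTm t] {R : Set ZFSet.{u} → ZFSet.{u} → ZFSet.{u} → Env.{u} → Prop}
    [ZDf (fun M e => R M (e 1) (e 0) (fun i => e (i + 1 + 1)))] :
    ZDf (fun M e => ∃ a b, t M e = pair a b ∧ R M a b e) :=
  (inferInstance : ZDf (fun M e => ∃ a b, pair a b ∈ ({t M e} : ZFSet.{u}) ∧ R M a b e)).congr
    fun _ _ _ _ => by simp only [mem_singleton, eq_comm]

instance ZDf.allEqPair [ht : ZTm t] {R : Set ZFSet.{u} → ZFSet.{u} → ZFSet.{u} → Env.{u} → Prop}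
    [ZDf (fun M e => R M (e 1) (e 0) (fun i => e (i + 1 + 1)))] :
    ZDf (fun M e => ∀ a b, t M e = pair a b → R M a b e) :=
  (inferInstance : ZDf (fun M e => ¬ ∃ a b, t M e = pair a b ∧ ¬ R M a b e)).congr
    fun _ _ _ _ => by push Not; rfl

instance ZDf.exFst' [ZTm s] [ZTm t] : ZDf (fun M e => ∃ a, pair a (s M e) ∈ t M e) :=
  (inferInstance : ZDf (fun M e => ∃ a, pair a (s M e) ∈ t M e ∧ a = a)).congr
    fun _ _ _ _ => by simp

instance ZDf.exSnd' [ZTm s] [ZTm t] : ZDf (fun M e => ∃ a, pair (s M e) a ∈ t M e) :=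
  (inferInstance : ZDf (fun M e => ∃ a, pair (s M e) a ∈ t M e ∧ a = a)).congr
    fun _ _ _ _ => by simp

instance ZTm.sep [ht : ZTm t] {R : Set ZFSet.{u} → ZFSet.{u} → Env.{u} → Prop}
    [h : ZDf (fun M e => R M (e 0) (fun i => e (i + 1)))] :
    ZTm (fun M e => (t M e).sep (fun x => R M x e)) := by
  constructor
  · intro M hM e he
    have := hM.zfm
    exact (@Tm.sep M _ _ (ht.toTm hM) (R M) (h.toDf hM)).mem e he
  have h1 : ZDf (fun M e => R M (e 0) (fun i => e (i + 1 + 1))) :=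
    h.rename (fun i => match i with | 0 => 0 | i + 1 => i + 1 + 1)
  have := ht.shift
  have := ht.shift.shift
  refine (inferInstance : ZDf (fun M e => (∀ x ∈ e 0, x ∈ t M (fun i => e (i + 1)) ∧
    R M x (fun i => e (i + 1))) ∧ ∀ x ∈ t M (fun i => e (i + 1)), R M x (fun i => e (i + 1)) →
      x ∈ e 0)).congr fun M _ e _ => ?_
  constructor
  · rintro ⟨h2, h3⟩
    ext x
    rw [mem_sep]
    exact ⟨h2 x, fun hx => h3 x hx.1 hx.2⟩
  · intro h2
    rw [h2]
    exact ⟨fun x hx => mem_sep.1 hx, fun x h3 h4 => mem_sep.2 ⟨h3, h4⟩⟩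

instance ZTm.img [ht : ZTm t] {F : Set ZFSet.{u} → ZFSet.{u} → Env.{u} → ZFSet.{u}}
    [h : ZTm (fun M e => F M (e 0) (fun i => e (i + 1)))] :
    ZTm (fun M e => img (fun x => F M x e) (t M e)) := by
  constructor
  · intro M hM e he
    have := hM.zfm
    exact (@Tm.img M _ _ (ht.toTm hM) (F M) (h.toTm hM)).mem e he
  · have h1 : ZTm (fun M e => F M (e 0) (fun i => e (i + 1 + 1))) :=
      h.rename (fun i => match i with | 0 => 0 | i + 1 => i + 1 + 1)
    have h2 : ZTm (fun M e => F M (e 0) (fun i => e (i + 1 + 1 + 1))) :=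
      h.rename (fun i => match i with | 0 => 0 | i + 1 => i + 1 + 1 + 1)
    have := ht.shift
    have := ht.shift.shift
    refine (inferInstance : ZDf (fun M e => (∀ z ∈ e 0, ∃ x ∈ t M (fun i => e (i + 1)),
      F M x (fun i => e (i + 1)) = z) ∧ ∀ x ∈ t M (fun i => e (i + 1)),
        F M x (fun i => e (i + 1)) ∈ e 0)).congr fun M _ e _ => ?_
    constructor
    · rintro ⟨h2, h3⟩
      ext z
      rw [mem_img]
      exact ⟨h2 z, fun ⟨x, hx, h4⟩ => h4 ▸ h3 x hx⟩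
    · intro h2
      rw [h2]
      exact ⟨fun z hz => mem_img.1 hz, fun x hx => mem_img.2 ⟨x, hx, rfl⟩⟩

open Classical in
instance ZTm.ite {p : Set ZFSet.{u} → Env.{u} → Prop} [hp : ZDf p] [hs : ZTm s] [ht : ZTm t] :
    ZTm (fun M e => if p M e then s M e else t M e) := by
  constructor
  · intro M hM e he
    split_ifs
    exacts [hs.mem M hM e he, ht.mem M hM e he]
  · have := hs.shift
    have := ht.shift
    have : ZDf (fun M e => p M (fun i => e (i + 1))) := hp.rename (· + 1)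
    refine (inferInstance : ZDf (fun M e =>
      (p M (fun i => e (i + 1)) ∧ e 0 = s M (fun i => e (i + 1))) ∨
      (¬ p M (fun i => e (i + 1)) ∧ e 0 = t M (fun i => e (i + 1))))).congr fun M _ e _ => ?_
    split_ifs with h <;> simp [h]

instance ZTm.union [ZTm s] [ZTm t] : ZTm (fun M e => s M e ∪ t M e) :=
  (inferInstance : ZTm (fun M e => (⋃₀ {s M e, t M e} : ZFSet.{u})))

instance ZTm.inter [ZTm s] [ht : ZTm t] : ZTm (fun M e => s M e ∩ t M e) :=
  have := ht.shift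
  (inferInstance : ZTm (fun M e => (s M e).sep (fun x => x ∈ t M e)))

instance ZTm.sdiff [ZTm s] [ht : ZTm t] : ZTm (fun M e => s M e \ t M e) :=
  have := ht.shift
  (inferInstance : ZTm (fun M e => (s M e).sep (fun x => ¬ x ∈ t M e)))

instance ZTm.prod [ZTm s] [ZTm t] : ZTm (fun M e => (s M e).prod (t M e)) :=
  ZTm.comp2 (F := fun _ => ZFSet.prod) ⟨fun _ hM _ he => @prod_mem _ hM.zfm _ _ (he 0) (he 1),
    (inferInstance : ZDf (fun _ e => (∀ z ∈ e 0, ∃ a ∈ e 1, ∃ b ∈ e 2, z = ZFSet.pair a b) ∧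
      ∀ a ∈ e 1, ∀ b ∈ e 2, ZFSet.pair a b ∈ e 0)).congr fun _ _ e _ => by
      constructor
      · rintro ⟨h1, h2⟩
        ext z
        rw [mem_prod]
        exact ⟨h1 z, fun ⟨a, ha, b, hb, h⟩ => h ▸ h2 a ha b hb⟩
      · intro h
        rw [h]
        exact ⟨fun z hz => mem_prod.1 hz, fun a ha b hb => pair_mem_prod.2 ⟨ha, hb⟩⟩⟩ s t

instance ZDf.isFunc [ZTm s] [ZTm t] [ZTm w] : ZDf (fun M e => IsFunc (s M e) (t M e) (w M e)) :=
  ZDf.subst3 (R := fun _ => IsFunc) ((inferInstance : ZDf (fun _ e => e 2 ⊆ (e 0).prod (e 1) ∧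
    ∀ z ∈ e 0, ∃ y, pair z y ∈ e 2 ∧ ∀ y', pair z y' ∈ e 2 → y' = y)).congr
      fun _ _ _ _ => Iff.rfl) s t w

instance ZTm.fst [ZTm s] : ZTm (fun M e => fst (s M e)) :=
  ZTm.comp1 (F := fun _ => Forcing.fst) (by unfold Forcing.fst; infer_instance) s

instance ZTm.snd [ZTm s] : ZTm (fun M e => snd (s M e)) :=
  ZTm.comp1 (F := fun _ => Forcing.snd) (by unfold Forcing.snd; infer_instance) s

/-- The power set computed in `M`. -/
def powIn (M : Set ZFSet.{u}) (x : ZFSet.{u}) : ZFSet.{u} := (powerset x).sep (· ∈ M)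

theorem mem_powIn {M : Set ZFSet.{u}} {x y : ZFSet.{u}} : y ∈ powIn M x ↔ y ⊆ x ∧ y ∈ M := by
  rw [powIn, mem_sep, mem_powerset]

instance ZTm.powIn [ZTm s] : ZTm (fun M e => powIn M (s M e)) := by
  refine ZTm.comp1 (F := Forcing.powIn) ⟨fun M hM e he => ?_, ?_⟩ s
  · have := hM.zfm
    obtain ⟨y, hy, H⟩ := hM.powerSet _ (he 0)
    have := InM.mk (he 0)
    convert sep_mem (fun z => z ⊆ e 0) hy using 1
    ext z
    rw [mem_powIn, mem_sep]
    exact ⟨fun h => ⟨H z h.2 h.1, h.1⟩, fun h => ⟨h.2, mem_of_mem hy h.1⟩⟩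
  · refine (inferInstance : ZDf (fun M e => ∀ z ∈ M, (z ∈ e 0 ↔ z ⊆ e 1))).congr
      fun M hM e he => ⟨fun h => ?_, fun h z hz => ?_⟩
    · ext z
      rw [mem_powIn]
      exact ⟨fun hz => ⟨(h z (hM.transitive _ (he 0) _ hz)).1 hz, hM.transitive _ (he 0) _ hz⟩,
        fun hz => (h z hz.2).2 hz.1⟩
    · rw [h, mem_powIn]
      exact ⟨fun h => h.1, fun h => ⟨h, hz⟩⟩

end

end Pool.Agent.Lib.Forcing
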