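import Pool.Agent.Lib.Constructible.ZDf

/-!
Parameter-free definability of recursions: rank, Goedel pairing, `Def`, the constructible levels,
truth in a set, models of ZF, elementarity of a map.
-/

universe u

set_option synthInstance.maxSize 16384

namespace Pool.Agent.Lib.Forcing

open ZFSet

/-- An attempt at a recursion, inside `M`, that gives the value `z` at `x`. -/
def RecAt (M : Set ZFSet.{u}) (r : ZFSet.{u} → ZFSet.{u} → Prop)
    (Φ : ZFSet.{u} → ZFSet.{u} → ZFSet.{u} → Prop) (z x : ZFSet.{u}) : Prop :=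
  ∃ T ∈ M, ∃ f ∈ M, ((∀ y ∈ T, ∀ w ∈ M, r w y → w ∈ T) ∧
    ∀ y ∈ T, ∃ w ∈ M, Φ y f w ∧ pair y w ∈ f ∧ ∀ w', pair y w' ∈ f → w' = w) ∧
    x ∈ T ∧ pair x z ∈ f

theorem recAt_iff {M : Set ZFSet.{u}} [ZFm M] {r : ZFSet.{u} → ZFSet.{u} → Prop}
    (hr : WellFounded r) (hT : ∀ x ∈ M, ∃ T ∈ M, x ∈ T ∧ ∀ y ∈ T, ∀ z, r z y → z ∈ T)
    {F : ZFSet.{u} → ZFSet.{u}} {Φ : ZFSet.{u} → ZFSet.{u} → ZFSet.{u} → Prop}
    (hF : Tm M (fun e => F (e 0)))
    (H : ∀ x ∈ M, ∀ f ∈ M, (∀ y, r y x → ∀ z, pair y z ∈ f ↔ z = F y) →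
      F x ∈ M ∧ ∀ z ∈ M, (Φ x f z ↔ z = F x)) {x z : ZFSet.{u}} (hx : x ∈ M) :
    RecAt M r Φ z x ↔ z = F x := by
  have hrM : ∀ y ∈ M, ∀ z, r z y → z ∈ M := by
    intro y hy z hz
    obtain ⟨T, hT, h1, h2⟩ := hT y hy
    exact mem_of_mem hT (h2 y h1 z hz)
  constructor
  · rintro ⟨T, hTM, f, hf, hG, h1, h2⟩
    have sound : ∀ y ∈ T, ∀ z, pair y z ∈ f ↔ z = F y := by
      intro y
      induction y using hr.induction with
      | h y ih =>
        intro hy z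
        have hyM := mem_of_mem hTM hy
        obtain ⟨w, hw, h1, h2, h3⟩ := hG.2 y hy
        obtain rfl := ((H y hyM f hf fun y' hy' =>
          ih y' hy' (hG.1 y hy y' (hrM y hyM y' hy') hy')).2 w hw).1 h1
        exact ⟨h3 z, fun h => h ▸ h2⟩
    exact (sound x h1 z).1 h2
  · rintro rfl
    obtain ⟨T, hTM, hxT, hTc⟩ := hT x hx
    have h0 : Tm M (fun e => pair (e 0) (F (e 0))) := inferInstance
    obtain ⟨f, hf, Hf⟩ := exists_image_tm (fun y => pair y (F y)) (h := h0) hTM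
    have Hf' : ∀ y ∈ T, ∀ z, pair y z ∈ f ↔ z = F y := by
      intro y hy z
      rw [Hf]
      constructor
      · rintro ⟨y', -, h⟩
        obtain ⟨rfl, rfl⟩ := pair_inj.1 h; rfl
      · rintro rfl; exact ⟨y, hy, rfl⟩
    refine ⟨T, hTM, f, hf, ⟨fun y hy w _ hw => hTc y hy w hw, fun y hy => ?_⟩, hxT,
      (Hf' x hxT _).2 rfl⟩
    obtain ⟨h1, h2⟩ := H y (mem_of_mem hTM hy) f hf fun y' hy' => Hf' y' (hTc y hy y' hy')
    exact ⟨F y, h1, (h2 _ h1).2 rfl, (Hf' y hy _).2 rfl, fun w' hw' => (Hf' y hy _).1 hw'⟩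

/-- The recursion theorem with parameters `p` (variables `1, 2, ...` of the result). -/
theorem ztm_recursion (r : ZFSet.{u} → ZFSet.{u} → Prop) (hr : WellFounded r)
    [hrd : ZDf (fun _ e => r (e 0) (e 1))]
    (hT : ∀ M, IsZFModel M → ∀ x ∈ M, ∃ T ∈ M, x ∈ T ∧ ∀ y ∈ T, ∀ z, r z y → z ∈ T)
    (F : Set ZFSet.{u} → Env.{u} → ZFSet.{u} → ZFSet.{u})
    (Φ : Set ZFSet.{u} → Env.{u} → ZFSet.{u} → ZFSet.{u} → ZFSet.{u} → Prop)
    [hΦ : ZDf (fun M e => Φ M (fun i => e (i + 1 + 1 + 1)) (e 0) (e 1) (e 2))]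
    (H : ∀ M, IsZFModel M → ∀ p : Env.{u}, (∀ i, p i ∈ M) → ∀ x ∈ M, ∀ f ∈ M,
      (∀ y, r y x → ∀ z, pair y z ∈ f ↔ z = F M p y) →
      F M p x ∈ M ∧ ∀ z ∈ M, (Φ M p x f z ↔ z = F M p x)) :
    ZTm (fun M e => F M (fun i => e (i + 1)) (e 0)) := by
  have hF : ∀ M, IsZFModel M → ∀ p : Env.{u}, (∀ i, p i ∈ M) → Tm M (fun e => F M p (e 0)) := by
    intro M hM p hp
    have := hM.zfm
    have h1 : Df M (fun e => Φ M p (e 0) (e 1) (e 2)) :=
      ((hΦ.toDf hM).params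
        (fun i => match i with | 0 => .inl 0 | 1 => .inl 1 | 2 => .inl 2 | i + 3 => .inr i)
        hp).congr fun _ _ => Iff.rfl
    exact @Forcing.recursion M _ r hr (hrd.toDf hM) (hT M hM) (F M p) (Φ M p) h1 (H M hM p hp)
  refine ⟨fun M hM e he => (hF M hM _ fun i => he _).mem1 (he 0), ?_⟩
  have hr' : ∀ (s t : Set ZFSet.{u} → Env.{u} → ZFSet.{u}) [ZTm s] [ZTm t],
      ZDf (fun M e => r (s M e) (t M e)) := fun s t _ _ => ZDf.subst2 (R := fun _ => r) hrd s t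
  have h2 : ZDf (fun M e => Φ M (fun i => e (i + 1 + 1 + 1 + 1 + 1 + 1)) (e 1) (e 2) (e 0)) :=
    hΦ.rename (fun i => match i with | 0 => 1 | 1 => 2 | 2 => 0 | i + 3 => i + 1 + 1 + 1 + 1 + 1 + 1)
  have h3 : ZDf (fun M e => RecAt M r (Φ M fun i => e (i + 1 + 1)) (e 0) (e 1)) := by
    unfold RecAt; infer_instance
  refine h3.congr fun M hM e he => ?_
  have := hM.zfm
  exact recAt_iff hr (hT M hM) (hF M hM _ fun i => he _) (H M hM _ fun i => he _) (he 1)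

theorem ztm_mem_recursion (F : Set ZFSet.{u} → Env.{u} → ZFSet.{u} → ZFSet.{u})
    (Φ : Set ZFSet.{u} → Env.{u} → ZFSet.{u} → ZFSet.{u} → ZFSet.{u} → Prop)
    [hΦ : ZDf (fun M e => Φ M (fun i => e (i + 1 + 1 + 1)) (e 0) (e 1) (e 2))]
    (H : ∀ M, IsZFModel M → ∀ p : Env.{u}, (∀ i, p i ∈ M) → ∀ x ∈ M, ∀ f ∈ M,
      (∀ y ∈ x, ∀ z, pair y z ∈ f ↔ z = F M p y) →
      F M p x ∈ M ∧ ∀ z ∈ M, (Φ M p x f z ↔ z = F M p x)) :
    ZTm (fun M e => F M (fun i => e (i + 1)) (e 0)) :=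
  ztm_recursion (· ∈ ·) mem_wf (fun M hM x hx => by
    have := hM.zfm
    obtain ⟨T, hT, h1, h2⟩ := exists_trans hx
    exact ⟨T, hT, h2, fun y hy z hz => h1 y hy hz⟩) F Φ H

/-- The values of `f` on the elements of `x`. -/
def valsOn (f x : ZFSet.{u}) : ZFSet.{u} := (⋃₀ ⋃₀ f).sep fun v => ∃ y ∈ x, pair y v ∈ f

theorem valsOn_eq {F : ZFSet.{u} → ZFSet.{u}} {f x : ZFSet.{u}}
    (H : ∀ y ∈ x, ∀ z, pair y z ∈ f ↔ z = F y) : valsOn f x = img F x := by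
  ext v
  simp only [valsOn, mem_sep, mem_sUnion, mem_img]
  constructor
  · rintro ⟨-, y, hy, h⟩
    exact ⟨y, hy, ((H y hy v).1 h).symm⟩
  · rintro ⟨y, hy, rfl⟩
    have h3 := (H y hy _).2 rfl
    exact ⟨⟨{y, F y}, ⟨_, h3, mem_pair.2 (Or.inr rfl)⟩, mem_pair.2 (Or.inr rfl)⟩, y, hy, h3⟩

section
variable {s t w v : Set ZFSet.{u} → Env.{u} → ZFSet.{u}}

instance ztm_valsOn [ZTm s] [ZTm t] : ZTm (fun M e => valsOn (s M e) (t M e)) :=
  ZTm.comp2 (F := fun _ => Forcing.valsOn) (by unfold Forcing.valsOn; infer_instance) s t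

end

/-- Recursion on membership given by a definable operation on the set of earlier values. -/
theorem ztm_mem_recursion_img (F : Set ZFSet.{u} → Env.{u} → ZFSet.{u} → ZFSet.{u})
    (G : Set ZFSet.{u} → Env.{u} → ZFSet.{u} → ZFSet.{u} → ZFSet.{u})
    [hG : ZTm (fun M e => G M (fun i => e (i + 1 + 1)) (e 0) (e 1))]
    (H : ∀ M, IsZFModel M → ∀ p : Env.{u}, (∀ i, p i ∈ M) → ∀ x ∈ M,
      F M p x = G M p x (img (fun y => pair y (F M p y)) x)) :
    ZTm (fun M e => F M (fun i => e (i + 1)) (e 0)) := by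
  have h1 : ZTm (fun M e => G M (fun i => e (i + 1 + 1 + 1)) (e 0)
      ((e 1).sep fun q => ∃ a b, q = pair a b ∧ a ∈ e 0)) := by
    have h2 : ZTm (fun M e => G M (fun i => e (i + 1 + 1 + 1 + 1)) (e 1) (e 0)) :=
      hG.rename (fun i => match i with | 0 => 1 | 1 => 0 | i + 2 => i + 1 + 1 + 1 + 1)
    have h3 : ZTm (fun _ e => (e 1).sep fun q => ∃ a b, q = pair a b ∧ a ∈ e 0) := inferInstance
    refine ⟨fun M hM e he => h2.mem M hM (cons _ e) (cons_mem (h3.mem M hM e he) he), ?_⟩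
    have h4 : ZDf (fun M e => e 1 = G M (fun i => e (i + 1 + 1 + 1 + 1 + 1)) (e 2) (e 0)) :=
      h2.df.rename (fun i => match i with | 0 => 1 | 1 => 0 | i + 2 => i + 1 + 1)
    exact h4.consTm h3.shift
  refine ztm_mem_recursion F
    (fun M p x f z => z = G M p x (f.sep fun q => ∃ a b, q = pair a b ∧ a ∈ x)) ?_
  intro M hM p hp x hx f hf Hf
  have h2 : (f.sep fun q => ∃ a b, q = pair a b ∧ a ∈ x) = img (fun y => pair y (F M p y)) x := by
    ext q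
    rw [mem_sep, mem_img]
    constructor
    · rintro ⟨h, a, b, rfl, ha⟩
      exact ⟨a, ha, by rw [(Hf a ha b).1 h]⟩
    · rintro ⟨a, ha, rfl⟩
      exact ⟨(Hf a ha _).2 rfl, _, _, rfl, ha⟩
  have h3 := h1.mem M hM (cons x (cons f (cons f p))) (cons_mem hx (cons_mem hf (cons_mem hf hp)))
  simp only [cons_zero, cons_succ] at h3
  rw [h2] at h3 ⊢
  exact ⟨by rw [H M hM p hp x hx]; exact h3, fun z _ => by rw [H M hM p hp x hx]⟩

theorem zdf_gen (A : Set ZFSet.{u} → ZFSet.{u} → ZFSet.{u} → Prop)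
    (S : Set ZFSet.{u} → ZFSet.{u} → ZFSet.{u} → ZFSet.{u} → ZFSet.{u} → Prop)
    [hA : ZDf (fun M e => A M (e 0) (e 1))] [hS : ZDf (fun M e => S M (e 0) (e 1) (e 2) (e 3))] :
    ZDf (fun M e => Gen M (A M (e 1)) (S M (e 1)) (e 0)) := by
  have hA' : ∀ (s t : Set ZFSet.{u} → Env.{u} → ZFSet.{u}) [ZTm s] [ZTm t],
      ZDf (fun M e => A M (s M e) (t M e)) := fun s t _ _ => ZDf.subst2 hA s t
  have hS' : ∀ (s t w v : Set ZFSet.{u} → Env.{u} → ZFSet.{u}) [ZTm s] [ZTm t] [ZTm w] [ZTm v],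
      ZDf (fun M e => S M (s M e) (t M e) (w M e) (v M e)) :=
    fun s t w v _ _ _ _ => ZDf.subst4 hS s t w v
  refine (inferInstance : ZDf (fun M e => ∃ C ∈ M, (∀ k w, pair k w ∈ C → A M (e 1) w ∨
    ∃ k1 ∈ k, ∃ a, pair k1 a ∈ C ∧ ∃ k2 ∈ k, ∃ b, pair k2 b ∈ C ∧ S M (e 1) w a b) ∧
      ∃ k, pair k (e 0) ∈ C)).congr fun M hM e _ => ?_
  have := hM.zfm
  generalize e 0 = z
  generalize e 1 = c
  constructor
  · rintro ⟨C, hC, H, k, hk⟩
    induction k using ZFSet.inductionOn generalizing z with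
    | h k ih =>
      rcases H k z hk with h | ⟨k1, h1, a, ha, k2, h2, b, hb, h⟩
      · exact .ax (snd_mem hC hk) h
      · exact .step (snd_mem hC hk) (ih k1 h1 a ha) (ih k2 h2 b hb) h
  · intro h
    induction h with
    | @ax z hz h =>
      refine ⟨{pair ∅ z}, singleton_mem (pair_mem Trans.empty hz), fun k w hw => Or.inl ?_,
        ∅, mem_singleton.2 rfl⟩
      rwa [(pair_inj.1 (mem_singleton.1 hw)).2]
    | @step z a b hz _ _ h ih1 ih2 =>
      obtain ⟨C1, hC1, H1, k1, hk1⟩ := ih1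
      obtain ⟨C2, hC2, H2, k2, hk2⟩ := ih2
      refine ⟨insert (pair {k1, k2} z) (C1 ∪ C2), insert_mem
        (pair_mem (upair_mem (fst_mem hC1 hk1) (fst_mem hC2 hk2)) hz) (union_mem hC1 hC2),
        fun k w hw => ?_, _, mem_insert _ _⟩
      have l1 : ∀ x, x ∈ C1 → x ∈ (insert (pair {k1, k2} z) (C1 ∪ C2) : ZFSet.{u}) :=
        fun x hx => mem_insert_of_mem _ (mem_union.2 (Or.inl hx))
      have l2 : ∀ x, x ∈ C2 → x ∈ (insert (pair {k1, k2} z) (C1 ∪ C2) : ZFSet.{u}) :=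
        fun x hx => mem_insert_of_mem _ (mem_union.2 (Or.inr hx))
      rcases mem_insert_iff.1 hw with hw | hw
      · obtain ⟨rfl, rfl⟩ := pair_inj.1 hw
        exact Or.inr ⟨k1, mem_pair.2 (Or.inl rfl), a, l1 _ hk1, k2, mem_pair.2 (Or.inr rfl), b,
          l2 _ hk2, h⟩
      · rcases mem_union.1 hw with hw | hw
        · exact (H1 k w hw).imp_right fun ⟨j1, h1, a, ha, j2, h2, b, hb, h⟩ =>
            ⟨j1, h1, a, l1 _ ha, j2, h2, b, l1 _ hb, h⟩
        · exact (H2 k w hw).imp_right fun ⟨j1, h1, a, ha, j2, h2, b, hb, h⟩ =>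
            ⟨j1, h1, a, l2 _ ha, j2, h2, b, l2 _ hb, h⟩

section
variable {s t w v : Set ZFSet.{u} → Env.{u} → ZFSet.{u}}

instance ztm_rk [ZTm s] : ZTm (fun M e => rk (s M e)) := by
  refine ZTm.comp1 (F := fun _ => Forcing.rk) ?_ s
  refine ztm_mem_recursion_img (fun _ _ => Forcing.rk)
    (fun _ _ _ f => ⋃₀ img (fun q => Insert.insert (Forcing.snd q) (Forcing.snd q)) f) ?_
  intro M _ p _ x _
  ext z
  simp only [mem_rk, mem_sUnion, mem_img]
  constructor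
  · rintro ⟨y, hy, h⟩
    exact ⟨_, ⟨_, ⟨y, hy, rfl⟩, rfl⟩, by rwa [snd_pair]⟩
  · rintro ⟨_, ⟨_, ⟨y, hy, rfl⟩, rfl⟩, h⟩
    exact ⟨y, hy, by rwa [snd_pair] at h⟩

instance ZDf.pairLt [ZTm s] [ZTm t] : ZDf (fun M e => PairLt (s M e) (t M e)) :=
  ZDf.subst2 (R := fun _ => PairLt) (by unfold PairLt; infer_instance) s t

instance ztm_gp [ZTm s] : ZTm (fun M e => gp (s M e)) := by
  refine ZTm.comp1 (F := fun _ => Forcing.gp) ?_ s
  refine ztm_recursion PairLt pairLt_wf ?_ (fun _ _ => Forcing.gp)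
    (fun _ _ x f z => z = (⋃₀ ⋃₀ f).sep fun w => ∃ y, pair y w ∈ f ∧ PairLt y x) ?_
  · intro M hM x hx
    have := hM.zfm
    refine ⟨_, insert_mem hx (prod_mem (rk_mem hx) (rk_mem hx)), mem_insert _ _,
      fun y hy z hz => ?_⟩
    refine mem_insert_of_mem _ ?_
    rcases mem_insert_iff.1 hy with rfl | hy
    · exact hz.mem_prod'
    · obtain ⟨α, hα, β, hβ, rfl⟩ := mem_prod.1 hy
      exact hz.mem_prod (isOrdinal_rk _) hα hβ
  · intro M hM p _ x hx f hf H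
    have := hM.zfm
    have h1 : Forcing.gp x = (⋃₀ ⋃₀ f).sep fun w => ∃ y, pair y w ∈ f ∧ PairLt y x := by
      ext w
      simp only [mem_gp, mem_sep, mem_sUnion]
      constructor
      · rintro ⟨y, h, rfl⟩
        have h3 := (H y h _).2 rfl
        exact ⟨⟨{y, Forcing.gp y}, ⟨_, h3, mem_pair.2 (Or.inr rfl)⟩, mem_pair.2 (Or.inr rfl)⟩,
          y, h3, h⟩
      · rintro ⟨-, y, h2, h⟩
        exact ⟨y, h, ((H y h w).1 h2).symm⟩
    exact ⟨tm_gp.mem1 hx, fun z _ => by rw [h1]⟩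

instance ztm_opExt [ZTm s] [ZTm t] [ZTm w] : ZTm (fun M e => opExt (s M e) (t M e) (w M e)) :=
  ZTm.comp3 (F := fun _ => Forcing.opExt) (by unfold Forcing.opExt; infer_instance) s t w

instance ztm_opMem [ZTm s] [ZTm t] [ZTm w] : ZTm (fun M e => opMem (s M e) (t M e) (w M e)) :=
  ZTm.comp3 (F := fun _ => Forcing.opMem) (by unfold Forcing.opMem; infer_instance) s t w

instance ztm_opEq [ZTm s] [ZTm t] [ZTm w] : ZTm (fun M e => opEq (s M e) (t M e) (w M e)) :=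
  ZTm.comp3 (F := fun _ => Forcing.opEq) (by unfold Forcing.opEq; infer_instance) s t w

instance ztm_opAll [ZTm s] [ZTm t] [ZTm w] [ZTm v] :
    ZTm (fun M e => opAll (s M e) (t M e) (w M e) (v M e)) :=
  ZTm.comp4 (F := fun _ => Forcing.opAll) (by unfold Forcing.opAll; infer_instance) s t w v

instance ztm_opSec [ZTm s] [ZTm t] [ZTm w] [ZTm v] :
    ZTm (fun M e => opSec (s M e) (t M e) (w M e) (v M e)) :=
  ZTm.comp4 (F := fun _ => Forcing.opSec) (by unfold Forcing.opSec; infer_instance) s t w v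

end

/-- `R` is an `n`-ary relation on `X` definable without parameters, `U` is the set of `n`-tuples. -/
def DerS (X n U R : ZFSet.{u}) : Prop := ∃ m, n = nat m ∧ U = tups X m ∧ Der X m R

section
variable {s t w v : Set ZFSet.{u} → Env.{u} → ZFSet.{u}}

instance ZDf.derS [ZTm s] [ZTm t] [ZTm w] [ZTm v] :
    ZDf (fun M e => DerS (s M e) (t M e) (w M e) (v M e)) := by
  refine ZDf.subst4 (R := fun _ => DerS) ?_ s t w v
  have h1 := @zdf_gen (fun _ _ z => z = pair ∅ (pair {∅} {∅})) (fun _ => DStep) inferInstance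
    (by unfold DStep; infer_instance)
  refine (ZDf.subst2
    (R := fun M a b => Gen M (fun z => z = pair ∅ (pair {∅} {∅})) (DStep b) a) h1
      (fun _ e => pair (e 1) (pair (e 2) (e 3))) (fun _ e => e 0)).congr fun M hM e he => ?_
  have := hM.zfm
  rw [gen_iff_der (he 0)]
  constructor
  · rintro ⟨n, R, h, h'⟩
    simp only [pair_inj] at h'
    obtain ⟨h1, h2, h3⟩ := h'
    exact ⟨n, h1, h2, h3 ▸ h⟩
  · rintro ⟨n, h1, h2, h3⟩
    exact ⟨n, _, h3, by rw [h1, h2]⟩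

instance ZDf.mem_defPow [ZTm s] [ZTm t] : ZDf (fun M e => s M e ∈ defPow (t M e)) := by
  refine ZDf.subst2 (R := fun _ a b => a ∈ defPow b) ?_ s t
  refine (inferInstance : ZDf (fun M e => (∃ x ∈ e 1, x = x) ∧ ∃ n ∈ M, ∃ U ∈ M, ∃ U' ∈ M,
    ∃ R ∈ M, DerS (e 1) n U U ∧ DerS (e 1) (insert n n) U' R ∧
      ∃ s ∈ U, e 0 = opSec (e 1) s R n)).congr fun M hM e he => ?_
  have := hM.zfm
  rw [mem_defPow_iff]
  refine and_congr (by simp) ⟨?_, ?_⟩
  · rintro ⟨_, -, _, -, _, -, _, -, ⟨n, rfl, rfl, -⟩, ⟨n', h8, rfl, h6⟩, h5⟩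
    obtain rfl := (nat_inj (m := n + 1)).1 h8
    exact ⟨n, _, h6, h5⟩
  · rintro ⟨n, R, h3, h4⟩
    exact ⟨_, nat_mem n, _, tups_mem (he 1) n, _, tups_mem (he 1) (n + 1),
      _, h3.mem_model (he 1), ⟨n, rfl, rfl, Der.top _ n⟩, ⟨n + 1, rfl, rfl, h3⟩, h4⟩

instance ztm_defPow [ZTm s] : ZTm (fun M e => defPow (s M e)) := by
  refine ZTm.comp1 (F := fun _ => Forcing.defPow) ⟨fun M hM e he => ?_, ?_⟩ s
  · have := hM.zfm
    exact (tm_defPow hM.powerSet).mem1 (he 0)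
  · refine (inferInstance : ZDf (fun M e => ∀ Y ∈ M, (Y ∈ e 0 ↔ Y ∈ Forcing.defPow (e 1)))).congr
      fun M hM e he => ⟨fun h => ?_, fun h Y _ => h ▸ Iff.rfl⟩
    have := hM.zfm
    ext Y
    exact ⟨fun hY => (h Y (mem_of_mem (he 0) hY)).1 hY,
      fun hY => (h Y (mem_model_of_mem_defPow (he 1) hY)).2 hY⟩

instance ztm_level [ZTm s] [ZTm t] : ZTm (fun M e => level (s M e) (t M e)) := by
  refine ZTm.comp2 (F := fun _ a b => Forcing.level b a) ?_ t s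
  refine ztm_mem_recursion_img (fun _ p => Forcing.level (p 0))
    (fun _ p _ f => p 0 ∪ ⋃₀ img (fun q => Forcing.defPow (Forcing.snd q)) f) ?_
  intro M _ p _ x _
  ext z
  simp only [mem_level, mem_union, mem_sUnion, mem_img]
  refine or_congr_right ⟨?_, ?_⟩
  · rintro ⟨y, hy, h⟩
    exact ⟨_, ⟨_, ⟨y, hy, rfl⟩, rfl⟩, by rwa [snd_pair]⟩
  · rintro ⟨_, ⟨_, ⟨y, hy, rfl⟩, rfl⟩, h⟩
    exact ⟨y, hy, by rwa [snd_pair] at h⟩

instance ZDf.mem_constr [ZTm s] [ZTm t] : ZDf (fun M e => s M e ∈ constr M (t M e)) :=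
  ZDf.subst2 (R := fun M a b => a ∈ constr M b)
    (inferInstance : ZDf (fun M e => ∃ α ∈ M, α.IsOrdinal ∧ e 0 ∈ Forcing.level (e 1) α)) s t

end

/-- Truth of a fixed formula in a set (variable `0`). -/
theorem zdf_sat_set (φ : Fml) :
    ZDf.{u} (fun _ e => Sat (e 0 : Set ZFSet.{u}) φ (fun i => e (i + 1))) := by
  induction φ with
  | mem i j => exact ZDf.sat (.mem (i + 1) (j + 1))
  | eq i j => exact ZDf.sat (.eq (i + 1) (j + 1))
  | neg φ ih => exact @ZDf.not _ ih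
  | and φ ψ ih1 ih2 => exact @ZDf.and _ _ ih1 ih2
  | all φ ih =>
    have h1 : ZDf (fun _ e => Sat (e 1 : Set ZFSet.{u}) φ (cons (e 0) fun i => e (i + 1 + 1))) :=
      (ih.rename (fun i => match i with | 0 => 1 | 1 => 0 | i + 2 => i + 1 + 1)).congr
        fun _ _ e _ => iff_of_eq (congrArg _ (funext fun i => by cases i <;> rfl))
    exact @ZDf.allIn (fun _ e => e 0) _
      (fun _ x e => Sat (e 0 : Set ZFSet.{u}) φ (cons x fun i => e (i + 1))) h1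

/-- Truth of a fixed formula in the constructible class over a set (variable `0`). -/
theorem zdf_sat_constr (φ : Fml) :
    ZDf.{u} (fun M e => Sat (constr M (e 0)) φ (fun i => e (i + 1))) := by
  induction φ with
  | mem i j => exact ZDf.sat (.mem (i + 1) (j + 1))
  | eq i j => exact ZDf.sat (.eq (i + 1) (j + 1))
  | neg φ ih => exact @ZDf.not _ ih
  | and φ ψ ih1 ih2 => exact @ZDf.and _ _ ih1 ih2
  | all φ ih =>
    have h1 : ZDf (fun M e => Sat (constr M (e 1)) φ (cons (e 0) fun i => e (i + 1 + 1))) :=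
      (ih.rename (fun i => match i with | 0 => 1 | 1 => 0 | i + 2 => i + 1 + 1)).congr
        fun _ _ e _ => iff_of_eq (congrArg _ (funext fun i => by cases i <;> rfl))
    have h2 : ZDf (fun M e => ∀ x ∈ M, x ∈ constr M (e 0) →
        Sat (constr M (e 0)) φ (cons x fun i => e (i + 1))) := inferInstance
    refine h2.congr fun M hM e he => ⟨fun h x hx => h x ?_ hx, fun h x _ hx => h x hx⟩
    have := hM.zfm
    exact constr_subset hM.powerSet (he 0) hx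

theorem isZFModel_set_iff {X : ZFSet.{u}} : IsZFModel (X : Set ZFSet.{u}) ↔
    (∀ x ∈ X, ∀ y ∈ x, y ∈ X) ∧ (∀ x ∈ X, ∀ y ∈ X, ({x, y} : ZFSet.{u}) ∈ X) ∧
    (∀ x ∈ X, (⋃₀ x : ZFSet.{u}) ∈ X) ∧ (∀ x ∈ X, ∃ y ∈ X, ∀ z ∈ X, z ⊆ x → z ∈ y) ∧
    omega ∈ X ∧ (∀ Y ∈ defPow X, ∀ a ∈ X, a ∩ Y ∈ X) ∧
    ∀ Y ∈ defPow X, ∀ a ∈ X,
      (∀ x ∈ a, ∃ y ∈ X, pair x y ∈ Y ∧ ∀ y' ∈ X, pair x y' ∈ Y → y' = y) →
      ∃ b ∈ X, ∀ x ∈ a, ∃ y ∈ b, pair x y ∈ Y := by
  constructor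
  · intro h
    have := h.zfm
    refine ⟨h.transitive, h.pairing, h.union, h.powerSet, h.infinity, ?_, ?_⟩
    · intro Y hY a ha
      obtain ⟨-, φ, e, he, rfl⟩ := mem_sep.1 hY
      have h0 : a ∩ X.sep (fun x => Sat X φ (cons x e)) = a.sep fun x => Sat X φ (cons x e) := by
        ext z
        simp only [mem_inter, mem_sep]
        exact ⟨fun h' => ⟨h'.1, h'.2.2⟩, fun h' => ⟨h'.1, h.transitive a ha z h'.1, h'.2⟩⟩
      rw [h0]
      exact h.separation φ e he a ha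
    · intro Y hY a ha H
      obtain ⟨-, φ, e, he, rfl⟩ := mem_sep.1 hY
      have h1 : Df (X : Set ZFSet.{u}) (fun e' => Sat X φ (cons (e' 0) e)) := (Df.sat φ).fix1 he
      have h2 : Df (X : Set ZFSet.{u}) (fun e' => Sat X φ (cons (pair (e' 1) (e' 0)) e)) :=
        Df.subst1 (R := fun z => Sat X φ (cons z e)) h1 _
      obtain ⟨b, hb, Hb⟩ := exists_repl (M := (X : Set ZFSet.{u}))
        (fun y x => Sat X φ (cons (pair x y) e)) (h := h2) ha (fun x hx => by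
          obtain ⟨y, hy, h3, h4⟩ := H x hx
          exact ⟨y, ⟨hy, (mem_sep.1 h3).2⟩, fun y' hy' => h4 y' hy'.1
            (mem_sep.2 ⟨pair_mem (M := (X : Set ZFSet.{u})) (mem_of_mem ha hx) hy'.1, hy'.2⟩)⟩)
      refine ⟨b, hb, fun x hx => ?_⟩
      obtain ⟨y, hy, h3⟩ := Hb x hx
      exact ⟨y, hy, mem_sep.2
        ⟨pair_mem (M := (X : Set ZFSet.{u})) (mem_of_mem ha hx) (mem_of_mem hb hy), h3⟩⟩
  · rintro ⟨h1, h2, h3, h4, h5, h6, h7⟩
    have ht : Trans (X : Set ZFSet.{u}) := ⟨h1, h1 _ h5 _ omega_zero⟩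
    refine ⟨h1, h2, h3, h4, h5, fun φ e he a ha => ?_, fun φ e he a ha H => ?_⟩
    · have h0 : a ∩ X.sep (fun x => Sat X φ (cons x e)) = a.sep fun x => Sat X φ (cons x e) := by
        ext z
        simp only [mem_inter, mem_sep]
        exact ⟨fun h' => ⟨h'.1, h'.2.2⟩, fun h' => ⟨h'.1, h1 a ha z h'.1, h'.2⟩⟩
      rw [← h0]
      exact h6 _ (mem_sep.2 ⟨mem_powerset.2 sep_subset, φ, e, he, rfl⟩) a ha
    · have k1 : UDf.{u} (fun M e => Sat M φ (cons (e 0) (cons (e 1) fun i => e (i + 1 + 1 + 1)))) :=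
        ((UDf.sat φ).rename
          (fun i => match i with | 0 => 0 | 1 => 1 | i + 2 => i + 1 + 1 + 1)).congr
          fun _ _ e _ => iff_of_eq (congrArg _ (funext fun i => by rcases i with _ | _ | i <;> rfl))
      have k2 : UDf.{u} (fun M e => ∃ x ∈ M, ∃ y ∈ M, e 0 = pair x y ∧
          Sat M φ (cons y (cons x fun i => e (i + 1)))) := inferInstance
      obtain ⟨ψ, hψ⟩ := k2.out
      have hp : ∀ x ∈ X, ∀ y ∈ X, pair x y ∈ X := fun x hx y hy =>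
        h2 _ (by simpa using h2 x hx x hx) _ (h2 x hx y hy)
      have k3 : ∀ x ∈ X, ∀ y ∈ X, (pair x y ∈ X.sep (fun z => Sat X ψ (cons z e)) ↔
          Sat X φ (cons y (cons x e))) := by
        intro x hx y hy
        rw [mem_sep, ← hψ X ht _ (cons_mem (M := (X : Set ZFSet.{u})) (hp x hx y hy) he)]
        constructor
        · rintro ⟨-, x', -, y', -, h, h'⟩
          obtain ⟨rfl, rfl⟩ := pair_inj.1 h
          exact h'
        · exact fun h => ⟨hp x hx y hy, x, hx, y, hy, rfl, h⟩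
      obtain ⟨b, hb, Hb⟩ := h7 _ (mem_sep.2 ⟨mem_powerset.2 sep_subset, ψ, e, he, rfl⟩) a ha
        (fun x hx => by
          obtain ⟨y, hy, hu⟩ := H x hx
          exact ⟨y, hy.1, (k3 x (h1 a ha x hx) y hy.1).2 hy.2,
            fun y' hy' h => hu y' ⟨hy', (k3 x (h1 a ha x hx) y' hy').1 h⟩⟩)
      refine ⟨b, hb, fun x hx => ?_⟩
      obtain ⟨y, hy, h⟩ := Hb x hx
      exact ⟨y, hy, (k3 x (h1 a ha x hx) y (h1 b hb y hy)).1 h⟩

instance ZDf.isZFModel {s : Set ZFSet.{u} → Env.{u} → ZFSet.{u}} [ZTm s] :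
    ZDf (fun M e => IsZFModel (s M e : Set ZFSet.{u})) := by
  refine ZDf.subst1 (R := fun _ a => IsZFModel (a : Set ZFSet.{u})) ?_ s
  simp only [isZFModel_set_iff]
  infer_instance

/-- `k` maps the nonempty subset `B` of `X` into `X` and preserves truth in `X`. -/
def ElemOn (X B : ZFSet.{u}) (k : ZFSet.{u} → ZFSet.{u}) : Prop :=
  B ⊆ X ∧ (∃ x, x ∈ B) ∧ (∀ x ∈ B, k x ∈ X) ∧
    ∀ (φ : Fml) (e : Env.{u}), (∀ i, e i ∈ B) → (Sat X φ e ↔ Sat X φ fun i => k (e i))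

theorem img_tup (k : ZFSet.{u} → ZFSet.{u}) (n : ℕ) (e : Env.{u}) :
    img (fun q => pair (fst q) (k (snd q))) (tup n e) = tup n fun i => k (e i) := by
  induction n generalizing e with
  | zero => ext z; simp [tup, mem_img]
  | succ n ih =>
    rw [tup, tup, ← ih]
    ext z
    simp [mem_img, eq_comm]

theorem elemOn_iff {X B : ZFSet.{u}} {k : ZFSet.{u} → ZFSet.{u}} : ElemOn X B k ↔
    B ⊆ X ∧ (∃ x ∈ B, x = x) ∧ (∀ x ∈ B, k x ∈ X) ∧ ∀ n U R, DerS X n U R → ∀ s ∈ U,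
      (∀ a b, pair a b ∈ s → b ∈ B) → (s ∈ R ↔ img (fun q => pair (fst q) (k (snd q))) s ∈ R) := by
  classical
  refine and_congr_right fun h1 => ?_
  simp only [and_true]
  refine and_congr_right fun ⟨x0, hx0⟩ => and_congr_right fun h3 => ⟨fun H => ?_, fun H => ?_⟩
  · rintro _ _ R ⟨n, rfl, rfl, h⟩ s hs hB
    obtain ⟨e, he, rfl⟩ := (mem_tups ⟨x0, h1 hx0⟩).1 hs
    obtain ⟨φ, hφ⟩ := h.sound ⟨x0, h1 hx0⟩
    have h4 : tup n e = tup n fun i => if i < n then e i else x0 := by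
      ext z
      have : ∀ e : Env.{u}, z ∈ tup n e ↔ ∃ i < n, z = pair (nat (n - 1 - i)) (e i) := by
        intro e
        constructor
        · intro hz
          have h5 : z ∈ img (fun q => pair (fst q) (id (snd q))) (tup n e) := by rwa [img_tup]
          obtain ⟨q, -, rfl⟩ := mem_img.1 h5
          obtain ⟨i, hi, h6, h7⟩ := pair_mem_tup.1 hz
          exact ⟨i, hi, by rw [h6, h7]⟩
        · rintro ⟨i, hi, rfl⟩
          exact pair_mem_tup.2 ⟨i, hi, rfl, rfl⟩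
      rw [this, this]
      exact exists_congr fun i => and_congr_right fun hi => by rw [if_pos hi]
    have h5 : ∀ i, (if i < n then e i else x0) ∈ B := by
      intro i
      split_ifs with hi
      exacts [hB _ _ (pair_mem_tup.2 ⟨i, hi, rfl, rfl⟩), hx0]
    rw [h4, img_tup, hφ _ fun i => h1 (h5 i), hφ _ fun i => h3 _ (h5 i)]
    exact H φ _ h5
  · intro φ e he
    obtain ⟨n, hn⟩ := Der.complete ⟨x0, h1 hx0⟩ φ
    obtain ⟨R, h, hφ⟩ := hn n le_rfl
    rw [← hφ _ fun i => h1 (he i), ← hφ _ fun i => h3 _ (he i), ← img_tup]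
    refine H _ _ R ⟨n, rfl, rfl, h⟩ _ ((mem_tups ⟨x0, h1 hx0⟩).2 ⟨e, fun i => h1 (he i), rfl⟩) ?_
    intro a b hab
    obtain ⟨i, -, -, rfl⟩ := pair_mem_tup.1 hab
    exact he i

instance ZDf.elemOn {s t : Set ZFSet.{u} → Env.{u} → ZFSet.{u}} [hs : ZTm s] [ht : ZTm t]
    {K : Set ZFSet.{u} → ZFSet.{u} → Env.{u} → ZFSet.{u}}
    [hK : ZTm (fun M e => K M (e 0) (fun i => e (i + 1)))] :
    ZDf (fun M e => ElemOn (s M e) (t M e) (fun x => K M x e)) := by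
  have := hs.shift
  have := hs.shift.shift.shift
  have := ht.shift.shift.shift.shift.shift.shift
  have h1 : ZTm (fun M e => K M (snd (e 0)) (fun i => e (i + 1 + 1 + 1 + 1 + 1))) := by
    have h2 : ZTm (fun M e => K M (e 0) (fun i => e (i + 1 + 1 + 1 + 1 + 1 + 1))) :=
      hK.rename (fun i => match i with | 0 => 0 | i + 1 => i + 1 + 1 + 1 + 1 + 1 + 1)
    have h3 : ZTm.{u} (fun _ e => snd (e 0)) := inferInstance
    refine ⟨fun M hM e he => h2.mem M hM (cons _ e) (cons_mem (h3.mem M hM e he) he), ?_⟩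
    have h4 : ZDf (fun M e => e 1 = K M (e 0) (fun i => e (i + 1 + 1 + 1 + 1 + 1 + 1 + 1))) :=
      h2.df.rename (fun i => match i with | 0 => 1 | 1 => 0 | i + 2 => i + 1 + 1)
    exact h4.consTm h3.shift
  refine (inferInstance : ZDf (fun M e => t M e ⊆ s M e ∧ (∃ x ∈ t M e, x = x) ∧
    (∀ x ∈ t M e, K M x e ∈ s M e) ∧ ∀ n ∈ M, ∀ U ∈ M, ∀ R ∈ M, DerS (s M e) n U R → ∀ q ∈ U,
      (∀ a b, pair a b ∈ q → b ∈ t M e) →
      (q ∈ R ↔ img (fun z => pair (fst z) (K M (snd z) e)) q ∈ R))).congr fun M hM e he => ?_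
  have := hM.zfm
  rw [elemOn_iff]
  refine and_congr_right fun _ => and_congr_right fun _ => and_congr_right fun _ =>
    ⟨fun H n U R h => ?_, fun H n _ U _ R _ h => H n U R h⟩
  obtain ⟨m, rfl, rfl, h'⟩ := id h
  exact H _ (nat_mem m) _ (tups_mem (hs.mem M hM e he) m) _ (h'.mem_model (hs.mem M hM e he)) h

end Pool.Agent.Lib.Forcing
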